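import Pool.Agent.H209.SW.Num

set_option autoImplicit false

/-! The numerical conditions for the values of `n`. -/

namespace Pool.Agent.H209.SW

theorem numS_15 {s κ : ℝ} (hn : s * s = (15 : ℤ)) (hs : 3 < s) (h1 : (3872983 : ℝ) ≤ 1000000 * s)
    (h2 : 1000000 * s ≤ (3872984 : ℝ)) (hT : (2707182 : ℝ) ≤ 1000000 * κ) : NumS s κ := by
  refine numS_of (N := 1000000) (S1 := 3872983) (S2 := 3872984) (T := 2707182) hn hs (by norm_num)
    (by push_cast; exact h1) (by push_cast; exact h2) (by norm_num) (by push_cast; exact hT) ?_ ?_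
  · intro a h0 h1
    omega
  · intro a f D h0 h1 h2 h3 h4 h5 h6 h7 h8 h9
    have ha : a ≤ 11 := by omega
    have hf1 : 3 ≤ f := by omega
    have hf2 : f ≤ 14 := by omega
    interval_cases f <;> interval_cases a <;> omega

theorem numE_15 {s κ : ℝ} (hn : s * s = (15 : ℤ)) (hs : 3 < s) (h1 : (3872983 : ℝ) ≤ 1000000 * s)
    (h2 : 1000000 * s ≤ (3872984 : ℝ)) (hT : 1000000 * κ ≤ (563488 : ℝ)) : NumE s κ 0 := by
  refine numE_of (N := 1000000) (S1 := 3872983) (S2 := 3872984) (T := 563488) hn hs (by norm_num) (by norm_num)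
    (by push_cast; exact h1) (by push_cast; exact h2) (by push_cast; exact hT) ?_
  intro P j D h0 h1 h2 h3 h4 h5 h6 h7 h8 h9
  have hP : P ≤ 12 := by omega
  have hj1 : 0 ≤ j := by omega
  have hj2 : j ≤ 9 := by omega
  interval_cases j <;> interval_cases P <;> omega

end Pool.Agent.H209.SW
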