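import Pool.Agent.H209.SW.Num

set_option autoImplicit false

/-! The numerical conditions for the values of `n`. -/

namespace Pool.Agent.H209.SW

theorem numS_10 {s κ : ℝ} (hn : s * s = (10 : ℤ)) (hs : 3 < s) (h1 : (3162277 : ℝ) ≤ 1000000 * s)
    (h2 : 1000000 * s ≤ (3162278 : ℝ)) (hT : (462131 : ℝ) ≤ 1000000 * κ) : NumS s κ := by
  refine numS_of (N := 1000000) (S1 := 3162277) (S2 := 3162278) (T := 462131) hn hs (by norm_num)
    (by push_cast; exact h1) (by push_cast; exact h2) (by norm_num) (by push_cast; exact hT) ?_ ?_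
  · intro a h0 h1
    omega
  · intro a f D h0 h1 h2 h3 h4 h5 h6 h7 h8 h9
    have ha : a ≤ 9 := by omega
    have hf1 : 1 ≤ f := by omega
    have hf2 : f ≤ 9 := by omega
    interval_cases f <;> interval_cases a <;> omega

theorem numE_10 {s κ : ℝ} (hn : s * s = (10 : ℤ)) (hs : 3 < s) (h1 : (3162277 : ℝ) ≤ 1000000 * s)
    (h2 : 1000000 * s ≤ (3162278 : ℝ)) (hT : 1000000 * κ ≤ (-1141 : ℝ)) : NumE s κ 0 := by
  refine numE_of (N := 1000000) (S1 := 3162277) (S2 := 3162278) (T := -1141) hn hs (by norm_num) (by norm_num)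
    (by push_cast; exact h1) (by push_cast; exact h2) (by push_cast; exact hT) ?_
  intro P j D h0 h1 h2 h3 h4 h5 h6 h7 h8 h9
  have hP : P ≤ 10 := by omega
  have hj1 : 0 ≤ j := by omega
  have hj2 : j ≤ 8 := by omega
  interval_cases j <;> interval_cases P <;> omega

theorem numS_12 {s κ : ℝ} (hn : s * s = (12 : ℤ)) (hs : 3 < s) (h1 : (3464101 : ℝ) ≤ 1000000 * s)
    (h2 : 1000000 * s ≤ (3464102 : ℝ)) (hT : (1340782 : ℝ) ≤ 1000000 * κ) : NumS s κ := by
  refine numS_of (N := 1000000) (S1 := 3464101) (S2 := 3464102) (T := 1340782) hn hs (by norm_num)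
    (by push_cast; exact h1) (by push_cast; exact h2) (by norm_num) (by push_cast; exact hT) ?_ ?_
  · intro a h0 h1
    omega
  · intro a f D h0 h1 h2 h3 h4 h5 h6 h7 h8 h9
    have ha : a ≤ 10 := by omega
    have hf1 : 2 ≤ f := by omega
    have hf2 : f ≤ 11 := by omega
    interval_cases f <;> interval_cases a <;> omega

theorem numE_12 {s κ : ℝ} (hn : s * s = (12 : ℤ)) (hs : 3 < s) (h1 : (3464101 : ℝ) ≤ 1000000 * s)
    (h2 : 1000000 * s ≤ (3464102 : ℝ)) (hT : 1000000 * κ ≤ (266913 : ℝ)) : NumE s κ 0 := by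
  refine numE_of (N := 1000000) (S1 := 3464101) (S2 := 3464102) (T := 266913) hn hs (by norm_num) (by norm_num)
    (by push_cast; exact h1) (by push_cast; exact h2) (by push_cast; exact hT) ?_
  intro P j D h0 h1 h2 h3 h4 h5 h6 h7 h8 h9
  have hP : P ≤ 11 := by omega
  have hj1 : 0 ≤ j := by omega
  have hj2 : j ≤ 9 := by omega
  interval_cases j <;> interval_cases P <;> omega

theorem numS_14 {s κ : ℝ} (hn : s * s = (14 : ℤ)) (hs : 3 < s) (h1 : (3741657 : ℝ) ≤ 1000000 * s)
    (h2 : 1000000 * s ≤ (3741658 : ℝ)) (hT : (2199452 : ℝ) ≤ 1000000 * κ) : NumS s κ := by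
  refine numS_of (N := 1000000) (S1 := 3741657) (S2 := 3741658) (T := 2199452) hn hs (by norm_num)
    (by push_cast; exact h1) (by push_cast; exact h2) (by norm_num) (by push_cast; exact hT) ?_ ?_
  · intro a h0 h1
    omega
  · intro a f D h0 h1 h2 h3 h4 h5 h6 h7 h8 h9
    have ha : a ≤ 11 := by omega
    have hf1 : 3 ≤ f := by omega
    have hf2 : f ≤ 13 := by omega
    interval_cases f <;> interval_cases a <;> omega

theorem numE_14 {s κ : ℝ} (hn : s * s = (14 : ℤ)) (hs : 3 < s) (h1 : (3741657 : ℝ) ≤ 1000000 * s)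
    (h2 : 1000000 * s ≤ (3741658 : ℝ)) (hT : 1000000 * κ ≤ (554996 : ℝ)) : NumE s κ 0 := by
  refine numE_of (N := 1000000) (S1 := 3741657) (S2 := 3741658) (T := 554996) hn hs (by norm_num) (by norm_num)
    (by push_cast; exact h1) (by push_cast; exact h2) (by push_cast; exact hT) ?_
  intro P j D h0 h1 h2 h3 h4 h5 h6 h7 h8 h9
  have hP : P ≤ 12 := by omega
  have hj1 : 0 ≤ j := by omega
  have hj2 : j ≤ 9 := by omega
  interval_cases j <;> interval_cases P <;> omega

theorem numS_17 {s κ : ℝ} (hn : s * s = (17 : ℤ)) (hs : 3 < s) (h1 : (4123105 : ℝ) ≤ 1000000 * s)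
    (h2 : 1000000 * s ≤ (4123106 : ℝ)) (hT : (3273963 : ℝ) ≤ 1000000 * κ) : NumS s κ := by
  refine numS_of (N := 1000000) (S1 := 4123105) (S2 := 4123106) (T := 3273963) hn hs (by norm_num)
    (by push_cast; exact h1) (by push_cast; exact h2) (by norm_num) (by push_cast; exact hT) ?_ ?_
  · intro a h0 h1
    omega
  · intro a f D h0 h1 h2 h3 h4 h5 h6 h7 h8 h9
    have ha : a ≤ 12 := by omega
    have hf1 : 4 ≤ f := by omega
    have hf2 : f ≤ 15 := by omega
    interval_cases f <;> interval_cases a <;> omega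

theorem numE_17 {s κ : ℝ} (hn : s * s = (17 : ℤ)) (hs : 3 < s) (h1 : (4123105 : ℝ) ≤ 1000000 * s)
    (h2 : 1000000 * s ≤ (4123106 : ℝ)) (hT : 1000000 * κ ≤ (577454 : ℝ)) : NumE s κ 0 := by
  refine numE_of (N := 1000000) (S1 := 4123105) (S2 := 4123106) (T := 577454) hn hs (by norm_num) (by norm_num)
    (by push_cast; exact h1) (by push_cast; exact h2) (by push_cast; exact hT) ?_
  intro P j D h0 h1 h2 h3 h4 h5 h6 h7 h8 h9
  have hP : P ≤ 13 := by omega
  have hj1 : 0 ≤ j := by omega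
  have hj2 : j ≤ 9 := by omega
  interval_cases j <;> interval_cases P <;> omega

theorem numS_18 {s κ : ℝ} (hn : s * s = (18 : ℤ)) (hs : 3 < s) (h1 : (4242640 : ℝ) ≤ 1000000 * s)
    (h2 : 1000000 * s ≤ (4242641 : ℝ)) (hT : (3809128 : ℝ) ≤ 1000000 * κ) : NumS s κ := by
  refine numS_of (N := 1000000) (S1 := 4242640) (S2 := 4242641) (T := 3809128) hn hs (by norm_num)
    (by push_cast; exact h1) (by push_cast; exact h2) (by norm_num) (by push_cast; exact hT) ?_ ?_
  · intro a h0 h1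
    omega
  · intro a f D h0 h1 h2 h3 h4 h5 h6 h7 h8 h9
    have ha : a ≤ 12 := by omega
    have hf1 : 4 ≤ f := by omega
    have hf2 : f ≤ 16 := by omega
    interval_cases f <;> interval_cases a <;> omega

theorem numE_18 {s κ : ℝ} (hn : s * s = (18 : ℤ)) (hs : 3 < s) (h1 : (4242640 : ℝ) ≤ 1000000 * s)
    (h2 : 1000000 * s ≤ (4242641 : ℝ)) (hT : 1000000 * κ ≤ (584724 : ℝ)) : NumE s κ 0 := by
  refine numE_of (N := 1000000) (S1 := 4242640) (S2 := 4242641) (T := 584724) hn hs (by norm_num) (by norm_num)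
    (by push_cast; exact h1) (by push_cast; exact h2) (by push_cast; exact hT) ?_
  intro P j D h0 h1 h2 h3 h4 h5 h6 h7 h8 h9
  have hP : P ≤ 13 := by omega
  have hj1 : 0 ≤ j := by omega
  have hj2 : j ≤ 9 := by omega
  interval_cases j <;> interval_cases P <;> omega

theorem numS_19 {s κ : ℝ} (hn : s * s = (19 : ℤ)) (hs : 3 < s) (h1 : (4358898 : ℝ) ≤ 1000000 * s)
    (h2 : 1000000 * s ≤ (4358899 : ℝ)) (hT : (4312910 : ℝ) ≤ 1000000 * κ) : NumS s κ := by
  refine numS_of (N := 1000000) (S1 := 4358898) (S2 := 4358899) (T := 4312910) hn hs (by norm_num)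
    (by push_cast; exact h1) (by push_cast; exact h2) (by norm_num) (by push_cast; exact hT) ?_ ?_
  · intro a h0 h1
    omega
  · intro a f D h0 h1 h2 h3 h4 h5 h6 h7 h8 h9
    have ha : a ≤ 13 := by omega
    have hf1 : 5 ≤ f := by omega
    have hf2 : f ≤ 17 := by omega
    interval_cases f <;> interval_cases a <;> omega

theorem numE_19 {s κ : ℝ} (hn : s * s = (19 : ℤ)) (hs : 3 < s) (h1 : (4358898 : ℝ) ≤ 1000000 * s)
    (h2 : 1000000 * s ≤ (4358899 : ℝ)) (hT : 1000000 * κ ≤ (610028 : ℝ)) : NumE s κ 1 := by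
  refine numE_of (N := 1000000) (S1 := 4358898) (S2 := 4358899) (T := 610028) hn hs (by norm_num) (by norm_num)
    (by push_cast; exact h1) (by push_cast; exact h2) (by push_cast; exact hT) ?_
  intro P j D h0 h1 h2 h3 h4 h5 h6 h7 h8 h9
  have hP : P ≤ 14 := by omega
  have hj1 : -1 ≤ j := by omega
  have hj2 : j ≤ 9 := by omega
  interval_cases j <;> interval_cases P <;> omega

end Pool.Agent.H209.SW
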