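import Pool.Agent.H209.SW.Num

set_option autoImplicit false

/-! The numerical conditions for the values of `n`. -/

namespace Pool.Agent.H209.SW

theorem numS_20 {s κ : ℝ} (hn : s * s = (20 : ℤ)) (hs : 3 < s) (h1 : (4472135 : ℝ) ≤ 1000000 * s)
    (h2 : 1000000 * s ≤ (4472136 : ℝ)) (hT : (4608840 : ℝ) ≤ 1000000 * κ) : NumS s κ := by
  refine numS_of (N := 1000000) (S1 := 4472135) (S2 := 4472136) (T := 4608840) hn hs (by norm_num)
    (by push_cast; exact h1) (by push_cast; exact h2) (by norm_num) (by push_cast; exact hT) ?_ ?_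
  · intro a h0 h1
    omega
  · intro a f D h0 h1 h2 h3 h4 h5 h6 h7 h8 h9
    have ha : a ≤ 13 := by omega
    have hf1 : 5 ≤ f := by omega
    have hf2 : f ≤ 17 := by omega
    interval_cases f <;> interval_cases a <;> omega

theorem numE_20 {s κ : ℝ} (hn : s * s = (20 : ℤ)) (hs : 3 < s) (h1 : (4472135 : ℝ) ≤ 1000000 * s)
    (h2 : 1000000 * s ≤ (4472136 : ℝ)) (hT : 1000000 * κ ≤ (972996 : ℝ)) : NumE s κ 1 := by
  refine numE_of (N := 1000000) (S1 := 4472135) (S2 := 4472136) (T := 972996) hn hs (by norm_num) (by norm_num)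
    (by push_cast; exact h1) (by push_cast; exact h2) (by push_cast; exact hT) ?_
  intro P j D h0 h1 h2 h3 h4 h5 h6 h7 h8 h9
  have hP : P ≤ 14 := by omega
  have hj1 : -1 ≤ j := by omega
  have hj2 : j ≤ 9 := by omega
  interval_cases j <;> interval_cases P <;> omega

theorem numS_22 {s κ : ℝ} (hn : s * s = (22 : ℤ)) (hs : 3 < s) (h1 : (4690415 : ℝ) ≤ 1000000 * s)
    (h2 : 1000000 * s ≤ (4690416 : ℝ)) (hT : (5362119 : ℝ) ≤ 1000000 * κ) : NumS s κ := by
  refine numS_of (N := 1000000) (S1 := 4690415) (S2 := 4690416) (T := 5362119) hn hs (by norm_num)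
    (by push_cast; exact h1) (by push_cast; exact h2) (by norm_num) (by push_cast; exact hT) ?_ ?_
  · intro a h0 h1
    omega
  · intro a f D h0 h1 h2 h3 h4 h5 h6 h7 h8 h9
    have ha : a ≤ 14 := by omega
    have hf1 : 6 ≤ f := by omega
    have hf2 : f ≤ 19 := by omega
    interval_cases f <;> interval_cases a <;> omega

theorem numE_22 {s κ : ℝ} (hn : s * s = (22 : ℤ)) (hs : 3 < s) (h1 : (4690415 : ℝ) ≤ 1000000 * s)
    (h2 : 1000000 * s ≤ (4690416 : ℝ)) (hT : 1000000 * κ ≤ (1567576 : ℝ)) : NumE s κ 1 := by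
  refine numE_of (N := 1000000) (S1 := 4690415) (S2 := 4690416) (T := 1567576) hn hs (by norm_num) (by norm_num)
    (by push_cast; exact h1) (by push_cast; exact h2) (by push_cast; exact hT) ?_
  intro P j D h0 h1 h2 h3 h4 h5 h6 h7 h8 h9
  have hP : P ≤ 15 := by omega
  have hj1 : -1 ≤ j := by omega
  have hj2 : j ≤ 10 := by omega
  interval_cases j <;> interval_cases P <;> omega

theorem numS_23 {s κ : ℝ} (hn : s * s = (23 : ℤ)) (hs : 3 < s) (h1 : (4795831 : ℝ) ≤ 1000000 * s)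
    (h2 : 1000000 * s ≤ (4795832 : ℝ)) (hT : (5617912 : ℝ) ≤ 1000000 * κ) : NumS s κ := by
  refine numS_of (N := 1000000) (S1 := 4795831) (S2 := 4795832) (T := 5617912) hn hs (by norm_num)
    (by push_cast; exact h1) (by push_cast; exact h2) (by norm_num) (by push_cast; exact hT) ?_ ?_
  · intro a h0 h1
    omega
  · intro a f D h0 h1 h2 h3 h4 h5 h6 h7 h8 h9
    have ha : a ≤ 14 := by omega
    have hf1 : 6 ≤ f := by omega
    have hf2 : f ≤ 19 := by omega
    interval_cases f <;> interval_cases a <;> omega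

theorem numE_23 {s κ : ℝ} (hn : s * s = (23 : ℤ)) (hs : 3 < s) (h1 : (4795831 : ℝ) ≤ 1000000 * s)
    (h2 : 1000000 * s ≤ (4795832 : ℝ)) (hT : 1000000 * κ ≤ (1994663 : ℝ)) : NumE s κ 1 := by
  refine numE_of (N := 1000000) (S1 := 4795831) (S2 := 4795832) (T := 1994663) hn hs (by norm_num) (by norm_num)
    (by push_cast; exact h1) (by push_cast; exact h2) (by push_cast; exact hT) ?_
  intro P j D h0 h1 h2 h3 h4 h5 h6 h7 h8 h9
  have hP : P ≤ 15 := by omega
  have hj1 : -1 ≤ j := by omega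
  have hj2 : j ≤ 10 := by omega
  interval_cases j <;> interval_cases P <;> omega

theorem numS_24 {s κ : ℝ} (hn : s * s = (24 : ℤ)) (hs : 3 < s) (h1 : (4898979 : ℝ) ≤ 1000000 * s)
    (h2 : 1000000 * s ≤ (4898980 : ℝ)) (hT : (5815037 : ℝ) ≤ 1000000 * κ) : NumS s κ := by
  refine numS_of (N := 1000000) (S1 := 4898979) (S2 := 4898980) (T := 5815037) hn hs (by norm_num)
    (by push_cast; exact h1) (by push_cast; exact h2) (by norm_num) (by push_cast; exact hT) ?_ ?_
  · intro a h0 h1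
    omega
  · intro a f D h0 h1 h2 h3 h4 h5 h6 h7 h8 h9
    have ha : a ≤ 14 := by omega
    have hf1 : 6 ≤ f := by omega
    have hf2 : f ≤ 20 := by omega
    interval_cases f <;> interval_cases a <;> omega

theorem numE_24 {s κ : ℝ} (hn : s * s = (24 : ℤ)) (hs : 3 < s) (h1 : (4898979 : ℝ) ≤ 1000000 * s)
    (h2 : 1000000 * s ≤ (4898980 : ℝ)) (hT : 1000000 * κ ≤ (2488633 : ℝ)) : NumE s κ 1 := by
  refine numE_of (N := 1000000) (S1 := 4898979) (S2 := 4898980) (T := 2488633) hn hs (by norm_num) (by norm_num)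
    (by push_cast; exact h1) (by push_cast; exact h2) (by push_cast; exact hT) ?_
  intro P j D h0 h1 h2 h3 h4 h5 h6 h7 h8 h9
  have hP : P ≤ 15 := by omega
  have hj1 : -1 ≤ j := by omega
  have hj2 : j ≤ 11 := by omega
  interval_cases j <;> interval_cases P <;> omega

theorem numS_26 {s κ : ℝ} (hn : s * s = (26 : ℤ)) (hs : 3 < s) (h1 : (5099019 : ℝ) ≤ 1000000 * s)
    (h2 : 1000000 * s ≤ (5099020 : ℝ)) (hT : (6412066 : ℝ) ≤ 1000000 * κ) : NumS s κ := by
  refine numS_of (N := 1000000) (S1 := 5099019) (S2 := 5099020) (T := 6412066) hn hs (by norm_num)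
    (by push_cast; exact h1) (by push_cast; exact h2) (by norm_num) (by push_cast; exact hT) ?_ ?_
  · intro a h0 h1
    omega
  · intro a f D h0 h1 h2 h3 h4 h5 h6 h7 h8 h9
    have ha : a ≤ 15 := by omega
    have hf1 : 7 ≤ f := by omega
    have hf2 : f ≤ 21 := by omega
    interval_cases f <;> interval_cases a <;> omega

theorem numE_26 {s κ : ℝ} (hn : s * s = (26 : ℤ)) (hs : 3 < s) (h1 : (5099019 : ℝ) ≤ 1000000 * s)
    (h2 : 1000000 * s ≤ (5099020 : ℝ)) (hT : 1000000 * κ ≤ (3288919 : ℝ)) : NumE s κ 1 := by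
  refine numE_of (N := 1000000) (S1 := 5099019) (S2 := 5099020) (T := 3288919) hn hs (by norm_num) (by norm_num)
    (by push_cast; exact h1) (by push_cast; exact h2) (by push_cast; exact hT) ?_
  intro P j D h0 h1 h2 h3 h4 h5 h6 h7 h8 h9
  have hP : P ≤ 16 := by omega
  have hj1 : -1 ≤ j := by omega
  have hj2 : j ≤ 12 := by omega
  interval_cases j <;> interval_cases P <;> omega

end Pool.Agent.H209.SW
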