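import Pool.Agent.H209.SW.Num

set_option autoImplicit false

/-! The numerical conditions for the values of `n`. -/

namespace Pool.Agent.H209.SW

theorem numS_27 {s κ : ℝ} (hn : s * s = (27 : ℤ)) (hs : 3 < s) (h1 : (5196152 : ℝ) ≤ 1000000 * s)
    (h2 : 1000000 * s ≤ (5196153 : ℝ)) (hT : (6763187 : ℝ) ≤ 1000000 * κ) : NumS s κ := by
  refine numS_of (N := 1000000) (S1 := 5196152) (S2 := 5196153) (T := 6763187) hn hs (by norm_num)
    (by push_cast; exact h1) (by push_cast; exact h2) (by norm_num) (by push_cast; exact hT) ?_ ?_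
  · intro a h0 h1
    omega
  · intro a f D h0 h1 h2 h3 h4 h5 h6 h7 h8 h9
    have ha : a ≤ 15 := by omega
    have hf1 : 7 ≤ f := by omega
    have hf2 : f ≤ 22 := by omega
    interval_cases f <;> interval_cases a <;> omega

theorem numE_27 {s κ : ℝ} (hn : s * s = (27 : ℤ)) (hs : 3 < s) (h1 : (5196152 : ℝ) ≤ 1000000 * s)
    (h2 : 1000000 * s ≤ (5196153 : ℝ)) (hT : 1000000 * κ ≤ (3648096 : ℝ)) : NumE s κ 1 := by
  refine numE_of (N := 1000000) (S1 := 5196152) (S2 := 5196153) (T := 3648096) hn hs (by norm_num) (by norm_num)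
    (by push_cast; exact h1) (by push_cast; exact h2) (by push_cast; exact hT) ?_
  intro P j D h0 h1 h2 h3 h4 h5 h6 h7 h8 h9
  have hP : P ≤ 16 := by omega
  have hj1 : -1 ≤ j := by omega
  have hj2 : j ≤ 12 := by omega
  interval_cases j <;> interval_cases P <;> omega

theorem numS_28 {s κ : ℝ} (hn : s * s = (28 : ℤ)) (hs : 3 < s) (h1 : (5291502 : ℝ) ≤ 1000000 * s)
    (h2 : 1000000 * s ≤ (5291503 : ℝ)) (hT : (7364455 : ℝ) ≤ 1000000 * κ) : NumS s κ := by
  refine numS_of (N := 1000000) (S1 := 5291502) (S2 := 5291503) (T := 7364455) hn hs (by norm_num)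
    (by push_cast; exact h1) (by push_cast; exact h2) (by norm_num) (by push_cast; exact hT) ?_ ?_
  · intro a h0 h1
    omega
  · intro a f D h0 h1 h2 h3 h4 h5 h6 h7 h8 h9
    have ha : a ≤ 15 := by omega
    have hf1 : 8 ≤ f := by omega
    have hf2 : f ≤ 22 := by omega
    interval_cases f <;> interval_cases a <;> omega

theorem numE_28 {s κ : ℝ} (hn : s * s = (28 : ℤ)) (hs : 3 < s) (h1 : (5291502 : ℝ) ≤ 1000000 * s)
    (h2 : 1000000 * s ≤ (5291503 : ℝ)) (hT : 1000000 * κ ≤ (3760944 : ℝ)) : NumE s κ 1 := by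
  refine numE_of (N := 1000000) (S1 := 5291502) (S2 := 5291503) (T := 3760944) hn hs (by norm_num) (by norm_num)
    (by push_cast; exact h1) (by push_cast; exact h2) (by push_cast; exact hT) ?_
  intro P j D h0 h1 h2 h3 h4 h5 h6 h7 h8 h9
  have hP : P ≤ 16 := by omega
  have hj1 : -1 ≤ j := by omega
  have hj2 : j ≤ 12 := by omega
  interval_cases j <;> interval_cases P <;> omega

theorem numS_29 {s κ : ℝ} (hn : s * s = (29 : ℤ)) (hs : 3 < s) (h1 : (5385164 : ℝ) ≤ 1000000 * s)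
    (h2 : 1000000 * s ≤ (5385165 : ℝ)) (hT : (7445433 : ℝ) ≤ 1000000 * κ) : NumS s κ := by
  refine numS_of (N := 1000000) (S1 := 5385164) (S2 := 5385165) (T := 7445433) hn hs (by norm_num)
    (by push_cast; exact h1) (by push_cast; exact h2) (by norm_num) (by push_cast; exact hT) ?_ ?_
  · intro a h0 h1
    omega
  · intro a f D h0 h1 h2 h3 h4 h5 h6 h7 h8 h9
    have ha : a ≤ 16 := by omega
    have hf1 : 8 ≤ f := by omega
    have hf2 : f ≤ 23 := by omega
    interval_cases f <;> interval_cases a <;> omega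

theorem numE_29 {s κ : ℝ} (hn : s * s = (29 : ℤ)) (hs : 3 < s) (h1 : (5385164 : ℝ) ≤ 1000000 * s)
    (h2 : 1000000 * s ≤ (5385165 : ℝ)) (hT : 1000000 * κ ≤ (4400125 : ℝ)) : NumE s κ 1 := by
  refine numE_of (N := 1000000) (S1 := 5385164) (S2 := 5385165) (T := 4400125) hn hs (by norm_num) (by norm_num)
    (by push_cast; exact h1) (by push_cast; exact h2) (by push_cast; exact hT) ?_
  intro P j D h0 h1 h2 h3 h4 h5 h6 h7 h8 h9
  have hP : P ≤ 17 := by omega
  have hj1 : -1 ≤ j := by omega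
  have hj2 : j ≤ 13 := by omega
  interval_cases j <;> interval_cases P <;> omega

theorem numS_30 {s κ : ℝ} (hn : s * s = (30 : ℤ)) (hs : 3 < s) (h1 : (5477225 : ℝ) ≤ 1000000 * s)
    (h2 : 1000000 * s ≤ (5477226 : ℝ)) (hT : (7690641 : ℝ) ≤ 1000000 * κ) : NumS s κ := by
  refine numS_of (N := 1000000) (S1 := 5477225) (S2 := 5477226) (T := 7690641) hn hs (by norm_num)
    (by push_cast; exact h1) (by push_cast; exact h2) (by norm_num) (by push_cast; exact hT) ?_ ?_
  · intro a h0 h1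
    omega
  · intro a f D h0 h1 h2 h3 h4 h5 h6 h7 h8 h9
    have ha : a ≤ 16 := by omega
    have hf1 : 8 ≤ f := by omega
    have hf2 : f ≤ 23 := by omega
    interval_cases f <;> interval_cases a <;> omega

theorem numE_30 {s κ : ℝ} (hn : s * s = (30 : ℤ)) (hs : 3 < s) (h1 : (5477225 : ℝ) ≤ 1000000 * s)
    (h2 : 1000000 * s ≤ (5477226 : ℝ)) (hT : 1000000 * κ ≤ (4878089 : ℝ)) : NumE s κ 1 := by
  refine numE_of (N := 1000000) (S1 := 5477225) (S2 := 5477226) (T := 4878089) hn hs (by norm_num) (by norm_num)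
    (by push_cast; exact h1) (by push_cast; exact h2) (by push_cast; exact hT) ?_
  intro P j D h0 h1 h2 h3 h4 h5 h6 h7 h8 h9
  have hP : P ≤ 17 := by omega
  have hj1 : -1 ≤ j := by omega
  have hj2 : j ≤ 13 := by omega
  interval_cases j <;> interval_cases P <;> omega

theorem numS_31 {s κ : ℝ} (hn : s * s = (31 : ℤ)) (hs : 3 < s) (h1 : (5567764 : ℝ) ≤ 1000000 * s)
    (h2 : 1000000 * s ≤ (5567765 : ℝ)) (hT : (8303663 : ℝ) ≤ 1000000 * κ) : NumS s κ := by
  refine numS_of (N := 1000000) (S1 := 5567764) (S2 := 5567765) (T := 8303663) hn hs (by norm_num)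
    (by push_cast; exact h1) (by push_cast; exact h2) (by norm_num) (by push_cast; exact hT) ?_ ?_
  · intro a h0 h1
    omega
  · intro a f D h0 h1 h2 h3 h4 h5 h6 h7 h8 h9
    have ha : a ≤ 16 := by omega
    have hf1 : 9 ≤ f := by omega
    have hf2 : f ≤ 24 := by omega
    interval_cases f <;> interval_cases a <;> omega

theorem numE_31 {s κ : ℝ} (hn : s * s = (31 : ℤ)) (hs : 3 < s) (h1 : (5567764 : ℝ) ≤ 1000000 * s)
    (h2 : 1000000 * s ≤ (5567765 : ℝ)) (hT : 1000000 * κ ≤ (4993630 : ℝ)) : NumE s κ 1 := by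
  refine numE_of (N := 1000000) (S1 := 5567764) (S2 := 5567765) (T := 4993630) hn hs (by norm_num) (by norm_num)
    (by push_cast; exact h1) (by push_cast; exact h2) (by push_cast; exact hT) ?_
  intro P j D h0 h1 h2 h3 h4 h5 h6 h7 h8 h9
  have hP : P ≤ 17 := by omega
  have hj1 : -1 ≤ j := by omega
  have hj2 : j ≤ 13 := by omega
  interval_cases j <;> interval_cases P <;> omega

end Pool.Agent.H209.SW
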