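import Pool.Agent.H209.SW.Num

set_option autoImplicit false

/-! The numerical conditions for the values of `n`. -/

namespace Pool.Agent.H209.SW

theorem numS_32 {s κ : ℝ} (hn : s * s = (32 : ℤ)) (hs : 3 < s) (h1 : (5656854 : ℝ) ≤ 1000000 * s)
    (h2 : 1000000 * s ≤ (5656855 : ℝ)) (hT : (8456583 : ℝ) ≤ 1000000 * κ) : NumS s κ := by
  refine numS_of (N := 1000000) (S1 := 5656854) (S2 := 5656855) (T := 8456583) hn hs (by norm_num)
    (by push_cast; exact h1) (by push_cast; exact h2) (by norm_num) (by push_cast; exact hT) ?_ ?_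
  · intro a h0 h1
    omega
  · intro a f D h0 h1 h2 h3 h4 h5 h6 h7 h8 h9
    have ha : a ≤ 16 := by omega
    have hf1 : 9 ≤ f := by omega
    have hf2 : f ≤ 24 := by omega
    interval_cases f <;> interval_cases a <;> omega

theorem numE_32 {s κ : ℝ} (hn : s * s = (32 : ℤ)) (hs : 3 < s) (h1 : (5656854 : ℝ) ≤ 1000000 * s)
    (h2 : 1000000 * s ≤ (5656855 : ℝ)) (hT : 1000000 * κ ≤ (5574419 : ℝ)) : NumE s κ 1 := by
  refine numE_of (N := 1000000) (S1 := 5656854) (S2 := 5656855) (T := 5574419) hn hs (by norm_num) (by norm_num)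
    (by push_cast; exact h1) (by push_cast; exact h2) (by push_cast; exact hT) ?_
  intro P j D h0 h1 h2 h3 h4 h5 h6 h7 h8 h9
  have hP : P ≤ 17 := by omega
  have hj1 : -1 ≤ j := by omega
  have hj2 : j ≤ 14 := by omega
  interval_cases j <;> interval_cases P <;> omega

theorem numS_33 {s κ : ℝ} (hn : s * s = (33 : ℤ)) (hs : 3 < s) (h1 : (5744562 : ℝ) ≤ 1000000 * s)
    (h2 : 1000000 * s ≤ (5744563 : ℝ)) (hT : (8480590 : ℝ) ≤ 1000000 * κ) : NumS s κ := by
  refine numS_of (N := 1000000) (S1 := 5744562) (S2 := 5744563) (T := 8480590) hn hs (by norm_num)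
    (by push_cast; exact h1) (by push_cast; exact h2) (by norm_num) (by push_cast; exact hT) ?_ ?_
  · intro a h0 h1
    omega
  · intro a f D h0 h1 h2 h3 h4 h5 h6 h7 h8 h9
    have ha : a ≤ 17 := by omega
    have hf1 : 9 ≤ f := by omega
    have hf2 : f ≤ 25 := by omega
    interval_cases f <;> interval_cases a <;> omega

theorem numE_33 {s κ : ℝ} (hn : s * s = (33 : ℤ)) (hs : 3 < s) (h1 : (5744562 : ℝ) ≤ 1000000 * s)
    (h2 : 1000000 * s ≤ (5744563 : ℝ)) (hT : 1000000 * κ ≤ (6286169 : ℝ)) : NumE s κ 1 := by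
  refine numE_of (N := 1000000) (S1 := 5744562) (S2 := 5744563) (T := 6286169) hn hs (by norm_num) (by norm_num)
    (by push_cast; exact h1) (by push_cast; exact h2) (by push_cast; exact hT) ?_
  intro P j D h0 h1 h2 h3 h4 h5 h6 h7 h8 h9
  have hP : P ≤ 18 := by omega
  have hj1 : -1 ≤ j := by omega
  have hj2 : j ≤ 15 := by omega
  interval_cases j <;> interval_cases P <;> omega

theorem numS_34 {s κ : ℝ} (hn : s * s = (34 : ℤ)) (hs : 3 < s) (h1 : (5830951 : ℝ) ≤ 1000000 * s)
    (h2 : 1000000 * s ≤ (5830952 : ℝ)) (hT : (8740456 : ℝ) ≤ 1000000 * κ) : NumS s κ := by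
  refine numS_of (N := 1000000) (S1 := 5830951) (S2 := 5830952) (T := 8740456) hn hs (by norm_num)
    (by push_cast; exact h1) (by push_cast; exact h2) (by norm_num) (by push_cast; exact hT) ?_ ?_
  · intro a h0 h1
    omega
  · intro a f D h0 h1 h2 h3 h4 h5 h6 h7 h8 h9
    have ha : a ≤ 17 := by omega
    have hf1 : 9 ≤ f := by omega
    have hf2 : f ≤ 25 := by omega
    interval_cases f <;> interval_cases a <;> omega

theorem numE_34 {s κ : ℝ} (hn : s * s = (34 : ℤ)) (hs : 3 < s) (h1 : (5830951 : ℝ) ≤ 1000000 * s)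
    (h2 : 1000000 * s ≤ (5830952 : ℝ)) (hT : 1000000 * κ ≤ (6766681 : ℝ)) : NumE s κ 1 := by
  refine numE_of (N := 1000000) (S1 := 5830951) (S2 := 5830952) (T := 6766681) hn hs (by norm_num) (by norm_num)
    (by push_cast; exact h1) (by push_cast; exact h2) (by push_cast; exact hT) ?_
  intro P j D h0 h1 h2 h3 h4 h5 h6 h7 h8 h9
  have hP : P ≤ 18 := by omega
  have hj1 : -1 ≤ j := by omega
  have hj2 : j ≤ 15 := by omega
  interval_cases j <;> interval_cases P <;> omega

theorem numS_35 {s κ : ℝ} (hn : s * s = (35 : ℤ)) (hs : 3 < s) (h1 : (5916079 : ℝ) ≤ 1000000 * s)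
    (h2 : 1000000 * s ≤ (5916080 : ℝ)) (hT : (9365390 : ℝ) ≤ 1000000 * κ) : NumS s κ := by
  refine numS_of (N := 1000000) (S1 := 5916079) (S2 := 5916080) (T := 9365390) hn hs (by norm_num)
    (by push_cast; exact h1) (by push_cast; exact h2) (by norm_num) (by push_cast; exact hT) ?_ ?_
  · intro a h0 h1
    omega
  · intro a f D h0 h1 h2 h3 h4 h5 h6 h7 h8 h9
    have ha : a ≤ 17 := by omega
    have hf1 : 10 ≤ f := by omega
    have hf2 : f ≤ 26 := by omega
    interval_cases f <;> interval_cases a <;> omega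

theorem numE_35 {s κ : ℝ} (hn : s * s = (35 : ℤ)) (hs : 3 < s) (h1 : (5916079 : ℝ) ≤ 1000000 * s)
    (h2 : 1000000 * s ≤ (5916080 : ℝ)) (hT : 1000000 * κ ≤ (6883597 : ℝ)) : NumE s κ 1 := by
  refine numE_of (N := 1000000) (S1 := 5916079) (S2 := 5916080) (T := 6883597) hn hs (by norm_num) (by norm_num)
    (by push_cast; exact h1) (by push_cast; exact h2) (by push_cast; exact hT) ?_
  intro P j D h0 h1 h2 h3 h4 h5 h6 h7 h8 h9
  have hP : P ≤ 18 := by omega
  have hj1 : -1 ≤ j := by omega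
  have hj2 : j ≤ 15 := by omega
  interval_cases j <;> interval_cases P <;> omega

end Pool.Agent.H209.SW
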