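import Pool.Agent.H209.SW.Main
import Pool.Agent.H209.SW.InstA
import Pool.Agent.H209.SW.InstB
import Pool.Agent.H209.SW.InstC
import Pool.Agent.H209.SW.InstD
import Pool.Agent.H209.SW.Inst15

set_option autoImplicit false

/-! The windows for the non-squares `10 ≤ n ≤ 35`, `n ≠ 11, 13, 21`. -/

namespace Pool.Agent.H209.SW

open Pool.Agent.TH176.Nag Pool.Agent.TH603.Sur Pool.Agent.TH603.Cut Pool.Agent.TH641.NW

/-- what is used of the number `n` of points, `s = √n` -/
structure Good (n : ℕ) (s δE δS : ℝ) : Prop where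
  n10 : 10 ≤ n
  n36 : n ≤ 36
  sq : ¬ IsSquare n
  e0 : 0 ≤ δE
  s0 : 0 ≤ δS
  numS : ∀ κ : ℝ, ((n : ℝ) - (3 - δS) * s) / 2 ≤ κ → NumS s κ
  numE : ∀ κ : ℝ, κ ≤ ((n : ℝ) - (3 + δE) * s) / 2 →
    (NumE s κ 0 ∧ s * κ + 3 * κ < s) ∨ (NumE s κ 1 ∧ 3 * κ < 4 * s)

theorem not_sq {n : ℕ} (h1 : n ≤ 36) (h9 : n ≠ 0) (h10 : n ≠ 1) (h2 : n ≠ 4) (h3 : n ≠ 9) (h4 : n ≠ 16) (h5 : n ≠ 25)
    (h6 : n ≠ 36) : ¬ IsSquare n := by
  rintro ⟨k, hk⟩
  have : k ≤ 6 := by nlinarith
  interval_cases k <;> omega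

theorem sqrt_bds {n : ℕ} {s S1 S2 : ℝ} (hs0 : 0 < s) (hs : s * s = n) (h2 : 0 ≤ S2)
    (h3 : S1 * S1 ≤ 1000000 * 1000000 * n) (h4 : 1000000 * 1000000 * n ≤ S2 * S2) :
    S1 ≤ 1000000 * s ∧ 1000000 * s ≤ S2 := by
  constructor
  · by_contra hcon
    push Not at hcon
    nlinarith
  · by_contra hcon
    push Not at hcon
    nlinarith

theorem good_10 {s : ℝ} (hs0 : 0 < s) (hs : s * s = (10 : ℕ)) :
    Good 10 s (163 / 1000) (130 / 1000) := by
  obtain ⟨b1, b2⟩ := sqrt_bds (S1 := 3162277) (S2 := 3162278) hs0 hs (by norm_num) (by norm_num) (by norm_num)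
  have hsn : s * s = ((10 : ℤ) : ℝ) := by rw [hs]; norm_num
  have h3 : 3 < s := by linarith
  refine ⟨by norm_num, by norm_num, not_sq (by norm_num) (by norm_num) (by norm_num) (by norm_num)
    (by norm_num) (by norm_num) (by norm_num) (by norm_num), by norm_num, by norm_num, ?_, ?_⟩
  · intro κ hκ
    push_cast at hκ
    exact numS_10 hsn h3 b1 b2 (by linarith)
  · intro κ hκ
    push_cast at hκ
    have hk : 1000000 * κ ≤ (-1141 : ℝ) := by linarith
    refine Or.inl ⟨numE_10 hsn h3 b1 b2 hk, ?_⟩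
    have h5 := mul_le_mul_of_nonneg_left hk (show 0 ≤ s + 3 by linarith)
    nlinarith

theorem good_12 {s : ℝ} (hs0 : 0 < s) (hs : s * s = (12 : ℕ)) :
    Good 12 s (310 / 1000) (310 / 1000) := by
  obtain ⟨b1, b2⟩ := sqrt_bds (S1 := 3464101) (S2 := 3464102) hs0 hs (by norm_num) (by norm_num) (by norm_num)
  have hsn : s * s = ((12 : ℤ) : ℝ) := by rw [hs]; norm_num
  have h3 : 3 < s := by linarith
  refine ⟨by norm_num, by norm_num, not_sq (by norm_num) (by norm_num) (by norm_num) (by norm_num)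
    (by norm_num) (by norm_num) (by norm_num) (by norm_num), by norm_num, by norm_num, ?_, ?_⟩
  · intro κ hκ
    push_cast at hκ
    exact numS_12 hsn h3 b1 b2 (by linarith)
  · intro κ hκ
    push_cast at hκ
    have hk : 1000000 * κ ≤ (266913 : ℝ) := by linarith
    refine Or.inl ⟨numE_12 hsn h3 b1 b2 hk, ?_⟩
    have h5 := mul_le_mul_of_nonneg_left hk (show 0 ≤ s + 3 by linarith)
    nlinarith

theorem good_14 {s : ℝ} (hs0 : 0 < s) (hs : s * s = (14 : ℕ)) :
    Good 14 s (445 / 1000) (434 / 1000) := by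
  obtain ⟨b1, b2⟩ := sqrt_bds (S1 := 3741657) (S2 := 3741658) hs0 hs (by norm_num) (by norm_num) (by norm_num)
  have hsn : s * s = ((14 : ℤ) : ℝ) := by rw [hs]; norm_num
  have h3 : 3 < s := by linarith
  refine ⟨by norm_num, by norm_num, not_sq (by norm_num) (by norm_num) (by norm_num) (by norm_num)
    (by norm_num) (by norm_num) (by norm_num) (by norm_num), by norm_num, by norm_num, ?_, ?_⟩
  · intro κ hκ
    push_cast at hκ
    exact numS_14 hsn h3 b1 b2 (by linarith)
  · intro κ hκ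
    push_cast at hκ
    have hk : 1000000 * κ ≤ (554996 : ℝ) := by linarith
    refine Or.inl ⟨numE_14 hsn h3 b1 b2 hk, ?_⟩
    have h5 := mul_le_mul_of_nonneg_left hk (show 0 ≤ s + 3 by linarith)
    nlinarith

theorem good_15 {s : ℝ} (hs0 : 0 < s) (hs : s * s = (15 : ℕ)) :
    Good 15 s (582 / 1000) (525 / 1000) := by
  obtain ⟨b1, b2⟩ := sqrt_bds (S1 := 3872983) (S2 := 3872984) hs0 hs (by norm_num) (by norm_num) (by norm_num)
  have hsn : s * s = ((15 : ℤ) : ℝ) := by rw [hs]; norm_num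
  have h3 : 3 < s := by linarith
  refine ⟨by norm_num, by norm_num, not_sq (by norm_num) (by norm_num) (by norm_num) (by norm_num)
    (by norm_num) (by norm_num) (by norm_num) (by norm_num), by norm_num, by norm_num, ?_, ?_⟩
  · intro κ hκ
    push_cast at hκ
    exact numS_15 hsn h3 b1 b2 (by linarith)
  · intro κ hκ
    push_cast at hκ
    have hk : 1000000 * κ ≤ (563488 : ℝ) := by linarith
    refine Or.inl ⟨numE_15 hsn h3 b1 b2 hk, ?_⟩
    have h5 := mul_le_mul_of_nonneg_left hk (show 0 ≤ s + 3 by linarith)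
    nlinarith

theorem good_17 {s : ℝ} (hs0 : 0 < s) (hs : s * s = (17 : ℕ)) :
    Good 17 s (843 / 1000) (465 / 1000) := by
  obtain ⟨b1, b2⟩ := sqrt_bds (S1 := 4123105) (S2 := 4123106) hs0 hs (by norm_num) (by norm_num) (by norm_num)
  have hsn : s * s = ((17 : ℤ) : ℝ) := by rw [hs]; norm_num
  have h3 : 3 < s := by linarith
  refine ⟨by norm_num, by norm_num, not_sq (by norm_num) (by norm_num) (by norm_num) (by norm_num)
    (by norm_num) (by norm_num) (by norm_num) (by norm_num), by norm_num, by norm_num, ?_, ?_⟩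
  · intro κ hκ
    push_cast at hκ
    exact numS_17 hsn h3 b1 b2 (by linarith)
  · intro κ hκ
    push_cast at hκ
    have hk : 1000000 * κ ≤ (577454 : ℝ) := by linarith
    refine Or.inl ⟨numE_17 hsn h3 b1 b2 hk, ?_⟩
    have h5 := mul_le_mul_of_nonneg_left hk (show 0 ≤ s + 3 by linarith)
    nlinarith

theorem good_18 {s : ℝ} (hs0 : 0 < s) (hs : s * s = (18 : ℕ)) :
    Good 18 s (967 / 1000) (553 / 1000) := by
  obtain ⟨b1, b2⟩ := sqrt_bds (S1 := 4242640) (S2 := 4242641) hs0 hs (by norm_num) (by norm_num) (by norm_num)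
  have hsn : s * s = ((18 : ℤ) : ℝ) := by rw [hs]; norm_num
  have h3 : 3 < s := by linarith
  refine ⟨by norm_num, by norm_num, not_sq (by norm_num) (by norm_num) (by norm_num) (by norm_num)
    (by norm_num) (by norm_num) (by norm_num) (by norm_num), by norm_num, by norm_num, ?_, ?_⟩
  · intro κ hκ
    push_cast at hκ
    exact numS_18 hsn h3 b1 b2 (by linarith)
  · intro κ hκ
    push_cast at hκ
    have hk : 1000000 * κ ≤ (584724 : ℝ) := by linarith
    refine Or.inl ⟨numE_18 hsn h3 b1 b2 hk, ?_⟩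
    have h5 := mul_le_mul_of_nonneg_left hk (show 0 ≤ s + 3 by linarith)
    nlinarith

theorem good_19 {s : ℝ} (hs0 : 0 < s) (hs : s * s = (19 : ℕ)) :
    Good 19 s (1079 / 1000) (620 / 1000) := by
  obtain ⟨b1, b2⟩ := sqrt_bds (S1 := 4358898) (S2 := 4358899) hs0 hs (by norm_num) (by norm_num) (by norm_num)
  have hsn : s * s = ((19 : ℤ) : ℝ) := by rw [hs]; norm_num
  have h3 : 3 < s := by linarith
  refine ⟨by norm_num, by norm_num, not_sq (by norm_num) (by norm_num) (by norm_num) (by norm_num)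
    (by norm_num) (by norm_num) (by norm_num) (by norm_num), by norm_num, by norm_num, ?_, ?_⟩
  · intro κ hκ
    push_cast at hκ
    exact numS_19 hsn h3 b1 b2 (by linarith)
  · intro κ hκ
    push_cast at hκ
    have hk : 1000000 * κ ≤ (610028 : ℝ) := by linarith
    exact Or.inr ⟨numE_19 hsn h3 b1 b2 hk, by linarith⟩

theorem good_20 {s : ℝ} (hs0 : 0 < s) (hs : s * s = (20 : ℕ)) :
    Good 20 s (1037 / 1000) (589 / 1000) := by
  obtain ⟨b1, b2⟩ := sqrt_bds (S1 := 4472135) (S2 := 4472136) hs0 hs (by norm_num) (by norm_num) (by norm_num)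
  have hsn : s * s = ((20 : ℤ) : ℝ) := by rw [hs]; norm_num
  have h3 : 3 < s := by linarith
  refine ⟨by norm_num, by norm_num, not_sq (by norm_num) (by norm_num) (by norm_num) (by norm_num)
    (by norm_num) (by norm_num) (by norm_num) (by norm_num), by norm_num, by norm_num, ?_, ?_⟩
  · intro κ hκ
    push_cast at hκ
    exact numS_20 hsn h3 b1 b2 (by linarith)
  · intro κ hκ
    push_cast at hκ
    have hk : 1000000 * κ ≤ (972996 : ℝ) := by linarith
    exact Or.inr ⟨numE_20 hsn h3 b1 b2 hk, by linarith⟩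

theorem good_22 {s : ℝ} (hs0 : 0 < s) (hs : s * s = (22 : ℕ)) :
    Good 22 s (1022 / 1000) (596 / 1000) := by
  obtain ⟨b1, b2⟩ := sqrt_bds (S1 := 4690415) (S2 := 4690416) hs0 hs (by norm_num) (by norm_num) (by norm_num)
  have hsn : s * s = ((22 : ℤ) : ℝ) := by rw [hs]; norm_num
  have h3 : 3 < s := by linarith
  refine ⟨by norm_num, by norm_num, not_sq (by norm_num) (by norm_num) (by norm_num) (by norm_num)
    (by norm_num) (by norm_num) (by norm_num) (by norm_num), by norm_num, by norm_num, ?_, ?_⟩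
  · intro κ hκ
    push_cast at hκ
    exact numS_22 hsn h3 b1 b2 (by linarith)
  · intro κ hκ
    push_cast at hκ
    have hk : 1000000 * κ ≤ (1567576 : ℝ) := by linarith
    exact Or.inr ⟨numE_22 hsn h3 b1 b2 hk, by linarith⟩

theorem good_23 {s : ℝ} (hs0 : 0 < s) (hs : s * s = (23 : ℕ)) :
    Good 23 s (964 / 1000) (547 / 1000) := by
  obtain ⟨b1, b2⟩ := sqrt_bds (S1 := 4795831) (S2 := 4795832) hs0 hs (by norm_num) (by norm_num) (by norm_num)
  have hsn : s * s = ((23 : ℤ) : ℝ) := by rw [hs]; norm_num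
  have h3 : 3 < s := by linarith
  refine ⟨by norm_num, by norm_num, not_sq (by norm_num) (by norm_num) (by norm_num) (by norm_num)
    (by norm_num) (by norm_num) (by norm_num) (by norm_num), by norm_num, by norm_num, ?_, ?_⟩
  · intro κ hκ
    push_cast at hκ
    exact numS_23 hsn h3 b1 b2 (by linarith)
  · intro κ hκ
    push_cast at hκ
    have hk : 1000000 * κ ≤ (1994663 : ℝ) := by linarith
    exact Or.inr ⟨numE_23 hsn h3 b1 b2 hk, by linarith⟩

theorem good_24 {s : ℝ} (hs0 : 0 < s) (hs : s * s = (24 : ℕ)) :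
    Good 24 s (883 / 1000) (475 / 1000) := by
  obtain ⟨b1, b2⟩ := sqrt_bds (S1 := 4898979) (S2 := 4898980) hs0 hs (by norm_num) (by norm_num) (by norm_num)
  have hsn : s * s = ((24 : ℤ) : ℝ) := by rw [hs]; norm_num
  have h3 : 3 < s := by linarith
  refine ⟨by norm_num, by norm_num, not_sq (by norm_num) (by norm_num) (by norm_num) (by norm_num)
    (by norm_num) (by norm_num) (by norm_num) (by norm_num), by norm_num, by norm_num, ?_, ?_⟩
  · intro κ hκ
    push_cast at hκ
    exact numS_24 hsn h3 b1 b2 (by linarith)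
  · intro κ hκ
    push_cast at hκ
    have hk : 1000000 * κ ≤ (2488633 : ℝ) := by linarith
    exact Or.inr ⟨numE_24 hsn h3 b1 b2 hk, by linarith⟩

theorem good_26 {s : ℝ} (hs0 : 0 < s) (hs : s * s = (26 : ℕ)) :
    Good 26 s (809 / 1000) (416 / 1000) := by
  obtain ⟨b1, b2⟩ := sqrt_bds (S1 := 5099019) (S2 := 5099020) hs0 hs (by norm_num) (by norm_num) (by norm_num)
  have hsn : s * s = ((26 : ℤ) : ℝ) := by rw [hs]; norm_num
  have h3 : 3 < s := by linarith
  refine ⟨by norm_num, by norm_num, not_sq (by norm_num) (by norm_num) (by norm_num) (by norm_num)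
    (by norm_num) (by norm_num) (by norm_num) (by norm_num), by norm_num, by norm_num, ?_, ?_⟩
  · intro κ hκ
    push_cast at hκ
    exact numS_26 hsn h3 b1 b2 (by linarith)
  · intro κ hκ
    push_cast at hκ
    have hk : 1000000 * κ ≤ (3288919 : ℝ) := by linarith
    exact Or.inr ⟨numE_26 hsn h3 b1 b2 hk, by linarith⟩

theorem good_27 {s : ℝ} (hs0 : 0 < s) (hs : s * s = (27 : ℕ)) :
    Good 27 s (792 / 1000) (407 / 1000) := by
  obtain ⟨b1, b2⟩ := sqrt_bds (S1 := 5196152) (S2 := 5196153) hs0 hs (by norm_num) (by norm_num) (by norm_num)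
  have hsn : s * s = ((27 : ℤ) : ℝ) := by rw [hs]; norm_num
  have h3 : 3 < s := by linarith
  refine ⟨by norm_num, by norm_num, not_sq (by norm_num) (by norm_num) (by norm_num) (by norm_num)
    (by norm_num) (by norm_num) (by norm_num) (by norm_num), by norm_num, by norm_num, ?_, ?_⟩
  · intro κ hκ
    push_cast at hκ
    exact numS_27 hsn h3 b1 b2 (by linarith)
  · intro κ hκ
    push_cast at hκ
    have hk : 1000000 * κ ≤ (3648096 : ℝ) := by linarith
    exact Or.inr ⟨numE_27 hsn h3 b1 b2 hk, by linarith⟩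

theorem good_28 {s : ℝ} (hs0 : 0 < s) (hs : s * s = (28 : ℕ)) :
    Good 28 s (870 / 1000) (492 / 1000) := by
  obtain ⟨b1, b2⟩ := sqrt_bds (S1 := 5291502) (S2 := 5291503) hs0 hs (by norm_num) (by norm_num) (by norm_num)
  have hsn : s * s = ((28 : ℤ) : ℝ) := by rw [hs]; norm_num
  have h3 : 3 < s := by linarith
  refine ⟨by norm_num, by norm_num, not_sq (by norm_num) (by norm_num) (by norm_num) (by norm_num)
    (by norm_num) (by norm_num) (by norm_num) (by norm_num), by norm_num, by norm_num, ?_, ?_⟩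
  · intro κ hκ
    push_cast at hκ
    exact numS_28 hsn h3 b1 b2 (by linarith)
  · intro κ hκ
    push_cast at hκ
    have hk : 1000000 * κ ≤ (3760944 : ℝ) := by linarith
    exact Or.inr ⟨numE_28 hsn h3 b1 b2 hk, by linarith⟩

theorem good_29 {s : ℝ} (hs0 : 0 < s) (hs : s * s = (29 : ℕ)) :
    Good 29 s (751 / 1000) (380 / 1000) := by
  obtain ⟨b1, b2⟩ := sqrt_bds (S1 := 5385164) (S2 := 5385165) hs0 hs (by norm_num) (by norm_num) (by norm_num)
  have hsn : s * s = ((29 : ℤ) : ℝ) := by rw [hs]; norm_num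
  have h3 : 3 < s := by linarith
  refine ⟨by norm_num, by norm_num, not_sq (by norm_num) (by norm_num) (by norm_num) (by norm_num)
    (by norm_num) (by norm_num) (by norm_num) (by norm_num), by norm_num, by norm_num, ?_, ?_⟩
  · intro κ hκ
    push_cast at hκ
    exact numS_29 hsn h3 b1 b2 (by linarith)
  · intro κ hκ
    push_cast at hκ
    have hk : 1000000 * κ ≤ (4400125 : ℝ) := by linarith
    exact Or.inr ⟨numE_29 hsn h3 b1 b2 hk, by linarith⟩

theorem good_30 {s : ℝ} (hs0 : 0 < s) (hs : s * s = (30 : ℕ)) :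
    Good 30 s (696 / 1000) (331 / 1000) := by
  obtain ⟨b1, b2⟩ := sqrt_bds (S1 := 5477225) (S2 := 5477226) hs0 hs (by norm_num) (by norm_num) (by norm_num)
  have hsn : s * s = ((30 : ℤ) : ℝ) := by rw [hs]; norm_num
  have h3 : 3 < s := by linarith
  refine ⟨by norm_num, by norm_num, not_sq (by norm_num) (by norm_num) (by norm_num) (by norm_num)
    (by norm_num) (by norm_num) (by norm_num) (by norm_num), by norm_num, by norm_num, ?_, ?_⟩
  · intro κ hκ
    push_cast at hκ
    exact numS_30 hsn h3 b1 b2 (by linarith)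
  · intro κ hκ
    push_cast at hκ
    have hk : 1000000 * κ ≤ (4878089 : ℝ) := by linarith
    exact Or.inr ⟨numE_30 hsn h3 b1 b2 hk, by linarith⟩

theorem good_31 {s : ℝ} (hs0 : 0 < s) (hs : s * s = (31 : ℕ)) :
    Good 31 s (774 / 1000) (415 / 1000) := by
  obtain ⟨b1, b2⟩ := sqrt_bds (S1 := 5567764) (S2 := 5567765) hs0 hs (by norm_num) (by norm_num) (by norm_num)
  have hsn : s * s = ((31 : ℤ) : ℝ) := by rw [hs]; norm_num
  have h3 : 3 < s := by linarith
  refine ⟨by norm_num, by norm_num, not_sq (by norm_num) (by norm_num) (by norm_num) (by norm_num)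
    (by norm_num) (by norm_num) (by norm_num) (by norm_num), by norm_num, by norm_num, ?_, ?_⟩
  · intro κ hκ
    push_cast at hκ
    exact numS_31 hsn h3 b1 b2 (by linarith)
  · intro κ hκ
    push_cast at hκ
    have hk : 1000000 * κ ≤ (4993630 : ℝ) := by linarith
    exact Or.inr ⟨numE_31 hsn h3 b1 b2 hk, by linarith⟩

theorem good_32 {s : ℝ} (hs0 : 0 < s) (hs : s * s = (32 : ℕ)) :
    Good 32 s (686 / 1000) (333 / 1000) := by
  obtain ⟨b1, b2⟩ := sqrt_bds (S1 := 5656854) (S2 := 5656855) hs0 hs (by norm_num) (by norm_num) (by norm_num)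
  have hsn : s * s = ((32 : ℤ) : ℝ) := by rw [hs]; norm_num
  have h3 : 3 < s := by linarith
  refine ⟨by norm_num, by norm_num, not_sq (by norm_num) (by norm_num) (by norm_num) (by norm_num)
    (by norm_num) (by norm_num) (by norm_num) (by norm_num), by norm_num, by norm_num, ?_, ?_⟩
  · intro κ hκ
    push_cast at hκ
    exact numS_32 hsn h3 b1 b2 (by linarith)
  · intro κ hκ
    push_cast at hκ
    have hk : 1000000 * κ ≤ (5574419 : ℝ) := by linarith
    exact Or.inr ⟨numE_32 hsn h3 b1 b2 hk, by linarith⟩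

theorem good_33 {s : ℝ} (hs0 : 0 < s) (hs : s * s = (33 : ℕ)) :
    Good 33 s (556 / 1000) (208 / 1000) := by
  obtain ⟨b1, b2⟩ := sqrt_bds (S1 := 5744562) (S2 := 5744563) hs0 hs (by norm_num) (by norm_num) (by norm_num)
  have hsn : s * s = ((33 : ℤ) : ℝ) := by rw [hs]; norm_num
  have h3 : 3 < s := by linarith
  refine ⟨by norm_num, by norm_num, not_sq (by norm_num) (by norm_num) (by norm_num) (by norm_num)
    (by norm_num) (by norm_num) (by norm_num) (by norm_num), by norm_num, by norm_num, ?_, ?_⟩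
  · intro κ hκ
    push_cast at hκ
    exact numS_33 hsn h3 b1 b2 (by linarith)
  · intro κ hκ
    push_cast at hκ
    have hk : 1000000 * κ ≤ (6286169 : ℝ) := by linarith
    exact Or.inr ⟨numE_33 hsn h3 b1 b2 hk, by linarith⟩

theorem good_34 {s : ℝ} (hs0 : 0 < s) (hs : s * s = (34 : ℕ)) :
    Good 34 s (510 / 1000) (167 / 1000) := by
  obtain ⟨b1, b2⟩ := sqrt_bds (S1 := 5830951) (S2 := 5830952) hs0 hs (by norm_num) (by norm_num) (by norm_num)
  have hsn : s * s = ((34 : ℤ) : ℝ) := by rw [hs]; norm_num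
  have h3 : 3 < s := by linarith
  refine ⟨by norm_num, by norm_num, not_sq (by norm_num) (by norm_num) (by norm_num) (by norm_num)
    (by norm_num) (by norm_num) (by norm_num) (by norm_num), by norm_num, by norm_num, ?_, ?_⟩
  · intro κ hκ
    push_cast at hκ
    exact numS_34 hsn h3 b1 b2 (by linarith)
  · intro κ hκ
    push_cast at hκ
    have hk : 1000000 * κ ≤ (6766681 : ℝ) := by linarith
    exact Or.inr ⟨numE_34 hsn h3 b1 b2 hk, by linarith⟩

theorem good_35 {s : ℝ} (hs0 : 0 < s) (hs : s * s = (35 : ℕ)) :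
    Good 35 s (589 / 1000) (250 / 1000) := by
  obtain ⟨b1, b2⟩ := sqrt_bds (S1 := 5916079) (S2 := 5916080) hs0 hs (by norm_num) (by norm_num) (by norm_num)
  have hsn : s * s = ((35 : ℤ) : ℝ) := by rw [hs]; norm_num
  have h3 : 3 < s := by linarith
  refine ⟨by norm_num, by norm_num, not_sq (by norm_num) (by norm_num) (by norm_num) (by norm_num)
    (by norm_num) (by norm_num) (by norm_num) (by norm_num), by norm_num, by norm_num, ?_, ?_⟩
  · intro κ hκ
    push_cast at hκ
    exact numS_35 hsn h3 b1 b2 (by linarith)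
  · intro κ hκ
    push_cast at hκ
    have hk : 1000000 * κ ≤ (6883597 : ℝ) := by linarith
    exact Or.inr ⟨numE_35 hsn h3 b1 b2 hk, by linarith⟩

theorem dichW {n m d : ℕ} {s δE δS : ℝ} (hs : s = √(n : ℝ)) (h : Good n s δE δS) (hm : 4 ≤ m)
    (hG : 2 * (d : ℝ) + 3 ≤ s * (2 * m + 1) - δE ∨ s * (2 * m + 1) + δS ≤ 2 * d + 3) :
    Emp (fun _ : Fin n => m) (TZ d) ∨ Sur (fun _ : Fin n => m) (TZ d) := by
  have hss : s * s = n := by rw [hs]; exact Real.mul_self_sqrt (Nat.cast_nonneg n)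
  have hirr : Irrational s := by rw [hs, irrational_sqrt_natCast_iff]; exact h.sq
  have hn10 : (10 : ℝ) ≤ n := by exact_mod_cast h.n10
  have hn36 : (n : ℝ) ≤ 36 := by exact_mod_cast h.n36
  have hs0 : 0 ≤ s := by rw [hs]; exact Real.sqrt_nonneg _
  have h3 : 3 < s := by
    by_contra hcon
    push Not at hcon
    nlinarith
  have h6 : s ≤ 6 := by
    by_contra hcon
    push Not at hcon
    nlinarith
  obtain ⟨c, hc⟩ : ∃ c : ℕ, c = ⌊s⌋₊ := ⟨_, rfl⟩
  have hc1 : (c : ℝ) < s := by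
    refine lt_of_le_of_ne (by rw [hc]; exact Nat.floor_le hs0) fun he => ?_
    exact hirr.ne_nat c he.symm
  have hc2 : s < c + 1 := by rw [hc]; exact Nat.lt_floor_add_one s
  rcases hG with hG | hG
  · left
    rcases lt_or_ge 0 (s * d - n * m) with hκ | hκ
    · have hκ' : s * d - n * m ≤ ((n : ℝ) - (3 + δE) * s) / 2 := by
        have h4 := mul_le_mul_of_nonneg_left hG hs0
        have h5 : s * (s * (2 * m + 1) - δE) = n * (2 * m + 1) - δE * s := by rw [← hss]; ring
        linarith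
      refine Emp_T9 hc1 hc2 (Emp_flat9 hs0 ?_)
      rcases h.numE _ hκ' with ⟨h1, h2⟩ | ⟨h1, h2⟩
      · refine Emp_main0 hss h3 hκ ?_ h1
        have e : s * ((s * d - n * m) + 3 * (d - s * m)) =
            s * (s * d - n * m) + 3 * (s * d - n * m) := by
          rw [← hss]; ring
        by_contra hcon
        push Not at hcon
        have := mul_le_mul_of_nonneg_left hcon hs0
        linarith
      · exact Emp_main1 hss h3 hm hκ.le h2 h1
    · have hne : s * d ≠ n * m := by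
        intro he
        have hd : d ≠ 0 := by
          rintro rfl
          have hmR : (4 : ℝ) ≤ m := by exact_mod_cast hm
          rw [Nat.cast_zero, mul_zero] at he
          nlinarith
        have h4 := (hirr.mul_natCast hd).ne_nat (n * m)
        push_cast at h4
        exact h4 he
      refine Pool.Agent.TH603.EL.Emp_plane (by rw [Fintype.card_fin]; have := h.n10; omega) ?_
      rw [Fintype.card_fin, ← hs]
      have h4 : s * (d : ℝ) < n * m := lt_of_le_of_ne (by linarith) hne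
      simpa using h4
  · right
    have hκ' : ((n : ℝ) - (3 - δS) * s) / 2 ≤ s * d - n * m := by
      have h4 := mul_le_mul_of_nonneg_left hG hs0
      have h5 : s * (s * (2 * m + 1) + δS) = n * (2 * m + 1) + δS * s := by rw [← hss]; ring
      linarith
    have hκ : 0 ≤ s * d - n * m := by
      have h4 : 0 ≤ δS * s := mul_nonneg h.s0 hs0
      nlinarith
    exact Sur_T9 hc1 hc2 hirr (Sur_main hss h3 h6 hκ (h.numS _ hκ'))

theorem uniformW {n m : ℕ} {δE δS : ℝ} (h : Good n (√(n : ℝ)) δE δS) (hm : 4 ≤ m) :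
    ∃ F : MvPolynomial (Fin n × Fin 2) ℚ, F ≠ 0 ∧ ∀ {L : Type} [Field L] [CharZero L]
      (P : Fin n → Fin 2 → L), MvPolynomial.aeval (fun ij : Fin n × Fin 2 => P ij.1 ij.2) F ≠ 0 →
      ∀ d : ℕ, (2 * (d : ℝ) + 3 ≤ √(n : ℝ) * (2 * m + 1) - δE ∨
          √(n : ℝ) * (2 * m + 1) + δS ≤ 2 * d + 3) →
        H932R3.ExpDim L (fun _ => m) P d :=
  Pool.Agent.TH864.SX.expDim_of_or' fun _ hd => dichW rfl h hm hd

/-- the list of the `(n, a, b)` -/
theorem good_of_mem {n a b : ℕ} (h : (n, a, b) ∈ ([(10, 163, 130), (12, 310, 310), (14, 445, 434), (17, 843, 465), (18, 967, 553), (19, 1079, 620), (20, 1037, 589), (22, 1022, 596), (23, 964, 547), (24, 883, 475), (26, 809, 416), (27, 792, 407), (28, 870, 492), (29, 751, 380), (30, 696, 331), (31, 774, 415), (32, 686, 333), (33, 556, 208), (34, 510, 167), (35, 589, 250)] : List (ℕ × ℕ × ℕ))) :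
    Good n (√(n : ℝ)) ((a : ℝ) / 1000) ((b : ℝ) / 1000) := by
  have hs (k : ℕ) : √(k : ℝ) * √(k : ℝ) = (k : ℕ) := Real.mul_self_sqrt (Nat.cast_nonneg k)
  have hp (k : ℕ) (hk : 0 < k) : 0 < √(k : ℝ) := Real.sqrt_pos.2 (by exact_mod_cast hk)
  simp only [List.mem_cons, Prod.mk.injEq, List.not_mem_nil, or_false] at h
  rcases h with ⟨rfl, rfl, rfl⟩ | ⟨rfl, rfl, rfl⟩ | ⟨rfl, rfl, rfl⟩ | ⟨rfl, rfl, rfl⟩ | ⟨rfl, rfl, rfl⟩ | ⟨rfl, rfl, rfl⟩ | ⟨rfl, rfl, rfl⟩ | ⟨rfl, rfl, rfl⟩ | ⟨rfl, rfl, rfl⟩ | ⟨rfl, rfl, rfl⟩ | ⟨rfl, rfl, rfl⟩ | ⟨rfl, rfl, rfl⟩ | ⟨rfl, rfl, rfl⟩ | ⟨rfl, rfl, rfl⟩ | ⟨rfl, rfl, rfl⟩ | ⟨rfl, rfl, rfl⟩ | ⟨rfl, rfl, rfl⟩ | ⟨rfl, rfl, rfl⟩ | ⟨rfl, rfl, rfl⟩ | ⟨rfl, rfl, rfl⟩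
  · simpa using good_10 (hp 10 (by norm_num)) (hs 10)
  · simpa using good_12 (hp 12 (by norm_num)) (hs 12)
  · simpa using good_14 (hp 14 (by norm_num)) (hs 14)
  · simpa using good_17 (hp 17 (by norm_num)) (hs 17)
  · simpa using good_18 (hp 18 (by norm_num)) (hs 18)
  · simpa using good_19 (hp 19 (by norm_num)) (hs 19)
  · simpa using good_20 (hp 20 (by norm_num)) (hs 20)
  · simpa using good_22 (hp 22 (by norm_num)) (hs 22)
  · simpa using good_23 (hp 23 (by norm_num)) (hs 23)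
  · simpa using good_24 (hp 24 (by norm_num)) (hs 24)
  · simpa using good_26 (hp 26 (by norm_num)) (hs 26)
  · simpa using good_27 (hp 27 (by norm_num)) (hs 27)
  · simpa using good_28 (hp 28 (by norm_num)) (hs 28)
  · simpa using good_29 (hp 29 (by norm_num)) (hs 29)
  · simpa using good_30 (hp 30 (by norm_num)) (hs 30)
  · simpa using good_31 (hp 31 (by norm_num)) (hs 31)
  · simpa using good_32 (hp 32 (by norm_num)) (hs 32)
  · simpa using good_33 (hp 33 (by norm_num)) (hs 33)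
  · simpa using good_34 (hp 34 (by norm_num)) (hs 34)
  · simpa using good_35 (hp 35 (by norm_num)) (hs 35)

end Pool.Agent.H209.SW
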