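import Pool.Agent.H209.SW.Fin
import Pool.Agent.H209.SW.InstS2
import Pool.Agent.H209.SW.InstE2a
import Pool.Agent.H209.SW.InstE2b
import Pool.Agent.H209.SW.InstE2c
import Pool.Agent.H209.SW.InstE2d

set_option autoImplicit false

/-! The windows for `17 ≤ n ≤ 35`, with compensation. -/

namespace Pool.Agent.H209.SW

open Pool.Agent.TH176.Nag Pool.Agent.TH603.Sur Pool.Agent.TH603.Cut Pool.Agent.TH641.NW

/-- what is used of the number `n` of points, `s = √n` -/
structure Good2 (n : ℕ) (s δE δS : ℝ) : Prop where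
  n10 : 10 ≤ n
  n36 : n ≤ 36
  sq : ¬ IsSquare n
  e0 : 0 ≤ δE
  s0 : 0 ≤ δS
  numS : ∀ κ : ℝ, ((n : ℝ) - (3 - δS) * s) / 2 ≤ κ → NumS s κ ∨ (NumS2 s κ ∧ s ≤ 3 * κ)
  numE : ∀ κ : ℝ, 0 < κ → κ ≤ ((n : ℝ) - (3 + δE) * s) / 2 →
    (NumE s κ 0 ∧ s * κ + 3 * κ < s) ∨ (NumE s κ 1 ∧ 3 * κ < 4 * s) ∨
      (NumE2 s κ ∧ Row0 s κ ∧ TopOK s κ ∧ κ < 3 * s)

theorem Good.good2 {n : ℕ} {s δE δS : ℝ} (h : Good n s δE δS) : Good2 n s δE δS :=
  ⟨h.n10, h.n36, h.sq, h.e0, h.s0, fun κ hκ => Or.inl (h.numS κ hκ), fun κ _ hκ => by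
    rcases h.numE κ hκ with h1 | h1
    · exact Or.inl h1
    · exact Or.inr (Or.inl h1)⟩

theorem good2_17 {s : ℝ} (hs0 : 0 < s) (hs : s * s = (17 : ℕ)) :
    Good2 17 s (489 / 1000) (242 / 1000) := by
  obtain ⟨b1, b2⟩ := sqrt_bds (S1 := 4123105) (S2 := 4123106) hs0 hs (by norm_num) (by norm_num) (by norm_num)
  have h3 : 3 < s := by linarith
  have h6 : s ≤ 6 := by linarith
  refine ⟨by norm_num, by norm_num, not_sq (by norm_num) (by norm_num) (by norm_num) (by norm_num)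
    (by norm_num) (by norm_num) (by norm_num) (by norm_num), by norm_num, by norm_num, ?_, ?_⟩
  · intro κ hκ
    push_cast at hκ
    have hk : (2814236 : ℝ) ≤ 1000000 * κ := by linarith
    exact Or.inr ⟨numS2_17 h3 h6 b1 b2 hk, by linarith⟩
  · intro κ hκ0 hκ
    push_cast at hκ
    have hk : 1000000 * κ ≤ (1307244 : ℝ) := by linarith
    have hκ3 : κ < 3 * s := by linarith
    exact Or.inr (Or.inr ⟨numE2_17 h3 h6 b1 b2 hk, row0_17 hs0 b1 b2 hk,
      top_17 h3 h6 b1 b2 hκ0 hκ3 hk, hκ3⟩)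

theorem good2_18 {s : ℝ} (hs0 : 0 < s) (hs : s * s = (18 : ℕ)) :
    Good2 18 s (334 / 1000) (334 / 1000) := by
  obtain ⟨b1, b2⟩ := sqrt_bds (S1 := 4242640) (S2 := 4242641) hs0 hs (by norm_num) (by norm_num) (by norm_num)
  have h3 : 3 < s := by linarith
  have h6 : s ≤ 6 := by linarith
  refine ⟨by norm_num, by norm_num, not_sq (by norm_num) (by norm_num) (by norm_num) (by norm_num)
    (by norm_num) (by norm_num) (by norm_num) (by norm_num), by norm_num, by norm_num, ?_, ?_⟩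
  · intro κ hκ
    push_cast at hκ
    have hk : (3344559 : ℝ) ≤ 1000000 * κ := by linarith
    exact Or.inr ⟨numS2_18 h3 h6 b1 b2 hk, by linarith⟩
  · intro κ hκ0 hκ
    push_cast at hκ
    have hk : 1000000 * κ ≤ (1927520 : ℝ) := by linarith
    have hκ3 : κ < 3 * s := by linarith
    exact Or.inr (Or.inr ⟨numE2_18 h3 h6 b1 b2 hk, row0_18 hs0 b1 b2 hk,
      top_18 h3 h6 b1 b2 hκ0 hκ3 hk, hκ3⟩)

theorem good2_19 {s : ℝ} (hs0 : 0 < s) (hs : s * s = (19 : ℕ)) :
    Good2 19 s (523 / 1000) (304 / 1000) := by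
  obtain ⟨b1, b2⟩ := sqrt_bds (S1 := 4358898) (S2 := 4358899) hs0 hs (by norm_num) (by norm_num) (by norm_num)
  have h3 : 3 < s := by linarith
  have h6 : s ≤ 6 := by linarith
  refine ⟨by norm_num, by norm_num, not_sq (by norm_num) (by norm_num) (by norm_num) (by norm_num)
    (by norm_num) (by norm_num) (by norm_num) (by norm_num), by norm_num, by norm_num, ?_, ?_⟩
  · intro κ hκ
    push_cast at hκ
    have hk : (3624204 : ℝ) ≤ 1000000 * κ := by linarith
    exact Or.inr ⟨numS2_19 h3 h6 b1 b2 hk, by linarith⟩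
  · intro κ hκ0 hκ
    push_cast at hκ
    have hk : 1000000 * κ ≤ (1821802 : ℝ) := by linarith
    have hκ3 : κ < 3 * s := by linarith
    exact Or.inr (Or.inr ⟨numE2_19 h3 h6 b1 b2 hk, row0_19 hs0 b1 b2 hk,
      top_19 h3 h6 b1 b2 hκ0 hκ3 hk, hκ3⟩)

theorem good2_20 {s : ℝ} (hs0 : 0 < s) (hs : s * s = (20 : ℕ)) :
    Good2 20 s (513 / 1000) (153 / 1000) := by
  obtain ⟨b1, b2⟩ := sqrt_bds (S1 := 4472135) (S2 := 4472136) hs0 hs (by norm_num) (by norm_num) (by norm_num)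
  have h3 : 3 < s := by linarith
  have h6 : s ≤ 6 := by linarith
  refine ⟨by norm_num, by norm_num, not_sq (by norm_num) (by norm_num) (by norm_num) (by norm_num)
    (by norm_num) (by norm_num) (by norm_num) (by norm_num), by norm_num, by norm_num, ?_, ?_⟩
  · intro κ hκ
    push_cast at hκ
    have hk : (3633914 : ℝ) ≤ 1000000 * κ := by linarith
    exact Or.inr ⟨numS2_20 h3 h6 b1 b2 hk, by linarith⟩
  · intro κ hκ0 hκ
    push_cast at hκ
    have hk : 1000000 * κ ≤ (2144695 : ℝ) := by linarith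
    have hκ3 : κ < 3 * s := by linarith
    exact Or.inr (Or.inr ⟨numE2_20 h3 h6 b1 b2 hk, row0_20 hs0 b1 b2 hk,
      top_20 h3 h6 b1 b2 hκ0 hκ3 hk, hκ3⟩)

theorem good2_22 {s : ℝ} (hs0 : 0 < s) (hs : s * s = (22 : ℕ)) :
    Good2 22 s (462 / 1000) (462 / 1000) := by
  obtain ⟨b1, b2⟩ := sqrt_bds (S1 := 4690415) (S2 := 4690416) hs0 hs (by norm_num) (by norm_num) (by norm_num)
  have h3 : 3 < s := by linarith
  have h6 : s ≤ 6 := by linarith
  refine ⟨by norm_num, by norm_num, not_sq (by norm_num) (by norm_num) (by norm_num) (by norm_num)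
    (by norm_num) (by norm_num) (by norm_num) (by norm_num), by norm_num, by norm_num, ?_, ?_⟩
  · intro κ hκ
    push_cast at hκ
    have hk : (5047862 : ℝ) ≤ 1000000 * κ := by linarith
    exact Or.inr ⟨numS2_22 h3 h6 b1 b2 hk, by linarith⟩
  · intro κ hκ0 hκ
    push_cast at hκ
    have hk : 1000000 * κ ≤ (2880892 : ℝ) := by linarith
    have hκ3 : κ < 3 * s := by linarith
    exact Or.inr (Or.inr ⟨numE2_22 h3 h6 b1 b2 hk, row0_22 hs0 b1 b2 hk,
      top_22 h3 h6 b1 b2 hκ0 hκ3 hk, hκ3⟩)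

theorem good2_23 {s : ℝ} (hs0 : 0 < s) (hs : s * s = (23 : ℕ)) :
    Good2 23 s (299 / 1000) (231 / 1000) := by
  obtain ⟨b1, b2⟩ := sqrt_bds (S1 := 4795831) (S2 := 4795832) hs0 hs (by norm_num) (by norm_num) (by norm_num)
  have h3 : 3 < s := by linarith
  have h6 : s ≤ 6 := by linarith
  refine ⟨by norm_num, by norm_num, not_sq (by norm_num) (by norm_num) (by norm_num) (by norm_num)
    (by norm_num) (by norm_num) (by norm_num) (by norm_num), by norm_num, by norm_num, ?_, ?_⟩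
  · intro κ hκ
    push_cast at hκ
    have hk : (4860170 : ℝ) ≤ 1000000 * κ := by linarith
    exact Or.inr ⟨numS2_23 h3 h6 b1 b2 hk, by linarith⟩
  · intro κ hκ0 hκ
    push_cast at hκ
    have hk : 1000000 * κ ≤ (3589277 : ℝ) := by linarith
    have hκ3 : κ < 3 * s := by linarith
    exact Or.inr (Or.inr ⟨numE2_23 h3 h6 b1 b2 hk, row0_23 hs0 b1 b2 hk,
      top_23 h3 h6 b1 b2 hκ0 hκ3 hk, hκ3⟩)

theorem good2_24 {s : ℝ} (hs0 : 0 < s) (hs : s * s = (24 : ℕ)) :
    Good2 24 s (403 / 1000) (276 / 1000) := by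
  obtain ⟨b1, b2⟩ := sqrt_bds (S1 := 4898979) (S2 := 4898980) hs0 hs (by norm_num) (by norm_num) (by norm_num)
  have h3 : 3 < s := by linarith
  have h6 : s ≤ 6 := by linarith
  refine ⟨by norm_num, by norm_num, not_sq (by norm_num) (by norm_num) (by norm_num) (by norm_num)
    (by norm_num) (by norm_num) (by norm_num) (by norm_num), by norm_num, by norm_num, ?_, ?_⟩
  · intro κ hκ
    push_cast at hκ
    have hk : (5327589 : ℝ) ≤ 1000000 * κ := by linarith
    exact Or.inr ⟨numS2_24 h3 h6 b1 b2 hk, by linarith⟩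
  · intro κ hκ0 hκ
    push_cast at hκ
    have hk : 1000000 * κ ≤ (3664388 : ℝ) := by linarith
    have hκ3 : κ < 3 * s := by linarith
    exact Or.inr (Or.inr ⟨numE2_24 h3 h6 b1 b2 hk, row0_24 hs0 b1 b2 hk,
      top_24 h3 h6 b1 b2 hκ0 hκ3 hk, hκ3⟩)

theorem good2_26 {s : ℝ} (hs0 : 0 < s) (hs : s * s = (26 : ℕ)) :
    Good2 26 s (518 / 1000) (323 / 1000) := by
  obtain ⟨b1, b2⟩ := sqrt_bds (S1 := 5099019) (S2 := 5099020) hs0 hs (by norm_num) (by norm_num) (by norm_num)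
  have h3 : 3 < s := by linarith
  have h6 : s ≤ 6 := by linarith
  refine ⟨by norm_num, by norm_num, not_sq (by norm_num) (by norm_num) (by norm_num) (by norm_num)
    (by norm_num) (by norm_num) (by norm_num) (by norm_num), by norm_num, by norm_num, ?_, ?_⟩
  · intro κ hκ
    push_cast at hκ
    have hk : (6174961 : ℝ) ≤ 1000000 * κ := by linarith
    exact Or.inr ⟨numS2_26 h3 h6 b1 b2 hk, by linarith⟩
  · intro κ hκ0 hκ
    push_cast at hκ
    have hk : 1000000 * κ ≤ (4030826 : ℝ) := by linarith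
    have hκ3 : κ < 3 * s := by linarith
    exact Or.inr (Or.inr ⟨numE2_26 h3 h6 b1 b2 hk, row0_26 hs0 b1 b2 hk,
      top_26 h3 h6 b1 b2 hκ0 hκ3 hk, hκ3⟩)

theorem good2_27 {s : ℝ} (hs0 : 0 < s) (hs : s * s = (27 : ℕ)) :
    Good2 27 s (532 / 1000) (249 / 1000) := by
  obtain ⟨b1, b2⟩ := sqrt_bds (S1 := 5196152) (S2 := 5196153) hs0 hs (by norm_num) (by norm_num) (by norm_num)
  have h3 : 3 < s := by linarith
  have h6 : s ≤ 6 := by linarith
  refine ⟨by norm_num, by norm_num, not_sq (by norm_num) (by norm_num) (by norm_num) (by norm_num)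
    (by norm_num) (by norm_num) (by norm_num) (by norm_num), by norm_num, by norm_num, ?_, ?_⟩
  · intro κ hκ
    push_cast at hκ
    have hk : (6352691 : ℝ) ≤ 1000000 * κ := by linarith
    exact Or.inr ⟨numS2_27 h3 h6 b1 b2 hk, by linarith⟩
  · intro κ hκ0 hκ
    push_cast at hκ
    have hk : 1000000 * κ ≤ (4323596 : ℝ) := by linarith
    have hκ3 : κ < 3 * s := by linarith
    exact Or.inr (Or.inr ⟨numE2_27 h3 h6 b1 b2 hk, row0_27 hs0 b1 b2 hk,
      top_27 h3 h6 b1 b2 hκ0 hκ3 hk, hκ3⟩)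

theorem good2_28 {s : ℝ} (hs0 : 0 < s) (hs : s * s = (28 : ℕ)) :
    Good2 28 s (423 / 1000) (417 / 1000) := by
  obtain ⟨b1, b2⟩ := sqrt_bds (S1 := 5291502) (S2 := 5291503) hs0 hs (by norm_num) (by norm_num) (by norm_num)
  have h3 : 3 < s := by linarith
  have h6 : s ≤ 6 := by linarith
  refine ⟨by norm_num, by norm_num, not_sq (by norm_num) (by norm_num) (by norm_num) (by norm_num)
    (by norm_num) (by norm_num) (by norm_num) (by norm_num), by norm_num, by norm_num, ?_, ?_⟩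
  · intro κ hκ
    push_cast at hκ
    have hk : (7166023 : ℝ) ≤ 1000000 * κ := by linarith
    exact Or.inr ⟨numS2_28 h3 h6 b1 b2 hk, by linarith⟩
  · intro κ hκ0 hκ
    push_cast at hκ
    have hk : 1000000 * κ ≤ (4943595 : ℝ) := by linarith
    have hκ3 : κ < 3 * s := by linarith
    exact Or.inr (Or.inr ⟨numE2_28 h3 h6 b1 b2 hk, row0_28 hs0 b1 b2 hk,
      top_28 h3 h6 b1 b2 hκ0 hκ3 hk, hκ3⟩)

theorem good2_29 {s : ℝ} (hs0 : 0 < s) (hs : s * s = (29 : ℕ)) :
    Good2 29 s (387 / 1000) (380 / 1000) := by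
  obtain ⟨b1, b2⟩ := sqrt_bds (S1 := 5385164) (S2 := 5385165) hs0 hs (by norm_num) (by norm_num) (by norm_num)
  have h3 : 3 < s := by linarith
  have h6 : s ≤ 6 := by linarith
  refine ⟨by norm_num, by norm_num, not_sq (by norm_num) (by norm_num) (by norm_num) (by norm_num)
    (by norm_num) (by norm_num) (by norm_num) (by norm_num), by norm_num, by norm_num, ?_, ?_⟩
  · intro κ hκ
    push_cast at hκ
    have hk : (7445433 : ℝ) ≤ 1000000 * κ := by linarith
    exact Or.inr ⟨numS2_29 h3 h6 b1 b2 hk, by linarith⟩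
  · intro κ hκ0 hκ
    push_cast at hκ
    have hk : 1000000 * κ ≤ (5380225 : ℝ) := by linarith
    have hκ3 : κ < 3 * s := by linarith
    exact Or.inr (Or.inr ⟨numE2_29 h3 h6 b1 b2 hk, row0_29 hs0 b1 b2 hk,
      top_29 h3 h6 b1 b2 hκ0 hκ3 hk, hκ3⟩)

theorem good2_30 {s : ℝ} (hs0 : 0 < s) (hs : s * s = (30 : ℕ)) :
    Good2 30 s (424 / 1000) (244 / 1000) := by
  obtain ⟨b1, b2⟩ := sqrt_bds (S1 := 5477225) (S2 := 5477226) hs0 hs (by norm_num) (by norm_num) (by norm_num)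
  have h3 : 3 < s := by linarith
  have h6 : s ≤ 6 := by linarith
  refine ⟨by norm_num, by norm_num, not_sq (by norm_num) (by norm_num) (by norm_num) (by norm_num)
    (by norm_num) (by norm_num) (by norm_num) (by norm_num), by norm_num, by norm_num, ?_, ?_⟩
  · intro κ hκ
    push_cast at hκ
    have hk : (7452382 : ℝ) ≤ 1000000 * κ := by linarith
    exact Or.inr ⟨numS2_30 h3 h6 b1 b2 hk, by linarith⟩
  · intro κ hκ0 hκ
    push_cast at hκ
    have hk : 1000000 * κ ≤ (5622991 : ℝ) := by linarith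
    have hκ3 : κ < 3 * s := by linarith
    exact Or.inr (Or.inr ⟨numE2_30 h3 h6 b1 b2 hk, row0_30 hs0 b1 b2 hk,
      top_30 h3 h6 b1 b2 hκ0 hκ3 hk, hκ3⟩)

theorem good2_31 {s : ℝ} (hs0 : 0 < s) (hs : s * s = (31 : ℕ)) :
    Good2 31 s (442 / 1000) (308 / 1000) := by
  obtain ⟨b1, b2⟩ := sqrt_bds (S1 := 5567764) (S2 := 5567765) hs0 hs (by norm_num) (by norm_num) (by norm_num)
  have h3 : 3 < s := by linarith
  have h6 : s ≤ 6 := by linarith
  refine ⟨by norm_num, by norm_num, not_sq (by norm_num) (by norm_num) (by norm_num) (by norm_num)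
    (by norm_num) (by norm_num) (by norm_num) (by norm_num), by norm_num, by norm_num, ?_, ?_⟩
  · intro κ hκ
    push_cast at hκ
    have hk : (8005788 : ℝ) ≤ 1000000 * κ := by linarith
    exact Or.inr ⟨numS2_31 h3 h6 b1 b2 hk, by linarith⟩
  · intro κ hκ0 hκ
    push_cast at hκ
    have hk : 1000000 * κ ≤ (5917879 : ℝ) := by linarith
    have hκ3 : κ < 3 * s := by linarith
    exact Or.inr (Or.inr ⟨numE2_31 h3 h6 b1 b2 hk, row0_31 hs0 b1 b2 hk,
      top_31 h3 h6 b1 b2 hκ0 hκ3 hk, hκ3⟩)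

theorem good2_32 {s : ℝ} (hs0 : 0 < s) (hs : s * s = (32 : ℕ)) :
    Good2 32 s (340 / 1000) (322 / 1000) := by
  obtain ⟨b1, b2⟩ := sqrt_bds (S1 := 5656854) (S2 := 5656855) hs0 hs (by norm_num) (by norm_num) (by norm_num)
  have h3 : 3 < s := by linarith
  have h6 : s ≤ 6 := by linarith
  refine ⟨by norm_num, by norm_num, not_sq (by norm_num) (by norm_num) (by norm_num) (by norm_num)
    (by norm_num) (by norm_num) (by norm_num) (by norm_num), by norm_num, by norm_num, ?_, ?_⟩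
  · intro κ hκ
    push_cast at hκ
    have hk : (8425471 : ℝ) ≤ 1000000 * κ := by linarith
    exact Or.inr ⟨numS2_32 h3 h6 b1 b2 hk, by linarith⟩
  · intro κ hκ0 hκ
    push_cast at hκ
    have hk : 1000000 * κ ≤ (6553054 : ℝ) := by linarith
    have hκ3 : κ < 3 * s := by linarith
    exact Or.inr (Or.inr ⟨numE2_32 h3 h6 b1 b2 hk, row0_32 hs0 b1 b2 hk,
      top_32 h3 h6 b1 b2 hκ0 hκ3 hk, hκ3⟩)

theorem good2_33 {s : ℝ} (hs0 : 0 < s) (hs : s * s = (33 : ℕ)) :
    Good2 33 s (443 / 1000) (208 / 1000) := by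
  obtain ⟨b1, b2⟩ := sqrt_bds (S1 := 5744562) (S2 := 5744563) hs0 hs (by norm_num) (by norm_num) (by norm_num)
  have h3 : 3 < s := by linarith
  have h6 : s ≤ 6 := by linarith
  refine ⟨by norm_num, by norm_num, not_sq (by norm_num) (by norm_num) (by norm_num) (by norm_num)
    (by norm_num) (by norm_num) (by norm_num) (by norm_num), by norm_num, by norm_num, ?_, ?_⟩
  · intro κ hκ
    push_cast at hκ
    have hk : (8480590 : ℝ) ≤ 1000000 * κ := by linarith
    exact Or.inr ⟨numS2_33 h3 h6 b1 b2 hk, by linarith⟩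
  · intro κ hκ0 hκ
    push_cast at hκ
    have hk : 1000000 * κ ≤ (6610737 : ℝ) := by linarith
    have hκ3 : κ < 3 * s := by linarith
    exact Or.inr (Or.inr ⟨numE2_33 h3 h6 b1 b2 hk, row0_33 hs0 b1 b2 hk,
      top_33 h3 h6 b1 b2 hκ0 hκ3 hk, hκ3⟩)

theorem good2_34 {s : ℝ} (hs0 : 0 < s) (hs : s * s = (34 : ℕ)) :
    Good2 34 s (452 / 1000) (165 / 1000) := by
  obtain ⟨b1, b2⟩ := sqrt_bds (S1 := 5830951) (S2 := 5830952) hs0 hs (by norm_num) (by norm_num) (by norm_num)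
  have h3 : 3 < s := by linarith
  have h6 : s ≤ 6 := by linarith
  refine ⟨by norm_num, by norm_num, not_sq (by norm_num) (by norm_num) (by norm_num) (by norm_num)
    (by norm_num) (by norm_num) (by norm_num) (by norm_num), by norm_num, by norm_num, ?_, ?_⟩
  · intro κ hκ
    push_cast at hκ
    have hk : (8734625 : ℝ) ≤ 1000000 * κ := by linarith
    exact Or.inr ⟨numS2_34 h3 h6 b1 b2 hk, by linarith⟩
  · intro κ hκ0 hκ
    push_cast at hκ
    have hk : 1000000 * κ ≤ (6935779 : ℝ) := by linarith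
    have hκ3 : κ < 3 * s := by linarith
    exact Or.inr (Or.inr ⟨numE2_34 h3 h6 b1 b2 hk, row0_34 hs0 b1 b2 hk,
      top_34 h3 h6 b1 b2 hκ0 hκ3 hk, hκ3⟩)

theorem good2_35 {s : ℝ} (hs0 : 0 < s) (hs : s * s = (35 : ℕ)) :
    Good2 35 s (394 / 1000) (165 / 1000) := by
  obtain ⟨b1, b2⟩ := sqrt_bds (S1 := 5916079) (S2 := 5916080) hs0 hs (by norm_num) (by norm_num) (by norm_num)
  have h3 : 3 < s := by linarith
  have h6 : s ≤ 6 := by linarith
  refine ⟨by norm_num, by norm_num, not_sq (by norm_num) (by norm_num) (by norm_num) (by norm_num)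
    (by norm_num) (by norm_num) (by norm_num) (by norm_num), by norm_num, by norm_num, ?_, ?_⟩
  · intro κ hκ
    push_cast at hκ
    have hk : (9113956 : ℝ) ≤ 1000000 * κ := by linarith
    exact Or.inr ⟨numS2_35 h3 h6 b1 b2 hk, by linarith⟩
  · intro κ hκ0 hκ
    push_cast at hκ
    have hk : 1000000 * κ ≤ (7460414 : ℝ) := by linarith
    have hκ3 : κ < 3 * s := by linarith
    exact Or.inr (Or.inr ⟨numE2_35 h3 h6 b1 b2 hk, row0_35 hs0 b1 b2 hk,
      top_35 h3 h6 b1 b2 hκ0 hκ3 hk, hκ3⟩)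

theorem dichW2 {n m d : ℕ} {s δE δS : ℝ} (hs : s = √(n : ℝ)) (h : Good2 n s δE δS) (hm : 8 ≤ m)
    (hG : 2 * (d : ℝ) + 3 ≤ s * (2 * m + 1) - δE ∨ s * (2 * m + 1) + δS ≤ 2 * d + 3) :
    Emp (fun _ : Fin n => m) (TZ d) ∨ Sur (fun _ : Fin n => m) (TZ d) := by
  have hss : s * s = n := by rw [hs]; exact Real.mul_self_sqrt (Nat.cast_nonneg n)
  have hirr : Irrational s := by rw [hs, irrational_sqrt_natCast_iff]; exact h.sq
  have hn10 : (10 : ℝ) ≤ n := by exact_mod_cast h.n10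
  have hn36 : (n : ℝ) ≤ 36 := by exact_mod_cast h.n36
  have hs0 : 0 ≤ s := by rw [hs]; exact Real.sqrt_nonneg _
  have h3 : 3 < s := by
    by_contra hcon
    push Not at hcon
    nlinarith
  have h6 : s ≤ 6 := by
    by_contra hcon
    push Not at hcon
    nlinarith
  obtain ⟨c, hc⟩ : ∃ c : ℕ, c = ⌊s⌋₊ := ⟨_, rfl⟩
  have hc1 : (c : ℝ) < s := by
    refine lt_of_le_of_ne (by rw [hc]; exact Nat.floor_le hs0) fun he => ?_
    exact hirr.ne_nat c he.symm
  have hc2 : s < c + 1 := by rw [hc]; exact Nat.lt_floor_add_one s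
  rcases hG with hG | hG
  · left
    rcases lt_or_ge 0 (s * d - n * m) with hκ | hκ
    · have hκ' : s * d - n * m ≤ ((n : ℝ) - (3 + δE) * s) / 2 := by
        have h4 := mul_le_mul_of_nonneg_left hG hs0
        have h5 : s * (s * (2 * m + 1) - δE) = n * (2 * m + 1) - δE * s := by rw [← hss]; ring
        linarith
      refine Emp_T9 hc1 hc2 (Emp_flat9 hs0 ?_)
      rcases h.numE _ hκ hκ' with ⟨h1, h2⟩ | ⟨h1, h2⟩ | ⟨h1, h2, h2', h2''⟩
      · refine Emp_main0 hss h3 hκ ?_ h1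
        have e : s * ((s * d - n * m) + 3 * (d - s * m)) =
            s * (s * d - n * m) + 3 * (s * d - n * m) := by
          rw [← hss]; ring
        by_contra hcon
        push Not at hcon
        have := mul_le_mul_of_nonneg_left hcon hs0
        linarith
      · exact Emp_main1 hss h3 (by omega) hκ.le h2 h1
      · exact Emp_main2 hss h3 hm hκ h2'' h1 h2 h2'
    · have hne : s * d ≠ n * m := by
        intro he
        have hd : d ≠ 0 := by
          rintro rfl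
          have hmR : (8 : ℝ) ≤ m := by exact_mod_cast hm
          rw [Nat.cast_zero, mul_zero] at he
          nlinarith
        have h4 := (hirr.mul_natCast hd).ne_nat (n * m)
        push_cast at h4
        exact h4 he
      refine Pool.Agent.TH603.EL.Emp_plane (by rw [Fintype.card_fin]; have := h.n10; omega) ?_
      rw [Fintype.card_fin, ← hs]
      have h4 : s * (d : ℝ) < n * m := lt_of_le_of_ne (by linarith) hne
      simpa using h4
  · right
    have hκ' : ((n : ℝ) - (3 - δS) * s) / 2 ≤ s * d - n * m := by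
      have h4 := mul_le_mul_of_nonneg_left hG hs0
      have h5 : s * (s * (2 * m + 1) + δS) = n * (2 * m + 1) + δS * s := by rw [← hss]; ring
      linarith
    have hκ : 0 ≤ s * d - n * m := by
      have h4 : 0 ≤ δS * s := mul_nonneg h.s0 hs0
      nlinarith
    refine Sur_T9 hc1 hc2 hirr ?_
    rcases h.numS _ hκ' with h1 | ⟨h1, h2⟩
    · exact Sur_main hss h3 h6 hκ h1
    · exact Sur_main2 hss h3 h6 h2 h1

theorem uniformW2 {n m : ℕ} {δE δS : ℝ} (h : Good2 n (√(n : ℝ)) δE δS) (hm : 8 ≤ m) :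
    ∃ F : MvPolynomial (Fin n × Fin 2) ℚ, F ≠ 0 ∧ ∀ {L : Type} [Field L] [CharZero L]
      (P : Fin n → Fin 2 → L), MvPolynomial.aeval (fun ij : Fin n × Fin 2 => P ij.1 ij.2) F ≠ 0 →
      ∀ d : ℕ, (2 * (d : ℝ) + 3 ≤ √(n : ℝ) * (2 * m + 1) - δE ∨
          √(n : ℝ) * (2 * m + 1) + δS ≤ 2 * d + 3) →
        H932R3.ExpDim L (fun _ => m) P d :=
  Pool.Agent.TH864.SX.expDim_of_or' fun _ hd => dichW2 rfl h hm hd

/-- the list of the `(n, a, b)` -/
theorem good2_of_mem {n a b : ℕ} (h : (n, a, b) ∈ ([(10, 163, 130), (12, 310, 310), (14, 445, 434), (17, 489, 242), (18, 334, 334), (19, 523, 304), (20, 513, 153), (22, 462, 462), (23, 299, 231), (24, 403, 276), (26, 518, 323), (27, 532, 249), (28, 423, 417), (29, 387, 380), (30, 424, 244), (31, 442, 308), (32, 340, 322), (33, 443, 208), (34, 452, 165), (35, 394, 165)] : List (ℕ × ℕ × ℕ))) :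
    Good2 n (√(n : ℝ)) ((a : ℝ) / 1000) ((b : ℝ) / 1000) := by
  have hs (k : ℕ) : √(k : ℝ) * √(k : ℝ) = (k : ℕ) := Real.mul_self_sqrt (Nat.cast_nonneg k)
  have hp (k : ℕ) (hk : 0 < k) : 0 < √(k : ℝ) := Real.sqrt_pos.2 (by exact_mod_cast hk)
  simp only [List.mem_cons, Prod.mk.injEq, List.not_mem_nil, or_false] at h
  rcases h with ⟨rfl, rfl, rfl⟩ | ⟨rfl, rfl, rfl⟩ | ⟨rfl, rfl, rfl⟩ | ⟨rfl, rfl, rfl⟩ | ⟨rfl, rfl, rfl⟩ | ⟨rfl, rfl, rfl⟩ | ⟨rfl, rfl, rfl⟩ | ⟨rfl, rfl, rfl⟩ | ⟨rfl, rfl, rfl⟩ | ⟨rfl, rfl, rfl⟩ | ⟨rfl, rfl, rfl⟩ | ⟨rfl, rfl, rfl⟩ | ⟨rfl, rfl, rfl⟩ | ⟨rfl, rfl, rfl⟩ | ⟨rfl, rfl, rfl⟩ | ⟨rfl, rfl, rfl⟩ | ⟨rfl, rfl, rfl⟩ | ⟨rfl, rfl, rfl⟩ | ⟨rfl, rfl, rfl⟩ | ⟨rfl, rfl, rfl⟩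
  · simpa using (good_10 (hp 10 (by norm_num)) (hs 10)).good2
  · simpa using (good_12 (hp 12 (by norm_num)) (hs 12)).good2
  · simpa using (good_14 (hp 14 (by norm_num)) (hs 14)).good2
  · simpa using good2_17 (hp 17 (by norm_num)) (hs 17)
  · simpa using good2_18 (hp 18 (by norm_num)) (hs 18)
  · simpa using good2_19 (hp 19 (by norm_num)) (hs 19)
  · simpa using good2_20 (hp 20 (by norm_num)) (hs 20)
  · simpa using good2_22 (hp 22 (by norm_num)) (hs 22)
  · simpa using good2_23 (hp 23 (by norm_num)) (hs 23)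
  · simpa using good2_24 (hp 24 (by norm_num)) (hs 24)
  · simpa using good2_26 (hp 26 (by norm_num)) (hs 26)
  · simpa using good2_27 (hp 27 (by norm_num)) (hs 27)
  · simpa using good2_28 (hp 28 (by norm_num)) (hs 28)
  · simpa using good2_29 (hp 29 (by norm_num)) (hs 29)
  · simpa using good2_30 (hp 30 (by norm_num)) (hs 30)
  · simpa using good2_31 (hp 31 (by norm_num)) (hs 31)
  · simpa using good2_32 (hp 32 (by norm_num)) (hs 32)
  · simpa using good2_33 (hp 33 (by norm_num)) (hs 33)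
  · simpa using good2_34 (hp 34 (by norm_num)) (hs 34)
  · simpa using good2_35 (hp 35 (by norm_num)) (hs 35)

end Pool.Agent.H209.SW
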