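import Pool.Agent.H209.SW.Rows

set_option autoImplicit false

/-! Emptiness and independence from the numerical conditions. -/

namespace Pool.Agent.H209.SW

open Finset Pool.Agent.TH176.Nag Pool.Agent.TH603.Sur Pool.Agent.TH603.Cut Pool.Agent.TH641.NW

theorem row_wide {s : ℝ} {d : ℕ} {g : ℕ} {c y : ℤ} (hy1 : (s - 3) * ((d : ℝ) - 3 * y) ≤ c)
    (hy2 : (c : ℝ) ≤ s * ((d : ℝ) - 3 * (y + g))) : s * g ≤ (d : ℝ) - 3 * y := by
  nlinarith

/-- the rows above the height `m` are empty -/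
theorem row_above {s : ℝ} {n m g d : ℕ} (hn : s * s = n) (hs : 3 < s) (hκ : s * d - n * m < n)
    (hg : m < g) (c : ℤ) (hc : ((c, (g : ℤ)) : ℤ × ℤ) ∈ Row s d) : False := by
  obtain ⟨-, y, hy0, hy1, hy2⟩ := hc
  simp only [Int.cast_natCast] at hy1 hy2
  have h1 := row_wide hy1 hy2
  have hy0R : (0 : ℝ) ≤ y := by exact_mod_cast hy0
  have hgR : (m : ℝ) + 1 ≤ g := by exact_mod_cast hg
  have h2 : s * (m + 1) ≤ s * g := mul_le_mul_of_nonneg_left hgR (by linarith)
  have h3 : s * (s * (m + 1)) ≤ s * d := mul_le_mul_of_nonneg_left (by linarith) (by linarith)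
  have h4 : s * (s * ((m : ℝ) + 1)) = n * (m + 1) := by rw [← mul_assoc, hn]
  linarith

/-- the row of height `m` -/
theorem row_top {s : ℝ} {n m d : ℕ} (hn : s * s = n) (hs : 3 < s)
    (hκ : s * d - n * m < 3 * s) (B : Finset ℤ)
    (hB : ∀ c ∈ B, ((c, (m : ℤ)) : ℤ × ℤ) ∈ Row s d) :
    ∀ c ∈ B, s * d - n * m ≤ ((c - (n * m - 3 * d) : ℤ) : ℝ) ∧
      ((c - (n * m - 3 * d) : ℤ) : ℝ) ≤ (s * d - n * m) + 3 * (d - s * m) := by
  intro c hc
  obtain ⟨-, y, hy0, hy1, hy2⟩ := hB c hc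
  simp only [Int.cast_natCast] at hy1 hy2
  have h1 := row_wide hy1 hy2
  have hs0 : 0 < s := by linarith
  have h2 : (d : ℝ) - s * m < 3 := by
    have h3 : s * ((d : ℝ) - s * m) < s * 3 := by
      have e : s * ((d : ℝ) - s * m) = s * d - n * m := by rw [← hn]; ring
      rw [e]; linarith
    exact lt_of_mul_lt_mul_left h3 hs0.le
  have hy : y = 0 := by
    have h3 : (y : ℝ) < 1 := by linarith
    have h4 : y < 1 := by exact_mod_cast h3
    omega
  subst hy
  push_cast at hy1 hy2 ⊢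
  constructor
  · linarith
  · rw [← hn] at *
    nlinarith

/-- emptiness, the row of height `m` is empty -/
theorem Emp_main0 {s : ℝ} {n m d : ℕ} (hn : s * s = n) (hs : 3 < s) (hκ : 0 < s * d - n * m)
    (h1 : (s * d - n * m) + 3 * (d - s * m) < 1) (hN : NumE s (s * d - n * m) 0) :
    Emp (fun _ : Fin n => m) (Row s d) := by
  have hs0 : 0 < s := by linarith
  have hdm : 0 < (d : ℝ) - s * m := by
    have e : s * ((d : ℝ) - s * m) = s * d - n * m := by rw [← hn]; ring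
    by_contra hcon
    push Not at hcon
    have : s * ((d : ℝ) - s * m) ≤ 0 := mul_nonpos_of_nonneg_of_nonpos hs0.le hcon
    linarith
  refine Pool.Agent.TH864.SX.Emp_of_rows (fun p hp => hp.1) ?_
  intro g B hB
  simp only [sum_const, card_univ, Fintype.card_fin, smul_eq_mul]
  rcases lt_trichotomy g m with hg | hg | hg
  · have h2 := rowE hn hs hκ.le hg hN B hB
    have e : ((m - g : ℕ) : ℤ) = m - g := by omega
    have : (B.card : ℤ) ≤ ((n * (m - g) : ℕ) : ℤ) := by push_cast [e]; linarith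
    exact_mod_cast this
  · subst hg
    have h2 := row_top hn hs (by linarith) B hB
    have : B = ∅ := by
      rw [Finset.eq_empty_iff_forall_notMem]
      intro c hc
      obtain ⟨h3, h4⟩ := h2 c hc
      have h5 : (0 : ℝ) < ((c - (n * g - 3 * d) : ℤ) : ℝ) := by linarith
      have h6 : ((c - (n * g - 3 * d) : ℤ) : ℝ) < 1 := by linarith
      have h7 : (0 : ℤ) < c - (n * g - 3 * d) := by exact_mod_cast h5
      have h8 : c - (n * g - 3 * d) < (1 : ℤ) := by exact_mod_cast h6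
      omega
    rw [this]; simp
  · have : B = ∅ := by
      rw [Finset.eq_empty_iff_forall_notMem]
      intro c hc
      refine row_above hn hs ?_ hg c (hB c hc)
      rw [← hn]; nlinarith
    rw [this]; simp

/-- emptiness, the row of height `m` has at most four points -/
theorem Emp_main1 {s : ℝ} {n m d : ℕ} (hn : s * s = n) (hs : 3 < s) (hm : 4 ≤ m)
    (hκ : 0 ≤ s * d - n * m) (h1 : 3 * (s * d - n * m) < 4 * s) (hN : NumE s (s * d - n * m) 1) :
    Emp (fun _ : Fin n => m) (Row s d) := by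
  classical
  have hs0 : 0 < s := by linarith
  have hdm : (d : ℝ) - s * m < 4 / 3 := by
    have h3 : s * ((d : ℝ) - s * m) < s * (4 / 3) := by
      have e : s * ((d : ℝ) - s * m) = s * d - n * m := by rw [← hn]; ring
      rw [e]; linarith
    exact lt_of_mul_lt_mul_left h3 hs0.le
  have hn9 : (9 : ℝ) < n := by rw [← hn]; nlinarith
  have hn1 : 1 ≤ n := by
    by_contra hcon
    have : n = 0 := by omega
    rw [this] at hn9
    norm_num at hn9
  have hσ : ((n - 1 : ℕ) : ℝ) = n - 1 := by rw [Nat.cast_sub hn1]; push_cast; ring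
  have hmR : (4 : ℝ) ≤ m := by exact_mod_cast hm
  refine Emp_spread (n' := (n : ℝ)) (Z' := (n : ℝ) * m) (σ := n - 1) (J := m)
    (ρ := fun j => if j < m then (n : ℝ) * (m - j) - 1 else if j = m then 4 else 0) ?_
    (fun p hp => hp.1) ?_ ?_ ?_ ?_ ?_
  · rw [hσ]; linarith
  · intro g B hB
    rcases lt_trichotomy g m with hg | hg | hg
    · simp only [if_pos hg]
      have h2 := rowE hn hs hκ hg hN B hB
      exact_mod_cast h2
    · subst hg
      simp only [lt_irrefl, if_false, if_true]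
      have h2 := row_top hn hs (by linarith) B hB
      have hsub : B ⊆ Icc (⌈s * d - n * g⌉ + (n * g - 3 * d))
          (⌊(s * d - n * g) + 3 * (d - s * g)⌋ + (n * g - 3 * d)) := by
        intro c hc
        obtain ⟨h3, h4⟩ := h2 c hc
        have h5 := Int.ceil_le.2 h3
        have h6 := Int.le_floor.2 h4
        rw [mem_Icc]
        constructor <;> linarith
      have h3 := card_le_card hsub
      rw [Int.card_Icc] at h3
      have h4 := Int.le_ceil (s * d - n * g)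
      have h5 := Int.floor_le ((s * d - n * g) + 3 * (d - s * g))
      have h6 : (((⌊(s * d - n * g) + 3 * (d - s * g)⌋ - ⌈s * d - n * g⌉ : ℤ)) : ℝ) < 4 := by
        push_cast
        linarith
      have h7 : ⌊(s * d - n * g) + 3 * (d - s * g)⌋ - ⌈s * d - n * g⌉ < (4 : ℤ) := by
        exact_mod_cast h6
      have h8 : B.card ≤ 4 := by omega
      exact_mod_cast h8
    · have : B = ∅ := by
        rw [Finset.eq_empty_iff_forall_notMem]
        intro c hc
        refine row_above hn hs ?_ hg c (hB c hc)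
        rw [← hn]; nlinarith
      rw [this]
      simp only [if_neg (not_lt.2 hg.le), if_neg (show ¬ g = m by omega)]
      simp
  · intro j hj
    simp only [if_pos hj]
    rw [hσ]; linarith
  · simp only [lt_irrefl, if_false, if_true]
    rw [hσ]; linarith
  · intro j hj
    simp only [if_neg (not_lt.2 hj.le), if_neg (show ¬ j = m by omega)]
    norm_num
  · have := Emp_Cl (fun _ : Fin n => m)
    simpa using this

theorem mem_col {s : ℝ} {d : ℕ} {g c y : ℤ} (hs : 3 < s) (hy0 : 0 ≤ y)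
    (hy1 : (s - 3) * ((d : ℝ) - 3 * y) ≤ c) (hy2 : (c : ℝ) ≤ s * ((d : ℝ) - 3 * (y + g))) :
    ∀ t : ℤ, y ≤ t → t ≤ y + g → ((1 * c - 0 * t, 0 * c + 1 * t) : ℤ × ℤ) ∈ T9 s d := by
  intro t ht1 ht2
  have e : ((1 * c - 0 * t, 0 * c + 1 * t) : ℤ × ℤ) = (c, t) := by simp
  rw [e]
  have h1 : (y : ℝ) ≤ t := by exact_mod_cast ht1
  have h2 : (t : ℝ) ≤ y + g := by exact_mod_cast ht2
  refine ⟨by simp only; omega, ?_, ?_⟩
  · simp only
    have : (s - 3) * ((d : ℝ) - 3 * t) ≤ (s - 3) * ((d : ℝ) - 3 * y) :=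
      mul_le_mul_of_nonneg_left (by linarith) (by linarith)
    linarith
  · simp only
    have : s * ((d : ℝ) - 3 * (y + g)) ≤ s * ((d : ℝ) - 3 * t) :=
      mul_le_mul_of_nonneg_left (by linarith) (by linarith)
    linarith

/-- independence -/
theorem Sur_main {s : ℝ} {n m d : ℕ} (hn : s * s = n) (hs : 3 < s) (hs6 : s ≤ 6)
    (hκ : 0 ≤ s * d - n * m) (hN : NumS s (s * d - n * m)) :
    Sur (fun _ : Fin n => m) (T9 s d) := by
  classical
  have hs0 : 0 < s := by linarith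
  have hs2 : 0 < s - 3 := by linarith
  have hdm : s * m ≤ d := by
    have h1 : s * (s * m) ≤ s * d := by rw [← mul_assoc, hn]; linarith
    exact le_of_mul_le_mul_left h1 hs0
  refine Sur_slabs (S' := {p : ℤ × ℤ | 0 ≤ p.2 ∧ 0 ≤ p.1 ∧ p.1 < (n : ℤ) * (m - p.2)}) 1 0 1 0
    (by norm_num) ?_ ?_
  · rintro ⟨p, g⟩ ⟨g1, g2, g3⟩
    simp only at g1 g2 g3
    refine ⟨g2, g1, ?_⟩
    simp only
    obtain ⟨g, rfl⟩ := Int.eq_ofNat_of_zero_le g1
    have hgm : g < m := by
      by_contra hcon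
      have h1 : (m : ℤ) - g ≤ 0 := by omega
      have h2 : (n : ℤ) * (m - g) ≤ 0 := mul_nonpos_of_nonneg_of_nonpos (by positivity) h1
      omega
    obtain ⟨z, c0, l, hl0, hl3, hz, hL, hR, hL1, hX⟩ := row_data (m := m) (g := g) (d := d) hn
    have hgmR : (g : ℝ) + 1 ≤ m := by exact_mod_cast hgm
    have hdg : s ≤ (d : ℝ) - s * g := by
      have : s * (g + 1) ≤ s * m := mul_le_mul_of_nonneg_left hgmR hs0.le
      linarith
    have hz1 : 1 ≤ z := by
      have : (0 : ℝ) < z := by linarith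
      have : (0 : ℤ) < z := by exact_mod_cast this
      omega
    obtain ⟨L, hLd⟩ : ∃ L : ℝ, L = (s - 3) * ((d : ℝ) - 3 * z) := ⟨_, rfl⟩
    obtain ⟨R, hRd⟩ : ∃ R : ℝ, R = s * ((d : ℝ) - 3 * (z + g)) := ⟨_, rfl⟩
    obtain ⟨L1, hL1d⟩ : ∃ L1 : ℝ, L1 = (s - 3) * ((d : ℝ) - 3 * (z - 1)) := ⟨_, rfl⟩
    obtain ⟨X, hXd⟩ : ∃ X : ℝ, X = s * ((d : ℝ) - 3 * g) := ⟨_, rfl⟩
    rw [← hLd] at hL
    rw [← hRd] at hR
    rw [← hL1d] at hL1
    rw [← hXd] at hX
    have hm1 : ∀ c : ℤ, L ≤ c → (c : ℝ) ≤ R → ∃ s0 : ℤ, ∀ t : ℤ, s0 ≤ t → t ≤ s0 + (g : ℤ) →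
        ((1 * c - 0 * t, 0 * c + 1 * t) : ℤ × ℤ) ∈ T9 s d := by
      intro c h1 h2
      exact ⟨z, mem_col hs (by omega) (by rw [← hLd]; exact h1) (by push_cast; rw [← hRd]; exact h2)⟩
    have hm2 : ∀ c : ℤ, L1 ≤ c → (c : ℝ) ≤ X → ∃ s0 : ℤ, ∀ t : ℤ, s0 ≤ t → t ≤ s0 + (g : ℤ) →
        ((1 * c - 0 * t, 0 * c + 1 * t) : ℤ × ℤ) ∈ T9 s d := by
      intro c h1 h2
      obtain ⟨u, hu⟩ : ∃ u : ℤ, u = ⌈((d : ℝ) - c / (s - 3)) / 3⌉ := ⟨_, rfl⟩
      have hu1 := Int.le_ceil (((d : ℝ) - c / (s - 3)) / 3)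
      have hu2 := Int.ceil_lt_add_one (((d : ℝ) - c / (s - 3)) / 3)
      rw [← hu] at hu1 hu2
      have ec : (s - 3) * ((c : ℝ) / (s - 3)) = c := mul_div_cancel₀ _ hs2.ne'
      have hu3 : (s - 3) * ((d : ℝ) - 3 * u) ≤ c := by
        have : (s - 3) * ((d : ℝ) - 3 * u) ≤ (s - 3) * ((c : ℝ) / (s - 3)) :=
          mul_le_mul_of_nonneg_left (by linarith) hs2.le
        linarith
      rcases le_or_gt u 0 with hu0 | hu0
      · have hu0R : (u : ℝ) ≤ 0 := by exact_mod_cast hu0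
        refine ⟨0, mem_col hs le_rfl ?_ ?_⟩
        · have : (s - 3) * ((d : ℝ) - 3 * ((0 : ℤ) : ℝ)) ≤ (s - 3) * ((d : ℝ) - 3 * u) :=
            mul_le_mul_of_nonneg_left (by push_cast; linarith) hs2.le
          linarith
        · push_cast
          rw [zero_add, ← hXd]; exact h2
      · have hu4 : (c : ℝ) < (s - 3) * ((d : ℝ) - 3 * u) + 3 * (s - 3) := by
          have : (s - 3) * ((c : ℝ) / (s - 3)) < (s - 3) * ((d : ℝ) - 3 * u + 3) :=
            mul_lt_mul_of_pos_left (by linarith) hs2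
          rw [ec] at this
          linarith
        have huz : u ≤ z - 1 := by
          rw [hu, Int.ceil_le]
          push_cast
          have h5 : (s - 3) * ((d : ℝ) - 3 * (z - 1)) ≤ (s - 3) * ((c : ℝ) / (s - 3)) := by
            rw [ec, ← hL1d]; exact h1
          have := le_of_mul_le_mul_left h5 hs2
          linarith
        have huzR : (u : ℝ) ≤ z - 1 := by exact_mod_cast huz
        refine ⟨u, mem_col hs (by omega) hu3 ?_⟩
        push_cast
        nlinarith
    have e1 : ⌈L⌉ = c0 + ⌈s * l⌉ := by rw [hL, Int.ceil_intCast_add]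
    have e2 : ⌊R⌋ = c0 + ⌊(s + 3) * l⌋ := by rw [hR, Int.floor_intCast_add]
    have e3 : ⌈L1⌉ = c0 + (⌈s * (l + 3)⌉ - 9) := by
      rw [hL1, Int.ceil_intCast_add]
      congr 1
      have : s * (l + 3) - 9 = s * (l + 3) - ((9 : ℤ) : ℝ) := by push_cast; ring
      rw [this, Int.ceil_sub_intCast]
    have e4 : ⌊X⌋ = c0 + ((n : ℤ) * (m - g) + ⌊(s * d - n * m) + 3 * l⌋) := by
      rw [hX, Int.floor_intCast_add]
      congr 1
      have : (n : ℝ) * (m - g) = (((n : ℤ) * (m - g) : ℤ) : ℝ) := by push_cast; ring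
      rw [this, Int.floor_intCast_add]
    obtain ⟨k1, k2⟩ := hN l hl0 hl3
    by_cases hgap : ⌊R⌋ + 1 < ⌈L1⌉
    · refine ⟨Icc ⌈L⌉ ⌊R⌋ ∪ Icc ⌈L1⌉ ⌊X⌋, ?_, ?_⟩
      · have hdisj : Disjoint (Icc ⌈L⌉ ⌊R⌋) (Icc ⌈L1⌉ ⌊X⌋) := by
          rw [disjoint_left]
          intro c hc1 hc2
          rw [mem_Icc] at hc1 hc2
          omega
        rw [card_union_of_disjoint hdisj, Int.card_Icc, Int.card_Icc]
        rw [e1, e2, e3, e4]
        push_cast
        have t1 := Int.self_le_toNat (c0 + ⌊(s + 3) * l⌋ + 1 - (c0 + ⌈s * l⌉))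
        have t2 := Int.self_le_toNat (c0 + ((n : ℤ) * (m - g) + ⌊(s * d - n * m) + 3 * l⌋) + 1 -
          (c0 + (⌈s * (l + 3)⌉ - 9)))
        omega
      · intro c hc
        rw [mem_union, mem_Icc, mem_Icc, Int.ceil_le, Int.le_floor, Int.ceil_le, Int.le_floor] at hc
        rcases hc with hc | hc
        · exact hm1 c hc.1 hc.2
        · exact hm2 c hc.1 hc.2
    · refine ⟨Icc ⌈L⌉ ⌊X⌋, ?_, ?_⟩
      · rw [Int.card_Icc, e1, e4]
        have t1 := Int.self_le_toNat (c0 + ((n : ℤ) * (m - g) + ⌊(s * d - n * m) + 3 * l⌋) + 1 -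
          (c0 + ⌈s * l⌉))
        omega
      · intro c hc
        rw [mem_Icc] at hc
        rcases le_or_gt c ⌊R⌋ with h1 | h1
        · exact hm1 c (Int.ceil_le.1 hc.1) (Int.le_floor.1 h1)
        · exact hm2 c (Int.ceil_le.1 (by omega)) (Int.le_floor.1 hc.2)
  · refine Sur_rows _ 0 ?_
    intro k j hj
    simp only [sum_const, card_univ, Fintype.card_fin, smul_eq_mul] at hj
    refine ⟨by simp, by simp, ?_⟩
    simp only
    have hkm : k ≤ m := by
      by_contra hcon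
      have : m - k = 0 := by omega
      rw [this] at hj
      simp at hj
    have e : ((m - k : ℕ) : ℤ) = m - k := by omega
    rw [← e]
    have : (j : ℤ) < (n * (m - k) : ℕ) := by exact_mod_cast hj
    push_cast at this ⊢
    omega

end Pool.Agent.H209.SW
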