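import Pool.Agent.H209.SW.Rows

set_option autoImplicit false

/-! Rows with compensation: the sheared shape is flattened once more. -/

namespace Pool.Agent.H209.SW

open Finset Pool.Agent.TH176.Nag Pool.Agent.TH603.Sur Pool.Agent.TH603.Cut Pool.Agent.TH641.NW

theorem Sur_tri (n m : ℕ) : Sur (fun _ : Fin n => m)
    {p : ℤ × ℤ | 0 ≤ p.2 ∧ 0 ≤ p.1 ∧ p.1 < (n : ℤ) * (m - p.2)} := by
  refine Sur_rows _ 0 ?_
  intro k j hj
  simp only [sum_const, card_univ, Fintype.card_fin, smul_eq_mul] at hj
  refine ⟨by simp, by simp, ?_⟩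
  simp only
  have hkm : k ≤ m := by
    by_contra hcon
    have : m - k = 0 := by omega
    rw [this] at hj
    simp at hj
  have e : ((m - k : ℕ) : ℤ) = m - k := by omega
  rw [← e]
  have : (j : ℤ) < (n * (m - k) : ℕ) := by exact_mod_cast hj
  push_cast at this ⊢
  omega

/-- independence: a row with one point too few is followed by a row with one point too many -/
theorem Sur_srt {n m : ℕ} (hn : 1 ≤ n) {S : Set (ℤ × ℤ)} {ε : ℕ → ℤ}
    (hrow : ∀ j : ℕ, j ≤ m → ∀ p : ℤ, 0 ≤ p → p < (n : ℤ) * (m - j) + ε j → ((p, (j : ℤ)) : ℤ × ℤ) ∈ S)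
    (h1 : ∀ j < m, 0 ≤ ε j ∨ (-1 ≤ ε j ∧ 1 ≤ ε (j + 1))) :
    Sur (fun _ : Fin n => m) S := by
  classical
  have hn' : (1 : ℤ) ≤ n := by exact_mod_cast hn
  have h3 : Sur (fun _ : Fin n => m)
      {p : ℤ × ℤ | 0 ≤ p.2 ∧ ((n : ℤ) - 1) * p.2 ≤ p.1 ∧ p.1 + p.2 < (n : ℤ) * m} := by
    refine (Sur_tri n m).comap 1 (-((n : ℤ) - 1)) 0 1 0 0 (by norm_num) ?_
    rintro ⟨p, y⟩ ⟨g1, g2, g3⟩
    simp only at g1 g2 g3
    refine ⟨(p + ((n : ℤ) - 1) * y, y), ⟨g1, ?_, ?_⟩, ?_⟩
    · simp only; linarith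
    · simp only; linarith
    · ext
      · simp only; ring
      · simp only; ring
  have h2 : Sur (fun _ : Fin n => m) {p : ℤ × ℤ | 0 ≤ p.2 ∧ p.2 ≤ m ∧ ((n : ℤ) - 1) * p.2 ≤ p.1 ∧
      p.1 < ((n : ℤ) - 1) * p.2 + ((n : ℤ) * (m - p.2) + ε p.2.toNat)} := by
    refine Sur_flat0 ?_ h3
    rintro ⟨a, y⟩ ⟨g1, g2, g3⟩
    simp only at g1 g2 g3
    obtain ⟨Y, rfl⟩ := Int.eq_ofNat_of_zero_le g1
    have hYm : (Y : ℤ) < m := by
      have : (n : ℤ) * Y < n * m := by linarith
      exact lt_of_mul_lt_mul_left this (by omega)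
    have hYm' : Y < m := by exact_mod_cast hYm
    have hlow : ∀ b : ℤ, 0 ≤ b → b < Y → ((a, b) : ℤ × ℤ) ∈ {p : ℤ × ℤ | 0 ≤ p.2 ∧ p.2 ≤ m ∧
        ((n : ℤ) - 1) * p.2 ≤ p.1 ∧
        p.1 < ((n : ℤ) - 1) * p.2 + ((n : ℤ) * (m - p.2) + ε p.2.toNat)} := by
      intro b hb0 hbY
      obtain ⟨b', rfl⟩ := Int.eq_ofNat_of_zero_le hb0
      have hb'm : b' < m := by omega
      have he : -1 ≤ ε b' := by rcases h1 b' hb'm with h | h <;> omega
      have hm1 : ((n : ℤ) - 1) * b' ≤ ((n : ℤ) - 1) * Y :=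
        mul_le_mul_of_nonneg_left (by omega) (by omega)
      refine ⟨by simp, by simp only; omega, by simp only; omega, ?_⟩
      simp only [Int.toNat_natCast]
      nlinarith
    refine ⟨g1, ?_⟩
    by_cases hc : 0 ≤ ε Y ∨ a + Y + 1 < (n : ℤ) * m
    · refine ⟨Icc 0 (Y : ℤ), by rw [Int.card_Icc]; omega, ?_⟩
      intro b hb
      rw [mem_Icc] at hb
      rcases hb.2.lt_or_eq with h | h
      · exact hlow b hb.1 h
      · subst h
        refine ⟨by simp, by simp only; omega, by simp only; omega, ?_⟩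
        simp only [Int.toNat_natCast]
        have he : -1 ≤ ε Y := by rcases h1 Y hYm' with h | h <;> omega
        rcases hc with h | h
        · nlinarith
        · nlinarith
    · push Not at hc
      obtain ⟨hc1, hc2⟩ := hc
      obtain ⟨k1, k2⟩ := (h1 Y hYm').resolve_left (by omega)
      refine ⟨insert ((Y : ℤ) + 1) (Ico 0 (Y : ℤ)), ?_, ?_⟩
      · rw [card_insert_of_notMem (by rw [mem_Ico]; omega), Int.card_Ico]
        push_cast
        omega
      · intro b hb
        rw [mem_insert, mem_Ico] at hb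
        rcases hb with h | h
        · subst h
          have e1 : ((Y : ℤ) + 1).toNat = Y + 1 := by omega
          have hm1 : (n : ℤ) * (Y + 1) ≤ n * m := mul_le_mul_of_nonneg_left (by omega) (by omega)
          refine ⟨by simp only; omega, by simp only; omega, by simp only; nlinarith, ?_⟩
          simp only [e1]
          nlinarith
        · exact hlow b h.1 h.2
  refine h2.comap 1 ((n : ℤ) - 1) 0 1 0 0 (by norm_num) ?_
  rintro ⟨a, y⟩ ⟨g1, g2, g3, g4⟩
  simp only at g1 g2 g3 g4
  obtain ⟨Y, rfl⟩ := Int.eq_ofNat_of_zero_le g1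
  simp only [Int.toNat_natCast] at g4
  refine ⟨(a - ((n : ℤ) - 1) * Y, Y), hrow Y (by exact_mod_cast g2) _ (by linarith) (by linarith), ?_⟩
  ext
  · simp only; ring
  · simp only; ring

/-- emptiness: a row with one point too many is preceded by a row with one point too few, and the
last rows have points too few for the row `m`, which has at most `r` points -/
theorem Emp_srt {n m : ℕ} (hn : 1 ≤ n) {S : Set (ℤ × ℤ)} {ε : ℕ → ℤ} {r : ℕ}
    (hpos : ∀ p ∈ S, 0 ≤ p.2)
    (hcard : ∀ (j : ℕ) (B : Finset ℤ), (∀ c ∈ B, ((c, (j : ℤ)) : ℤ × ℤ) ∈ S) →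
      (B.card : ℤ) ≤ if j < m then (n : ℤ) * (m - j) + ε j else if j = m then (r : ℤ) else 0)
    (h0 : 0 < m → ε 0 ≤ 0) (h1 : ∀ j < m, ε j ≤ 1) (h2 : ∀ j, j + 1 < m → ε (j + 1) = 1 → ε j ≤ -1)
    (h3 : r ≤ m) (h4 : ∀ k : ℕ, m < k + r → k ≤ m → (k < m → ε k ≤ 0) ∧
      ∃ j : ℕ, j < k ∧ ε j ≤ (j : ℤ) - k) : Emp (fun _ : Fin n => m) S := by
  classical
  have hn' : (1 : ℤ) ≤ n := by exact_mod_cast hn
  obtain ⟨ρ, hρ⟩ : ∃ ρ : ℕ → ℤ, ρ = fun j => if j < m then (n : ℤ) * (m - j) + ε j else
    if j = m then (r : ℤ) else 0 := ⟨_, rfl⟩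
  -- the sheared triangle
  have hC : Emp (fun _ : Fin n => m)
      {p : ℤ × ℤ | 0 ≤ p.2 ∧ ((n : ℤ) - 1) * p.2 ≤ p.1 ∧ p.1 + p.2 < (n : ℤ) * m} := by
    refine Pool.Agent.TH864.SX.Emp_of_rows (fun p hp => hp.1) ?_
    intro j B hB
    simp only [sum_const, card_univ, Fintype.card_fin, smul_eq_mul]
    have hsub : B ⊆ Ico (((n : ℤ) - 1) * j) ((n : ℤ) * m - j) := by
      intro c hc
      obtain ⟨-, g2, g3⟩ := hB c hc
      simp only at g2 g3
      rw [mem_Ico]
      omega
    have h5 := card_le_card hsub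
    rw [Int.card_Ico] at h5
    have e : (n : ℤ) * m - j - ((n : ℤ) - 1) * j = n * (m - j) := by ring
    rw [e] at h5
    refine h5.trans ?_
    rcases le_total j m with h6 | h6
    · have e2 : ((m - j : ℕ) : ℤ) = m - j := by omega
      rw [← e2]
      exact_mod_cast le_rfl
    · have : (n : ℤ) * (m - j) ≤ 0 := mul_nonpos_of_nonneg_of_nonpos (by omega) (by omega)
      omega
  have hD : Emp (fun _ : Fin n => m) {p : ℤ × ℤ | 0 ≤ p.2 ∧ ((n : ℤ) - 1) * p.2 ≤ p.1 ∧
      p.1 < ((n : ℤ) - 1) * p.2 + ρ p.2.toNat} := by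
    refine Emp_flat0 ?_ hC
    intro a B hB k hk
    have hB2 : ∀ b ∈ B, ∃ j : ℕ, b = j ∧ ((n : ℤ) - 1) * j ≤ a ∧ a < ((n : ℤ) - 1) * j + ρ j ∧
        j ≤ m := by
      intro b hb
      obtain ⟨g1, g2, g3⟩ := hB b hb
      simp only at g1 g2 g3
      obtain ⟨j, rfl⟩ := Int.eq_ofNat_of_zero_le g1
      simp only [Int.toNat_natCast] at g3
      refine ⟨j, rfl, g2, g3, ?_⟩
      by_contra hcon
      have : ρ j = 0 := by
        rw [hρ]
        simp only
        rw [if_neg (by omega), if_neg (by omega)]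
      omega
    have hB3 : ∀ b ∈ B, b < m → ∃ j : ℕ, b = j ∧ j < m ∧ (j : ℤ) - ε j < n * m - a := by
      intro b hb hbm
      obtain ⟨j, hj, g2, g3, -⟩ := hB2 b hb
      have hjm : j < m := by omega
      refine ⟨j, hj, hjm, ?_⟩
      rw [hρ] at g3
      simp only at g3
      rw [if_pos hjm] at g3
      nlinarith
    have hB4 : (m : ℤ) ∈ B → (m : ℤ) - r < n * m - a := by
      intro hb
      obtain ⟨j, hj, g2, g3, -⟩ := hB2 _ hb
      have hjm : j = m := by omega
      subst hjm
      rw [hρ] at g3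
      simp only [lt_irrefl, if_false, if_true] at g3
      nlinarith
    have hne : B.Nonempty := card_pos.1 (by omega)
    obtain ⟨jm, hjm1, hjm2, -, hjm4⟩ := hB2 _ (B.max'_mem hne)
    have hsub : B ⊆ Icc (0 : ℤ) (jm : ℤ) := by
      intro b hb
      rw [mem_Icc]
      obtain ⟨j, hj, -⟩ := hB2 b hb
      exact ⟨by omega, hjm1 ▸ B.le_max' b hb⟩
    have hkjm : k ≤ jm := by
      have h5 := card_le_card hsub
      rw [Int.card_Icc] at h5
      omega
    refine ⟨by simp, ?_, ?_⟩
    · simp only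
      have : ((n : ℤ) - 1) * k ≤ ((n : ℤ) - 1) * jm := mul_le_mul_of_nonneg_left (by omega) (by omega)
      omega
    · simp only
      obtain ⟨K, hK⟩ : ∃ K : ℤ, K = n * m - a := ⟨_, rfl⟩
      rw [← hK] at hB3 hB4
      suffices h : (B.card : ℤ) ≤ K by omega
      -- every element below `m` is at most `K`
      have hle : ∀ b ∈ B, b < m → b ≤ K ∧ (b = K → 1 ≤ b) := by
        intro b hb hbm
        obtain ⟨j, hj, hjm, hjK⟩ := hB3 b hb hbm
        have := h1 j hjm
        refine ⟨by omega, fun hbK => ?_⟩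
        by_contra hcon
        have hj0 : j = 0 := by omega
        subst hj0
        have := h0 (by omega)
        omega
      have hK0 : 0 ≤ K := by
        by_contra hcon
        obtain ⟨j, hj, -, -, hj4⟩ := hB2 _ (B.max'_mem hne)
        rcases hj4.lt_or_eq with h | h
        · have := hle _ (B.max'_mem hne) (by omega)
          omega
        · have h5 : (m : ℤ) ∈ B := by
            have := B.max'_mem hne
            rw [hj, h] at this
            exact this
          have := hB4 h5
          omega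
      have hnn : ∀ b ∈ B, 0 ≤ b ∧ b ≤ m := by
        intro b hb
        obtain ⟨j, hj, -, -, hj4⟩ := hB2 b hb
        omega
      by_cases hmB : (m : ℤ) ∈ B
      · have h5 := hB4 hmB
        rcases lt_or_ge (m : ℤ) K with h6 | h6
        · have h7 : B ⊆ Icc 0 (m : ℤ) := by
            intro b hb
            rw [mem_Icc]
            exact hnn b hb
          have h8 := card_le_card h7
          rw [Int.card_Icc] at h8
          omega
        · obtain ⟨k', hk'⟩ := Int.eq_ofNat_of_zero_le hK0
          obtain ⟨h10, j0, hj0, h11⟩ := h4 k' (by omega) (by omega)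
          have h7 : B ⊆ insert (m : ℤ) ((Ico 0 K).erase (j0 : ℤ)) := by
            intro b hb
            rw [mem_insert, mem_erase, mem_Ico]
            rcases (hnn b hb).2.lt_or_eq with h8 | h8
            · right
              obtain ⟨j, hj, hjm, hjK⟩ := hB3 b hb h8
              have h9 := (hle b hb h8).1
              refine ⟨?_, (hnn b hb).1, ?_⟩
              · intro hbj
                have : j = j0 := by omega
                subst this
                omega
              · by_contra hcon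
                have : j = k' := by omega
                subst this
                have := h10 hjm
                omega
            · exact Or.inl h8
          have h8 := card_le_card h7
          have h9 := card_insert_le (m : ℤ) ((Ico 0 K).erase (j0 : ℤ))
          have h12 : ((Ico 0 K).erase (j0 : ℤ)).card + 1 = (Ico 0 K).card :=
            card_erase_add_one (by rw [mem_Ico]; omega)
          rw [Int.card_Ico] at h12
          omega
      · have hlt : ∀ b ∈ B, b < m := fun b hb =>
          lt_of_le_of_ne (hnn b hb).2 (fun h => hmB (h ▸ hb))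
        by_cases hKB : K ∈ B
        · have h7 : B ⊆ insert K (Icc 0 (K - 2)) := by
            intro b hb
            rw [mem_insert, mem_Icc]
            by_cases hbK : b = K
            · exact Or.inl hbK
            · right
              refine ⟨(hnn b hb).1, ?_⟩
              have h9 := (hle b hb (hlt b hb)).1
              by_contra hcon
              have hb1 : b = K - 1 := by omega
              obtain ⟨j, hj, hjm, hjK⟩ := hB3 b hb (hlt b hb)
              obtain ⟨i, hi, him, hiK⟩ := hB3 K hKB (hlt K hKB)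
              have hij : i = j + 1 := by omega
              subst hij
              have h10 := h1 (j + 1) him
              have h11 := h2 j him (by omega)
              omega
          have h8 := card_le_card h7
          have h9 := card_insert_le K (Icc 0 (K - 2))
          rw [Int.card_Icc] at h9
          have h10 := (hle K hKB (hlt K hKB)).2 rfl
          omega
        · have h7 : B ⊆ Icc 0 (K - 1) := by
            intro b hb
            rw [mem_Icc]
            have h9 := (hle b hb (hlt b hb)).1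
            refine ⟨(hnn b hb).1, ?_⟩
            have : b ≠ K := fun h => hKB (h ▸ hb)
            omega
          have h8 := card_le_card h7
          rw [Int.card_Icc] at h8
          omega
  have hE : Emp (fun _ : Fin n => m) {p : ℤ × ℤ | 0 ≤ p.2 ∧ 0 ≤ p.1 ∧ p.1 < ρ p.2.toNat} := by
    refine hD.comap 1 ((n : ℤ) - 1) 0 1 0 0 (by norm_num) ?_
    rintro ⟨p, y⟩ ⟨g1, g2, g3⟩
    simp only at g1 g2 g3
    refine ⟨by simp only; omega, by simp only; linarith, ?_⟩
    simp only
    have e : (0 * p + 1 * y + 0).toNat = y.toNat := by congr 1; ring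
    rw [e]
    linarith
  have hF : Emp (fun _ : Fin n => m) {p : ℤ × ℤ | 0 ≤ p.1 ∧ 0 ≤ p.2 ∧ p.2 < ρ p.1.toNat} := by
    refine hE.comap 0 1 1 0 0 0 (by norm_num) ?_
    rintro ⟨a, b⟩ ⟨g1, g2, g3⟩
    simp only at g1 g2 g3
    have e : ((0 * a + 1 * b + 0, 1 * a + 0 * b + 0) : ℤ × ℤ) = (b, a) := by
      ext <;> simp
    simp only
    rw [e]
    exact ⟨g1, g2, g3⟩
  have hG : Emp (fun _ : Fin n => m) {p : ℤ × ℤ | ((p.2, p.1) : ℤ × ℤ) ∈ S} := by
    refine Emp_flat0 ?_ hF
    intro j B hBm k hk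
    have hj : 0 ≤ j := by
      obtain ⟨b, hb⟩ := card_pos.1 (show 0 < B.card by omega)
      exact hpos _ (hBm b hb)
    obtain ⟨j', rfl⟩ := Int.eq_ofNat_of_zero_le hj
    have h5 := hcard j' B hBm
    refine ⟨by simp, by simp, ?_⟩
    simp only [Int.toNat_natCast]
    rw [hρ]
    simp only
    omega
  refine hG.comap 0 1 1 0 0 0 (by norm_num) ?_
  rintro ⟨a, b⟩ hab
  simpa using hab

end Pool.Agent.H209.SW
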