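import Pool.Agent.H209.SW.Rows2
import Pool.Agent.H209.SW.Srt

set_option autoImplicit false

/-! Independence with compensation, and the check of the numerical condition. -/

namespace Pool.Agent.H209.SW

open Finset Pool.Agent.TH176.Nag Pool.Agent.TH603.Sur Pool.Agent.TH603.Cut Pool.Agent.TH641.NW

/-- independence -/
theorem Sur_main2 {s : ℝ} {n m d : ℕ} (hn : s * s = n) (hs : 3 < s) (hs6 : s ≤ 6)
    (hκ : s ≤ 3 * (s * d - n * m)) (hN : NumS2 s (s * d - n * m)) :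
    Sur (fun _ : Fin n => m) (T9 s d) := by
  classical
  have hn1 : 1 ≤ n := by
    by_contra hcon
    have h0 : n = 0 := by omega
    rw [h0] at hn
    push_cast at hn
    nlinarith
  obtain ⟨ε, hε⟩ : ∃ ε : ℕ → ℤ, ε = fun j => if j < m then eps s (s * d - n * m) (ll s d j) else 1 :=
    ⟨_, rfl⟩
  refine Sur_slabs (S' := {p : ℤ × ℤ | 0 ≤ p.2 ∧ p.2 ≤ m ∧ 0 ≤ p.1 ∧
    p.1 < (n : ℤ) * (m - p.2) + ε p.2.toNat}) 1 0 1 0 (by norm_num) ?_ ?_
  · rintro ⟨p, g⟩ ⟨g1, g2, g3, g4⟩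
    simp only at g1 g2 g3 g4
    refine ⟨g3, g1, ?_⟩
    simp only
    obtain ⟨g, rfl⟩ := Int.eq_ofNat_of_zero_le g1
    simp only [Int.toNat_natCast] at g4
    have hgm : g ≤ m := by exact_mod_cast g2
    have hκ0 : 0 ≤ s * d - n * m := by linarith
    rcases hgm.lt_or_eq with h | h
    · obtain ⟨C, hC1, hC2⟩ := rowS2 hn hs hs6 hκ0 h
      refine ⟨C, ?_, hC2⟩
      rw [hε] at g4
      simp only at g4
      rw [if_pos h] at g4
      linarith
    · obtain ⟨c, hc⟩ := rowS_top hn hs hκ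
      refine ⟨{c}, ?_, ?_⟩
      · rw [hε] at g4
        simp only at g4
        rw [if_neg (by omega), h, sub_self, mul_zero] at g4
        rw [card_singleton]
        push_cast
        omega
      · intro c' hc'
        rw [mem_singleton] at hc'
        rw [hc', h]
        exact hc
  · refine Sur_srt hn1 (ε := ε) ?_ ?_
    · intro j hj p hp hp2
      exact ⟨by simp, by simp only; omega, hp, by simpa using hp2⟩
    · intro j hj
      rw [hε]
      simp only [if_pos hj]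
      rcases hN _ (ll_nonneg s d j) (ll_lt s d j) with h | ⟨h, h'⟩
      · exact Or.inl h
      · right
        refine ⟨h, ?_⟩
        split_ifs with h5
        · obtain ⟨k, hk⟩ := ll_succ s d j
          rw [hk]
          refine h' k ?_ ?_
          · rw [← hk]; exact ll_nonneg s d (j + 1)
          · rw [← hk]; exact ll_lt s d (j + 1)
        · exact le_rfl

theorem fl_ge {a b : ℤ} {x : ℝ} (hb : 0 < b) (h : (a : ℝ) ≤ b * x) : a / b ≤ ⌊x⌋ := by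
  rw [Int.le_floor]
  have hbR : (0 : ℝ) < b := by exact_mod_cast hb
  have h1 : b * (a / b) ≤ a := Int.mul_ediv_self_le hb.ne'
  have h2 : (b : ℝ) * ((a / b : ℤ) : ℝ) ≤ a := by exact_mod_cast h1
  exact le_of_mul_le_mul_left (by linarith) hbR

theorem fl_le {a b : ℤ} {x : ℝ} (hb : 0 < b) (h : (b : ℝ) * x ≤ a) : ⌊x⌋ ≤ a / b := by
  have hbR : (0 : ℝ) < b := by exact_mod_cast hb
  apply Int.le_ediv_of_mul_le hb
  have h1 : ((⌊x⌋ : ℤ) : ℝ) * b ≤ x * b := mul_le_mul_of_nonneg_right (Int.floor_le x) hbR.le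
  have h2 : ((⌊x⌋ * b : ℤ) : ℝ) ≤ a := by push_cast; linarith
  exact_mod_cast h2

theorem ce_le {a b : ℤ} {x : ℝ} (hb : 0 < b) (h : (b : ℝ) * x ≤ a) : ⌈x⌉ ≤ -((-a) / b) := by
  have h1 := fl_ge (a := -a) (x := -x) hb (by push_cast; linarith)
  rw [Int.floor_neg] at h1
  omega

theorem ce_ge {a b : ℤ} {x : ℝ} (hb : 0 < b) (h : (a : ℝ) ≤ b * x) : -((-a) / b) ≤ ⌈x⌉ := by
  have h1 := fl_le (a := -a) (x := -x) hb (by push_cast; linarith)
  rw [Int.floor_neg] at h1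
  omega

/-- a lower bound for `eps` on an interval -/
def eLo (N S1 S2 T A B : ℤ) : ℤ :=
  min ((T + 3 * A) / N + 1 - -((-(S2 * B)) / (N * N)))
    ((T + 3 * A) / N + ((S1 + 3 * N) * A) / (N * N) + 11 - -((-(S2 * B)) / (N * N)) -
      -((-(S2 * (B + 3 * N))) / (N * N)))

theorem eLo_le {N S1 S2 T A B : ℤ} {s κ l : ℝ} (hN : 0 < N) (hs : 0 < s) (hl : 0 ≤ l)
    (h1 : (S1 : ℝ) ≤ N * s) (h2 : (N : ℝ) * s ≤ S2) (hT : (T : ℝ) ≤ N * κ)
    (hA0 : 0 ≤ A) (hA : (A : ℝ) ≤ N * l) (hB : (N : ℝ) * l ≤ B) :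
    eLo N S1 S2 T A B ≤ eps s κ l := by
  have hNR : (0 : ℝ) < N := by exact_mod_cast hN
  have hA0R : (0 : ℝ) ≤ A := by exact_mod_cast hA0
  have hNl : 0 ≤ (N : ℝ) * l := by positivity
  have hNs : 0 < (N : ℝ) * s := by positivity
  have hN2 : 0 < N * N := by positivity
  have f1 : (T + 3 * A) / N ≤ ⌊κ + 3 * l⌋ := fl_ge hN (by push_cast; linarith)
  have m1 : (N * s) * (N * l) ≤ (S2 : ℝ) * B := mul_le_mul h2 hB hNl (by linarith)
  have p1 : ⌈s * l⌉ ≤ -((-(S2 * B)) / (N * N)) := ce_le hN2 (by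
    push_cast
    linarith)
  have m2 : ((S1 : ℝ) + 3 * N) * A ≤ (N * s + 3 * N) * (N * l) :=
    mul_le_mul (by linarith) hA hA0R (by positivity)
  have q1 : ((S1 + 3 * N) * A) / (N * N) ≤ ⌊(s + 3) * l⌋ := fl_ge hN2 (by
    push_cast
    linarith)
  have m3 : (N * s) * (N * l + 3 * N) ≤ (S2 : ℝ) * (B + 3 * N) :=
    mul_le_mul h2 (by linarith) (by positivity) (by linarith)
  have w1 : ⌈s * (l + 3)⌉ ≤ -((-(S2 * (B + 3 * N))) / (N * N)) := ce_le hN2 (by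
    push_cast
    linarith)
  unfold eLo eps
  apply min_le_min
  · omega
  · omega

/-- an upper bound for `eps` on an interval -/
def eUp (N S1 S2 T A B : ℤ) : ℤ :=
  min ((T + 3 * B) / N + 1 - -((-(S1 * A)) / (N * N)))
    ((T + 3 * B) / N + ((S2 + 3 * N) * B) / (N * N) + 11 - -((-(S1 * A)) / (N * N)) -
      -((-(S1 * (A + 3 * N))) / (N * N)))

theorem le_eUp {N S1 S2 T A B : ℤ} {s κ l : ℝ} (hN : 0 < N) (hS1 : 0 ≤ S1) (hs : 0 < s) (hl : 0 ≤ l)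
    (h1 : (S1 : ℝ) ≤ N * s) (h2 : (N : ℝ) * s ≤ S2) (hT : (N : ℝ) * κ ≤ T)
    (hA0 : 0 ≤ A) (hA : (A : ℝ) ≤ N * l) (hB : (N : ℝ) * l ≤ B) :
    eps s κ l ≤ eUp N S1 S2 T A B := by
  have hNR : (0 : ℝ) < N := by exact_mod_cast hN
  have hS1R : (0 : ℝ) ≤ S1 := by exact_mod_cast hS1
  have hA0R : (0 : ℝ) ≤ A := by exact_mod_cast hA0
  have hNl : 0 ≤ (N : ℝ) * l := by positivity
  have hNs : 0 < (N : ℝ) * s := by positivity
  have hN2 : 0 < N * N := by positivity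
  have f1 : ⌊κ + 3 * l⌋ ≤ (T + 3 * B) / N := fl_le hN (by push_cast; linarith)
  have m1 : (S1 : ℝ) * A ≤ (N * s) * (N * l) := mul_le_mul h1 hA hA0R hNs.le
  have p1 : -((-(S1 * A)) / (N * N)) ≤ ⌈s * l⌉ := ce_ge hN2 (by
    push_cast
    linarith)
  have m2 : (N * s + 3 * N) * (N * l) ≤ ((S2 : ℝ) + 3 * N) * B :=
    mul_le_mul (by linarith) hB hNl (by linarith)
  have q1 : ⌊(s + 3) * l⌋ ≤ ((S2 + 3 * N) * B) / (N * N) := fl_le hN2 (by
    push_cast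
    linarith)
  have m3 : (S1 : ℝ) * (A + 3 * N) ≤ (N * s) * (N * l + 3 * N) :=
    mul_le_mul h1 (by linarith) (by positivity) hNs.le
  have w1 : -((-(S1 * (A + 3 * N))) / (N * N)) ≤ ⌈s * (l + 3)⌉ := ce_ge hN2 (by
    push_cast
    linarith)
  unfold eUp eps
  apply min_le_min
  · omega
  · omega

/-- the neighbouring interval -/
def nbS (N S1 S2 T A B k : ℤ) : Bool :=
  decide (min (3 * N) (B - S1 + 3 * k * N) < max 0 (A - S2 + 3 * k * N)) ||
    decide (1 ≤ eLo N S1 S2 T (max 0 (A - S2 + 3 * k * N)) (min (3 * N) (B - S1 + 3 * k * N)))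

/-- the check of one interval -/
def cellS (N S1 S2 T A B : ℤ) : Bool :=
  decide (A ≤ B) && (decide (0 ≤ eLo N S1 S2 T A B) ||
    (decide (-1 ≤ eLo N S1 S2 T A B) && nbS N S1 S2 T A B 1 && nbS N S1 S2 T A B 2))

/-- the check of all the intervals -/
def chkS (N S1 S2 T : ℤ) : ℤ → List ℤ → Bool
  | A, [] => decide (3 * N ≤ A)
  | A, B :: L => cellS N S1 S2 T A B && chkS N S1 S2 T B L

theorem nbS_sound {N S1 S2 T A B k : ℤ} {s κ l : ℝ} (hN : 0 < N) (hs : 0 < s)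
    (h1 : (S1 : ℝ) ≤ N * s) (h2 : (N : ℝ) * s ≤ S2) (hT : (T : ℝ) ≤ N * κ)
    (hA : (A : ℝ) ≤ N * l) (hB : (N : ℝ) * l ≤ B) (h : nbS N S1 S2 T A B k = true)
    (hk0 : 0 ≤ l - s + 3 * k) (hk3 : l - s + 3 * k < 3) : 1 ≤ eps s κ (l - s + 3 * k) := by
  have hNR : (0 : ℝ) < N := by exact_mod_cast hN
  have e : (N : ℝ) * (l - s + 3 * k) = N * l - N * s + 3 * k * N := by ring
  have hl0 : 0 ≤ (N : ℝ) * (l - s + 3 * k) := by positivity
  have hl3 : (N : ℝ) * (l - s + 3 * k) ≤ N * 3 := mul_le_mul_of_nonneg_left hk3.le hNR.le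
  have a1 : ((max 0 (A - S2 + 3 * k * N) : ℤ) : ℝ) ≤ N * (l - s + 3 * k) := by
    rw [Int.cast_max]
    apply max_le
    · push_cast; exact hl0
    · push_cast; rw [e]; linarith
  have b1 : (N : ℝ) * (l - s + 3 * k) ≤ ((min (3 * N) (B - S1 + 3 * k * N) : ℤ) : ℝ) := by
    rw [Int.cast_min]
    apply le_min
    · push_cast; linarith
    · push_cast; rw [e]; linarith
  unfold nbS at h
  rw [Bool.or_eq_true, decide_eq_true_eq, decide_eq_true_eq] at h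
  rcases h with h | h
  · exfalso
    have h3 : ((min (3 * N) (B - S1 + 3 * k * N) : ℤ) : ℝ) < ((max 0 (A - S2 + 3 * k * N) : ℤ) : ℝ) := by
      exact_mod_cast h
    linarith
  · exact h.trans (eLo_le hN hs hk0 h1 h2 hT (le_max_left _ _) a1 b1)

theorem cellS_sound {N S1 S2 T A B : ℤ} {s κ l : ℝ} (hN : 0 < N) (hs : 3 < s) (hs6 : s ≤ 6)
    (h1 : (S1 : ℝ) ≤ N * s) (h2 : (N : ℝ) * s ≤ S2) (hT : (T : ℝ) ≤ N * κ) (hl0 : 0 ≤ l) (hl3 : l < 3)
    (hA0 : 0 ≤ A)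
    (hA : (A : ℝ) ≤ N * l) (hB : (N : ℝ) * l ≤ B) (h : cellS N S1 S2 T A B = true) :
    0 ≤ eps s κ l ∨ (-1 ≤ eps s κ l ∧ ∀ k : ℤ, 0 ≤ l - s + 3 * k → l - s + 3 * k < 3 →
      1 ≤ eps s κ (l - s + 3 * k)) := by
  have hs0 : 0 < s := by linarith
  have h5 := eLo_le hN hs0 hl0 h1 h2 hT hA0 hA hB
  unfold cellS at h
  simp only [Bool.and_eq_true, Bool.or_eq_true, decide_eq_true_eq] at h
  obtain ⟨-, h | ⟨⟨h, g1⟩, g2⟩⟩ := h
  · exact Or.inl (h.trans h5)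
  · right
    refine ⟨h.trans h5, fun k hk0 hk3 => ?_⟩
    have k1 : 0 < k := by
      have : (0 : ℝ) < k := by linarith
      exact_mod_cast this
    have k2 : k < 3 := by
      have : (k : ℝ) < 3 := by linarith
      exact_mod_cast this
    have k3 : k = 1 ∨ k = 2 := by omega
    rcases k3 with rfl | rfl
    · exact nbS_sound hN hs0 h1 h2 hT hA hB g1 hk0 hk3
    · exact nbS_sound hN hs0 h1 h2 hT hA hB g2 hk0 hk3

theorem chkS_sound {N S1 S2 T : ℤ} {s κ l : ℝ} (hN : 0 < N) (hs : 3 < s) (hs6 : s ≤ 6)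
    (h1 : (S1 : ℝ) ≤ N * s) (h2 : (N : ℝ) * s ≤ S2) (hT : (T : ℝ) ≤ N * κ) (hl0 : 0 ≤ l) (hl3 : l < 3) :
    ∀ (L : List ℤ) (A : ℤ), 0 ≤ A → (A : ℝ) ≤ N * l → chkS N S1 S2 T A L = true →
    0 ≤ eps s κ l ∨ (-1 ≤ eps s κ l ∧ ∀ k : ℤ, 0 ≤ l - s + 3 * k → l - s + 3 * k < 3 →
      1 ≤ eps s κ (l - s + 3 * k)) := by
  intro L
  induction L with
  | nil =>
    intro A _ hA h
    exfalso
    unfold chkS at h
    rw [decide_eq_true_eq] at h
    have h3 : (3 * N : ℝ) ≤ A := by exact_mod_cast h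
    have hNR : (0 : ℝ) < N := by exact_mod_cast hN
    have : (N : ℝ) * l < N * 3 := mul_lt_mul_of_pos_left hl3 hNR
    linarith
  | cons B L ih =>
    intro A hA0 hA h
    unfold chkS at h
    rw [Bool.and_eq_true] at h
    rcases le_or_gt ((N : ℝ) * l) B with hB | hB
    · exact cellS_sound hN hs hs6 h1 h2 hT hl0 hl3 hA0 hA hB h.1
    · have h4 := h.1
      unfold cellS at h4
      simp only [Bool.and_eq_true, decide_eq_true_eq] at h4
      exact ih B (hA0.trans h4.1) hB.le h.2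

theorem numS2_of {N S1 S2 T : ℤ} {s κ : ℝ} (hN : 0 < N) (hs : 3 < s) (hs6 : s ≤ 6)
    (h1 : (S1 : ℝ) ≤ N * s) (h2 : (N : ℝ) * s ≤ S2) (hT : (T : ℝ) ≤ N * κ) (L : List ℤ)
    (h : chkS N S1 S2 T 0 L = true) : NumS2 s κ := by
  intro l hl0 hl3
  have hNR : (0 : ℝ) < N := by exact_mod_cast hN
  exact chkS_sound hN hs hs6 h1 h2 hT hl0 hl3 L 0 le_rfl (by push_cast; positivity) h

end Pool.Agent.H209.SW
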