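import Pool.Agent.H209.SW.Main2

set_option autoImplicit false

/-! Emptiness with compensation, and the check of the numerical conditions. -/

namespace Pool.Agent.H209.SW

open Finset Pool.Agent.TH176.Nag Pool.Agent.TH603.Sur Pool.Agent.TH603.Cut Pool.Agent.TH641.NW

/-- the upper bound of a row -/
theorem rowE2 {s : ℝ} {n m g d : ℕ} (hn : s * s = n) (hs : 3 < s) (hκ : 0 ≤ s * d - n * m)
    (hg : g < m) (B : Finset ℤ)
    (hB : ∀ c ∈ B, ((c, (g : ℤ)) : ℤ × ℤ) ∈ Row s d) :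
    (B.card : ℤ) ≤ (n : ℤ) * (m - g) + eps s (s * d - n * m) (ll s d g) := by
  classical
  obtain ⟨z, c0, hz, hL, hR, hL1, hX⟩ := row_data' (m := m) (g := g) (d := d) hn
  have hl0 := ll_nonneg s d g
  have hl3 := ll_lt s d g
  obtain ⟨l, hl⟩ : ∃ l : ℝ, l = ll s d g := ⟨_, rfl⟩
  rw [← hl] at hz hL hR hL1 hX hl0 hl3 ⊢
  have hgm : (g : ℝ) + 1 ≤ m := by exact_mod_cast hg
  have hs0 : 0 < s := by linarith
  have hdm : s * m ≤ d := by
    have h1 : s * (s * m) ≤ s * d := by rw [← mul_assoc, hn]; linarith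
    exact le_of_mul_le_mul_left h1 hs0
  have hdg : s ≤ (d : ℝ) - s * g := by
    have : s * (g + 1) ≤ s * m := mul_le_mul_of_nonneg_left hgm hs0.le
    linarith
  have hz1 : 1 ≤ z := by
    have : (0 : ℝ) < z := by linarith
    have : (0 : ℤ) < z := by exact_mod_cast this
    omega
  obtain ⟨L, hLd⟩ : ∃ L : ℝ, L = (s - 3) * ((d : ℝ) - 3 * z) := ⟨_, rfl⟩
  obtain ⟨R, hRd⟩ : ∃ R : ℝ, R = s * ((d : ℝ) - 3 * (z + g)) := ⟨_, rfl⟩
  obtain ⟨L1, hL1d⟩ : ∃ L1 : ℝ, L1 = (s - 3) * ((d : ℝ) - 3 * (z - 1)) := ⟨_, rfl⟩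
  obtain ⟨X, hXd⟩ : ∃ X : ℝ, X = s * ((d : ℝ) - 3 * g) := ⟨_, rfl⟩
  rw [← hLd] at hL
  rw [← hRd] at hR
  rw [← hL1d] at hL1
  rw [← hXd] at hX
  have hs2 : (0 : ℝ) < s - 3 := by linarith
  -- membership
  have hmem : ∀ c ∈ B, (L ≤ c ∧ (c : ℝ) ≤ R) ∨ (L1 ≤ c ∧ (c : ℝ) ≤ X) := by
    intro c hc
    obtain ⟨-, y, hy0, hy1, hy2⟩ := hB c hc
    simp only [Int.cast_natCast] at hy1 hy2
    have hyz : y ≤ z := by
      have h1 : 3 * (s * g) ≤ 3 * ((d : ℝ) - 3 * y) := by nlinarith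
      have h2 : (y : ℝ) < z + 1 := by linarith
      have h3 : y < z + 1 := by exact_mod_cast h2
      omega
    have hy0R : (0 : ℝ) ≤ y := by exact_mod_cast hy0
    rcases hyz.lt_or_eq with h1 | h1
    · right
      have h2 : (y : ℝ) ≤ z - 1 := by
        have : y ≤ z - 1 := by omega
        exact_mod_cast this
      constructor
      · rw [hL1d]
        have : (s - 3) * ((d : ℝ) - 3 * (z - 1)) ≤ (s - 3) * ((d : ℝ) - 3 * y) :=
          mul_le_mul_of_nonneg_left (by linarith) hs2.le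
        linarith
      · rw [hXd]
        have : s * ((d : ℝ) - 3 * (y + g)) ≤ s * ((d : ℝ) - 3 * g) :=
          mul_le_mul_of_nonneg_left (by linarith) hs0.le
        linarith
    · left
      subst h1
      exact ⟨by rw [hLd]; exact hy1, by rw [hRd]; exact hy2⟩
  have hLL1 : L ≤ L1 := by rw [hL, hL1]; nlinarith
  have hRX : R ≤ X := by
    rw [hRd, hXd]
    have hz1R : (1 : ℝ) ≤ z := by exact_mod_cast hz1
    exact mul_le_mul_of_nonneg_left (by linarith) hs0.le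
  have hLR : L ≤ R := by rw [hL, hR]; nlinarith
  have hnm : s * s ≤ (n : ℝ) * (m - g) := by
    rw [hn]
    have hn0 : (0 : ℝ) ≤ n := Nat.cast_nonneg n
    nlinarith
  have hL1X : L1 ≤ X := by
    rw [hL1, hX]
    have h1 : (s - 3) * l ≤ (s - 3) * 3 := mul_le_mul_of_nonneg_left hl3.le hs2.le
    nlinarith [sq_nonneg (s - 3)]
  -- the two bounds
  have b0 : (B.card : ℤ) ≤ ⌊X⌋ + 1 - ⌈L⌉ := by
    have hsub : B ⊆ Icc ⌈L⌉ ⌊X⌋ := by
      intro c hc
      rw [mem_Icc, Int.ceil_le, Int.le_floor]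
      rcases hmem c hc with h1 | h1
      · exact ⟨h1.1, by linarith [h1.2]⟩
      · exact ⟨by linarith [h1.1], h1.2⟩
    have h1 := card_le_card hsub
    rw [Int.card_Icc] at h1
    have h2 := ceil_le_floor (show L ≤ X by linarith)
    omega
  have b1 : (B.card : ℤ) ≤ (⌊R⌋ + 1 - ⌈L⌉) + (⌊X⌋ + 1 - ⌈L1⌉) := by
    have hsub : B ⊆ Icc ⌈L⌉ ⌊R⌋ ∪ Icc ⌈L1⌉ ⌊X⌋ := by
      intro c hc
      rw [mem_union, mem_Icc, mem_Icc, Int.ceil_le, Int.le_floor, Int.ceil_le, Int.le_floor]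
      exact hmem c hc
    have h1 := (card_le_card hsub).trans (card_union_le _ _)
    rw [Int.card_Icc, Int.card_Icc] at h1
    have h2 := ceil_le_floor hLR
    have h3 := ceil_le_floor hL1X
    omega
  have e1 : ⌈L⌉ = c0 + ⌈s * l⌉ := by rw [hL, Int.ceil_intCast_add]
  have e2 : ⌊R⌋ = c0 + ⌊(s + 3) * l⌋ := by rw [hR, Int.floor_intCast_add]
  have e3 : ⌈L1⌉ = c0 + (⌈s * (l + 3)⌉ - 9) := by
    rw [hL1, Int.ceil_intCast_add]
    congr 1
    have : s * (l + 3) - 9 = s * (l + 3) - ((9 : ℤ) : ℝ) := by push_cast; ring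
    rw [this, Int.ceil_sub_intCast]
  have e4 : ⌊X⌋ = c0 + ((n : ℤ) * (m - g) + ⌊(s * d - n * m) + 3 * l⌋) := by
    rw [hX, Int.floor_intCast_add]
    congr 1
    have : (n : ℝ) * (m - g) = (((n : ℤ) * (m - g) : ℤ) : ℝ) := by push_cast; ring
    rw [this, Int.floor_intCast_add]
  rw [e1, e4] at b0
  rw [e1, e2, e3, e4] at b1
  have h5 : (B.card : ℤ) - (n : ℤ) * (m - g) ≤ eps s (s * d - n * m) l := by
    unfold eps
    apply le_min
    · linarith
    · linarith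
  linarith

/-- the numerical condition with compensation, emptiness -/
def NumE2 (s κ : ℝ) : Prop := ∀ l : ℝ, 0 ≤ l → l < 3 →
  eps s κ l ≤ 0 ∨ (eps s κ l ≤ 1 ∧ ∀ k : ℤ, 0 ≤ l + s - 3 * k → l + s - 3 * k < 3 →
    eps s κ (l + s - 3 * k) ≤ -1)

/-- the condition for the lowest row -/
def Row0 (s κ : ℝ) : Prop := eps s κ 0 ≤ 0 ∧ eps s κ 1 ≤ 0 ∧ eps s κ 2 ≤ 0

/-- the row with the number `m - i` has at most `c` points too many -/
def EpsLe (s κ : ℝ) (i : ℕ) (c : ℤ) : Prop := ∀ k : ℤ, 0 ≤ κ / s + i * s - 3 * k →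
  κ / s + i * s - 3 * k < 3 → eps s κ (κ / s + i * s - 3 * k) ≤ c

/-- the condition for the highest rows -/
def TopOK (s κ : ℝ) : Prop := ∀ u : ℕ, 1 ≤ u → (u : ℤ) ≤ ⌊κ + 3 * (κ / s)⌋ - ⌈κ⌉ + 1 →
  u ≤ 4 ∧ (u = 1 ∨ EpsLe s κ (u - 1) 0) ∧
    (EpsLe s κ u (-1) ∨ EpsLe s κ (u + 1) (-2) ∨ EpsLe s κ (u + 2) (-3) ∨ EpsLe s κ (u + 3) (-4))

theorem eps_top {s : ℝ} {n m d i : ℕ} {c : ℤ} (hn : s * s = n) (hs : 0 < s) (hi : i ≤ m)
    (h : EpsLe s (s * d - n * m) i c) : eps s (s * d - n * m) (ll s d (m - i)) ≤ c := by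
  have e : (s * d - n * m) / s = d - s * m := by
    rw [div_eq_iff hs.ne', ← hn]; ring
  have hk := h ⌊((d : ℝ) - s * ((m - i : ℕ) : ℝ)) / 3⌋
  have e2 : (s * d - n * m) / s + i * s - 3 * ⌊((d : ℝ) - s * ((m - i : ℕ) : ℝ)) / 3⌋ =
      ll s d (m - i) := by
    rw [e]
    unfold ll
    rw [Nat.cast_sub hi]
    ring
  rw [e2] at hk
  exact hk (ll_nonneg s d _) (ll_lt s d _)

theorem eps_row0 {s κ : ℝ} {d : ℕ} (h : Row0 s κ) : eps s κ (ll s d 0) ≤ 0 := by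
  obtain ⟨h0, h1, h2⟩ := h
  have g1 := ll_nonneg s d 0
  have g2 := ll_lt s d 0
  obtain ⟨i, hi⟩ : ∃ i : ℤ, ll s d 0 = i := by
    refine ⟨(d : ℤ) - 3 * ⌊((d : ℝ) - s * ((0 : ℕ) : ℝ)) / 3⌋, ?_⟩
    unfold ll
    push_cast
    ring
  rw [hi] at g1 g2 ⊢
  have g3 : 0 ≤ i := by exact_mod_cast g1
  have g4 : i < 3 := by exact_mod_cast g2
  have g5 : i = 0 ∨ i = 1 ∨ i = 2 := by omega
  rcases g5 with rfl | rfl | rfl
  · simpa using h0
  · simpa using h1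
  · simpa using h2

/-- emptiness -/
theorem Emp_main2 {s : ℝ} {n m d : ℕ} (hn : s * s = n) (hs : 3 < s) (hm : 8 ≤ m)
    (hκ : 0 < s * d - n * m) (hκ3 : s * d - n * m < 3 * s) (hN : NumE2 s (s * d - n * m))
    (h0 : Row0 s (s * d - n * m)) (hT : TopOK s (s * d - n * m)) :
    Emp (fun _ : Fin n => m) (Row s d) := by
  classical
  have hs0 : 0 < s := by linarith
  have hn1 : 1 ≤ n := by
    by_contra hcon
    have h0 : n = 0 := by omega
    rw [h0] at hn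
    push_cast at hn
    nlinarith
  obtain ⟨κ, hκd⟩ : ∃ κ : ℝ, κ = s * d - n * m := ⟨_, rfl⟩
  obtain ⟨r, hr⟩ : ∃ r : ℕ, r = (⌊κ + 3 * (κ / s)⌋ - ⌈κ⌉ + 1).toNat := ⟨_, rfl⟩
  have hdiv : κ / s = d - s * m := by
    rw [hκd, div_eq_iff hs0.ne', ← hn]; ring
  rw [← hκd] at hκ hκ3 hN h0 hT
  have hr4 : r ≤ 4 := by
    by_contra hcon
    have := (hT r (by omega) (by omega)).1
    omega
  refine Emp_srt hn1 (ε := fun j => eps s κ (ll s d j)) (r := r) (fun p hp => hp.1) ?_ ?_ ?_ ?_ ?_ ?_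
  · intro g B hB
    rcases lt_trichotomy g m with hg | hg | hg
    · rw [if_pos hg]
      have := rowE2 hn hs (by rw [← hκd]; exact hκ.le) hg B hB
      rw [← hκd] at this
      exact this
    · subst hg
      rw [if_neg (lt_irrefl _), if_pos rfl]
      have h2 := row_top hn hs (by rw [← hκd]; exact hκ3) B hB
      rw [← hκd, ← hdiv] at h2
      have hsub : B ⊆ Icc (⌈κ⌉ + (n * g - 3 * d)) (⌊κ + 3 * (κ / s)⌋ + (n * g - 3 * d)) := by
        intro c hc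
        obtain ⟨h3, h4⟩ := h2 c hc
        have h5 := Int.ceil_le.2 h3
        have h6 := Int.le_floor.2 h4
        rw [mem_Icc]
        constructor <;> linarith
      have h3 := card_le_card hsub
      rw [Int.card_Icc] at h3
      omega
    · rw [if_neg (by omega), if_neg (by omega)]
      have : B = ∅ := by
        rw [Finset.eq_empty_iff_forall_notMem]
        intro c hc
        refine row_above hn hs ?_ hg c (hB c hc)
        rw [← hκd, ← hn]; nlinarith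
      rw [this]; simp
  · intro _
    exact eps_row0 h0
  · intro j _
    rcases hN _ (ll_nonneg s d j) (ll_lt s d j) with h | h
    · exact h.trans (by norm_num)
    · exact h.1
  · intro j _ he
    rcases hN _ (ll_nonneg s d (j + 1)) (ll_lt s d (j + 1)) with h | h
    · omega
    · obtain ⟨k, hk⟩ := ll_succ s d j
      have e : ll s d (j + 1) + s - 3 * k = ll s d j := by rw [hk]; ring
      have h5 := h.2 k
      rw [e] at h5
      exact h5 (ll_nonneg s d j) (ll_lt s d j)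
  · omega
  · intro k hk1 hk2
    obtain ⟨u, hu⟩ : ∃ u : ℕ, u = m - k + 1 := ⟨_, rfl⟩
    obtain ⟨h5, h6, h7⟩ := hT u (by omega) (by omega)
    have key : ∀ (i : ℕ) (c : ℤ), i ≤ m → EpsLe s κ i c → eps s κ (ll s d (m - i)) ≤ c := by
      intro i c hi h
      rw [hκd] at h ⊢
      exact eps_top hn hs0 hi h
    constructor
    · intro hkm
      have h8 := h6.resolve_left (by omega)
      have h9 := key (u - 1) 0 (by omega) h8
      have e : m - (u - 1) = k := by omega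
      rw [e] at h9
      exact h9
    · rcases h7 with h7 | h7 | h7 | h7
      · refine ⟨m - u, by omega, ?_⟩
        have h9 := key u (-1) (by omega) h7
        omega
      · refine ⟨m - (u + 1), by omega, ?_⟩
        have h9 := key (u + 1) (-2) (by omega) h7
        omega
      · refine ⟨m - (u + 2), by omega, ?_⟩
        have h9 := key (u + 2) (-3) (by omega) h7
        omega
      · refine ⟨m - (u + 3), by omega, ?_⟩
        have h9 := key (u + 3) (-4) (by omega) h7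
        omega

/-- the neighbouring interval -/
def nbE (N S1 S2 T A B k : ℤ) : Bool :=
  decide (min (3 * N) (B + S2 - 3 * k * N) < max 0 (A + S1 - 3 * k * N)) ||
    decide (eUp N S1 S2 T (max 0 (A + S1 - 3 * k * N)) (min (3 * N) (B + S2 - 3 * k * N)) ≤ -1)

/-- the check of one interval -/
def cellE (N S1 S2 T A B : ℤ) : Bool :=
  decide (A ≤ B) && (decide (eUp N S1 S2 T A B ≤ 0) ||
    (decide (eUp N S1 S2 T A B ≤ 1) && nbE N S1 S2 T A B 1 && nbE N S1 S2 T A B 2))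

/-- the check of all the intervals -/
def chkE (N S1 S2 T : ℤ) : ℤ → List ℤ → Bool
  | A, [] => decide (3 * N ≤ A)
  | A, B :: L => cellE N S1 S2 T A B && chkE N S1 S2 T B L

theorem nbE_sound {N S1 S2 T A B k : ℤ} {s κ l : ℝ} (hN : 0 < N) (hS1 : 0 ≤ S1) (hs : 0 < s)
    (h1 : (S1 : ℝ) ≤ N * s) (h2 : (N : ℝ) * s ≤ S2) (hT : (N : ℝ) * κ ≤ T)
    (hA : (A : ℝ) ≤ N * l) (hB : (N : ℝ) * l ≤ B) (h : nbE N S1 S2 T A B k = true)
    (hk0 : 0 ≤ l + s - 3 * k) (hk3 : l + s - 3 * k < 3) : eps s κ (l + s - 3 * k) ≤ -1 := by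
  have hNR : (0 : ℝ) < N := by exact_mod_cast hN
  have e : (N : ℝ) * (l + s - 3 * k) = N * l + N * s - 3 * k * N := by ring
  have hl0 : 0 ≤ (N : ℝ) * (l + s - 3 * k) := by positivity
  have hl3 : (N : ℝ) * (l + s - 3 * k) ≤ N * 3 := mul_le_mul_of_nonneg_left hk3.le hNR.le
  have a1 : ((max 0 (A + S1 - 3 * k * N) : ℤ) : ℝ) ≤ N * (l + s - 3 * k) := by
    rw [Int.cast_max]
    apply max_le
    · push_cast; exact hl0
    · push_cast; rw [e]; linarith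
  have b1 : (N : ℝ) * (l + s - 3 * k) ≤ ((min (3 * N) (B + S2 - 3 * k * N) : ℤ) : ℝ) := by
    rw [Int.cast_min]
    apply le_min
    · push_cast; linarith
    · push_cast; rw [e]; linarith
  unfold nbE at h
  rw [Bool.or_eq_true, decide_eq_true_eq, decide_eq_true_eq] at h
  rcases h with h | h
  · exfalso
    have h3 : ((min (3 * N) (B + S2 - 3 * k * N) : ℤ) : ℝ) < ((max 0 (A + S1 - 3 * k * N) : ℤ) : ℝ) := by
      exact_mod_cast h
    linarith
  · exact (le_eUp hN hS1 hs hk0 h1 h2 hT (le_max_left _ _) a1 b1).trans h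

theorem cellE_sound {N S1 S2 T A B : ℤ} {s κ l : ℝ} (hN : 0 < N) (hS1 : 0 ≤ S1) (hs : 3 < s)
    (hs6 : s ≤ 6)
    (h1 : (S1 : ℝ) ≤ N * s) (h2 : (N : ℝ) * s ≤ S2) (hT : (N : ℝ) * κ ≤ T) (hl0 : 0 ≤ l) (hl3 : l < 3)
    (hA0 : 0 ≤ A)
    (hA : (A : ℝ) ≤ N * l) (hB : (N : ℝ) * l ≤ B) (h : cellE N S1 S2 T A B = true) :
    eps s κ l ≤ 0 ∨ (eps s κ l ≤ 1 ∧ ∀ k : ℤ, 0 ≤ l + s - 3 * k → l + s - 3 * k < 3 →
      eps s κ (l + s - 3 * k) ≤ -1) := by
  have hs0 : 0 < s := by linarith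
  have h5 := le_eUp hN hS1 hs0 hl0 h1 h2 hT hA0 hA hB
  unfold cellE at h
  simp only [Bool.and_eq_true, Bool.or_eq_true, decide_eq_true_eq] at h
  obtain ⟨-, h | ⟨⟨h, g1⟩, g2⟩⟩ := h
  · exact Or.inl (h5.trans h)
  · right
    refine ⟨h5.trans h, fun k hk0 hk3 => ?_⟩
    have k1 : 0 < k := by
      have : (0 : ℝ) < k := by linarith
      exact_mod_cast this
    have k2 : k < 3 := by
      have : (k : ℝ) < 3 := by linarith
      exact_mod_cast this
    have k3 : k = 1 ∨ k = 2 := by omega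
    rcases k3 with rfl | rfl
    · exact nbE_sound hN hS1 hs0 h1 h2 hT hA hB g1 hk0 hk3
    · exact nbE_sound hN hS1 hs0 h1 h2 hT hA hB g2 hk0 hk3

theorem chkE_sound {N S1 S2 T : ℤ} {s κ l : ℝ} (hN : 0 < N) (hS1 : 0 ≤ S1) (hs : 3 < s) (hs6 : s ≤ 6)
    (h1 : (S1 : ℝ) ≤ N * s) (h2 : (N : ℝ) * s ≤ S2) (hT : (N : ℝ) * κ ≤ T) (hl0 : 0 ≤ l) (hl3 : l < 3) :
    ∀ (L : List ℤ) (A : ℤ), 0 ≤ A → (A : ℝ) ≤ N * l → chkE N S1 S2 T A L = true →
    eps s κ l ≤ 0 ∨ (eps s κ l ≤ 1 ∧ ∀ k : ℤ, 0 ≤ l + s - 3 * k → l + s - 3 * k < 3 →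
      eps s κ (l + s - 3 * k) ≤ -1) := by
  intro L
  induction L with
  | nil =>
    intro A _ hA h
    exfalso
    unfold chkE at h
    rw [decide_eq_true_eq] at h
    have h3 : (3 * N : ℝ) ≤ A := by exact_mod_cast h
    have hNR : (0 : ℝ) < N := by exact_mod_cast hN
    have : (N : ℝ) * l < N * 3 := mul_lt_mul_of_pos_left hl3 hNR
    linarith
  | cons B L ih =>
    intro A hA0 hA h
    unfold chkE at h
    rw [Bool.and_eq_true] at h
    rcases le_or_gt ((N : ℝ) * l) B with hB | hB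
    · exact cellE_sound hN hS1 hs hs6 h1 h2 hT hl0 hl3 hA0 hA hB h.1
    · have h4 := h.1
      unfold cellE at h4
      simp only [Bool.and_eq_true, decide_eq_true_eq] at h4
      exact ih B (hA0.trans h4.1) hB.le h.2

theorem numE2_of {N S1 S2 T : ℤ} {s κ : ℝ} (hN : 0 < N) (hS1 : 0 ≤ S1) (hs : 3 < s) (hs6 : s ≤ 6)
    (h1 : (S1 : ℝ) ≤ N * s) (h2 : (N : ℝ) * s ≤ S2) (hT : (N : ℝ) * κ ≤ T) (L : List ℤ)
    (h : chkE N S1 S2 T 0 L = true) : NumE2 s κ := by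
  intro l hl0 hl3
  have hNR : (0 : ℝ) < N := by exact_mod_cast hN
  exact chkE_sound hN hS1 hs hs6 h1 h2 hT hl0 hl3 L 0 le_rfl (by push_cast; positivity) h

theorem row0_of {N S1 S2 T : ℤ} {s κ : ℝ} (hN : 0 < N) (hS1 : 0 ≤ S1) (hs : 0 < s)
    (h1 : (S1 : ℝ) ≤ N * s) (h2 : (N : ℝ) * s ≤ S2) (hT : (N : ℝ) * κ ≤ T)
    (g0 : eUp N S1 S2 T 0 0 ≤ 0) (g1 : eUp N S1 S2 T N N ≤ 0)
    (g2 : eUp N S1 S2 T (2 * N) (2 * N) ≤ 0) : Row0 s κ := by
  refine ⟨(le_eUp hN hS1 hs le_rfl h1 h2 hT le_rfl (by simp) (by simp)).trans g0,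
    (le_eUp hN hS1 hs (by norm_num) h1 h2 hT hN.le (by simp) (by simp)).trans g1,
    (le_eUp hN hS1 hs (by norm_num) h1 h2 hT (by omega) ?_ ?_).trans g2⟩
  · push_cast; linarith
  · push_cast; linarith

/-- the bound for the row `m - i`, one translate -/
def topB (N S1 S2 U V : ℤ) (i : ℕ) (c k : ℤ) : Bool :=
  decide (min (3 * N) (-((-(V * N)) / S1) + i * S2 - 3 * k * N) <
      max 0 ((U * N) / S2 + i * S1 - 3 * k * N)) ||
    decide (eUp N S1 S2 V (max 0 ((U * N) / S2 + i * S1 - 3 * k * N))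
      (min (3 * N) (-((-(V * N)) / S1) + i * S2 - 3 * k * N)) ≤ c)

/-- the bound for the row `m - i` -/
def topI (N S1 S2 U V : ℤ) (i : ℕ) (c : ℤ) : Bool :=
  (List.range 16).all fun k => topB N S1 S2 U V i c k

/-- the condition for the `u`-th row from above -/
def topU (N S1 S2 U V : ℤ) (u : ℕ) : Bool :=
  (decide (u = 1) || topI N S1 S2 U V (u - 1) 0) &&
    (topI N S1 S2 U V u (-1) || topI N S1 S2 U V (u + 1) (-2) || topI N S1 S2 U V (u + 2) (-3) ||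
      topI N S1 S2 U V (u + 3) (-4))

/-- the check of one interval of values of `κ` -/
def cellT (N S1 S2 U V : ℤ) : Bool :=
  decide (U ≤ V) && decide ((V * (S1 + 3 * N)) / (S1 * N) - max 1 (-((-U) / N)) + 1 ≤ 4) &&
    (List.range 4).all fun u =>
      decide ((V * (S1 + 3 * N)) / (S1 * N) - max 1 (-((-U) / N)) + 1 < (u : ℤ) + 1) ||
        topU N S1 S2 U V (u + 1)

/-- the check of all the intervals -/
def chkT (N S1 S2 T : ℤ) : ℤ → List ℤ → Bool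
  | U, [] => decide (T ≤ U)
  | U, V :: L => cellT N S1 S2 U V && chkT N S1 S2 T V L

theorem topI_sound {N S1 S2 U V : ℤ} {i : ℕ} {c : ℤ} {s κ : ℝ} (hN : 0 < N) (hS1 : 0 < S1)
    (hs : 3 < s) (hs6 : s ≤ 6) (hi : i ≤ 7)
    (h1 : (S1 : ℝ) ≤ N * s) (h2 : (N : ℝ) * s ≤ S2) (hκ0 : 0 < κ) (hκ3 : κ < 3 * s) (hU0 : 0 ≤ U)
    (hU : (U : ℝ) ≤ N * κ) (hV : (N : ℝ) * κ ≤ V) (h : topI N S1 S2 U V i c = true) :
    EpsLe s κ i c := by
  intro k hk0 hk3
  have hs0 : 0 < s := by linarith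
  have hNR : (0 : ℝ) < N := by exact_mod_cast hN
  have hS1R : (0 : ℝ) < S1 := by exact_mod_cast hS1
  have hS2R : (0 : ℝ) < S2 := by linarith
  have hS2 : 0 < S2 := by exact_mod_cast hS2R
  have hU0R : (0 : ℝ) ≤ U := by exact_mod_cast hU0
  have hiR : (i : ℝ) ≤ 7 := by exact_mod_cast hi
  have hi0 : (0 : ℝ) ≤ i := Nat.cast_nonneg i
  obtain ⟨q, hq⟩ : ∃ q : ℝ, q = κ / s := ⟨_, rfl⟩
  have hqs : q * s = κ := by rw [hq, div_mul_cancel₀ _ hs0.ne']
  have hq0 : 0 < q := by rw [hq]; positivity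
  have hq3 : q < 3 := by
    rw [hq, div_lt_iff₀ hs0]; exact hκ3
  rw [← hq] at hk0 hk3 ⊢
  have his : (i : ℝ) * s ≤ 7 * 6 := mul_le_mul hiR hs6 hs0.le (by norm_num)
  have k1 : 0 ≤ k := by
    have h5 : 0 ≤ (i : ℝ) * s := by positivity
    have : (-1 : ℝ) < k := by linarith
    have : (-1 : ℤ) < k := by exact_mod_cast this
    omega
  have k2 : k < 16 := by
    have : (k : ℝ) < 16 := by linarith
    exact_mod_cast this
  obtain ⟨k', rfl⟩ := Int.eq_ofNat_of_zero_le k1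
  unfold topI at h
  rw [List.all_eq_true] at h
  have h5 := h k' (by rw [List.mem_range]; omega)
  -- the interval
  have a0 : (((U * N) / S2 : ℤ) : ℝ) ≤ N * q := by
    have h6 : (U * N) / S2 ≤ ⌊(N : ℝ) * q⌋ := fl_ge hS2 (by
      push_cast
      have h7 : (U : ℝ) * N ≤ (N * κ) * N := mul_le_mul_of_nonneg_right hU hNR.le
      have h8 : (N * κ) * N = (N * s) * (N * q) := by rw [← hqs]; ring
      have h9 : (N * s) * (N * q) ≤ (S2 : ℝ) * (N * q) := mul_le_mul_of_nonneg_right h2 (by positivity)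
      linarith)
    exact Int.le_floor.1 h6
  have b0 : (N : ℝ) * q ≤ ((-((-(V * N)) / S1) : ℤ) : ℝ) := by
    have h6 : ⌈(N : ℝ) * q⌉ ≤ -((-(V * N)) / S1) := ce_le hS1 (by
      push_cast
      have h7 : (N * κ) * N ≤ (V : ℝ) * N := mul_le_mul_of_nonneg_right hV hNR.le
      have h8 : (N * κ) * N = (N * s) * (N * q) := by rw [← hqs]; ring
      have h9 : (S1 : ℝ) * (N * q) ≤ (N * s) * (N * q) := mul_le_mul_of_nonneg_right h1 (by positivity)
      linarith)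
    exact Int.ceil_le.1 h6
  have e : (N : ℝ) * (q + i * s - 3 * (k' : ℤ)) = N * q + i * (N * s) - 3 * (k' : ℤ) * N := by ring
  have i1 : (i : ℝ) * S1 ≤ i * (N * s) := mul_le_mul_of_nonneg_left h1 hi0
  have i2 : (i : ℝ) * (N * s) ≤ i * S2 := mul_le_mul_of_nonneg_left h2 hi0
  have hl0 : 0 ≤ (N : ℝ) * (q + i * s - 3 * (k' : ℤ)) := by positivity
  have hl3 : (N : ℝ) * (q + i * s - 3 * (k' : ℤ)) ≤ N * 3 := mul_le_mul_of_nonneg_left hk3.le hNR.le
  have a1 : ((max 0 ((U * N) / S2 + i * S1 - 3 * (k' : ℤ) * N) : ℤ) : ℝ) ≤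
      N * (q + i * s - 3 * (k' : ℤ)) := by
    rw [Int.cast_max]
    apply max_le
    · rw [Int.cast_zero]; exact hl0
    · rw [e, Int.cast_sub, Int.cast_add, Int.cast_mul, Int.cast_mul, Int.cast_mul]
      rw [Int.cast_ofNat, Int.cast_natCast, Int.cast_natCast] at *
      linarith
  have b1 : (N : ℝ) * (q + i * s - 3 * (k' : ℤ)) ≤
      ((min (3 * N) (-((-(V * N)) / S1) + i * S2 - 3 * (k' : ℤ) * N) : ℤ) : ℝ) := by
    rw [Int.cast_min]
    apply le_min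
    · rw [Int.cast_mul, Int.cast_ofNat]; linarith
    · rw [e, Int.cast_sub, Int.cast_add, Int.cast_mul, Int.cast_mul, Int.cast_mul]
      rw [Int.cast_ofNat, Int.cast_natCast, Int.cast_natCast] at *
      linarith
  unfold topB at h5
  rw [Bool.or_eq_true, decide_eq_true_eq, decide_eq_true_eq] at h5
  rcases h5 with h5 | h5
  · exfalso
    have h6 : ((min (3 * N) (-((-(V * N)) / S1) + i * S2 - 3 * (k' : ℤ) * N) : ℤ) : ℝ) <
        ((max 0 ((U * N) / S2 + i * S1 - 3 * (k' : ℤ) * N) : ℤ) : ℝ) := by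
      exact_mod_cast h5
    linarith
  · exact (le_eUp hN hS1.le hs0 hk0 h1 h2 hV (le_max_left _ _) a1 b1).trans h5

theorem cellT_sound {N S1 S2 U V : ℤ} {s κ : ℝ} (hN : 0 < N) (hS1 : 0 < S1)
    (hs : 3 < s) (hs6 : s ≤ 6)
    (h1 : (S1 : ℝ) ≤ N * s) (h2 : (N : ℝ) * s ≤ S2) (hκ0 : 0 < κ) (hκ3 : κ < 3 * s) (hU0 : 0 ≤ U)
    (hU : (U : ℝ) ≤ N * κ) (hV : (N : ℝ) * κ ≤ V) (h : cellT N S1 S2 U V = true) :
    TopOK s κ := by
  intro u hu1 hu2
  have hs0 : 0 < s := by linarith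
  have hNR : (0 : ℝ) < N := by exact_mod_cast hN
  have hS1R : (0 : ℝ) < S1 := by exact_mod_cast hS1
  obtain ⟨q, hq⟩ : ∃ q : ℝ, q = κ / s := ⟨_, rfl⟩
  have hqs : q * s = κ := by rw [hq, div_mul_cancel₀ _ hs0.ne']
  have hq0 : 0 < q := by rw [hq]; positivity
  have c1 : ⌊κ + 3 * (κ / s)⌋ ≤ (V * (S1 + 3 * N)) / (S1 * N) := fl_le (mul_pos hS1 hN) (by
    rw [← hq]
    push_cast
    have h7 : (S1 : ℝ) * (N * κ) ≤ S1 * V := mul_le_mul_of_nonneg_left hV hS1R.le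
    have h8 : (S1 : ℝ) * (N * q) ≤ (N * s) * (N * q) := mul_le_mul_of_nonneg_right h1 (by positivity)
    have h9 : (N * s) * (N * q) = N * (N * κ) := by rw [← hqs]; ring
    have h10 : (N : ℝ) * (N * κ) ≤ N * V := mul_le_mul_of_nonneg_left hV hNR.le
    linarith)
  have c2 : max 1 (-((-U) / N)) ≤ ⌈κ⌉ := by
    refine max_le ?_ (ce_ge hN hU)
    have := Int.ceil_pos.2 hκ0
    omega
  unfold cellT at h
  rw [Bool.and_eq_true, Bool.and_eq_true, decide_eq_true_eq, decide_eq_true_eq, List.all_eq_true] at h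
  obtain ⟨⟨-, h4⟩, h5⟩ := h
  have hu4 : u ≤ 4 := by omega
  refine ⟨hu4, ?_⟩
  have h6 := h5 (u - 1) (by rw [List.mem_range]; omega)
  rw [Bool.or_eq_true, decide_eq_true_eq] at h6
  have e : u - 1 + 1 = u := by omega
  have h7 := h6.resolve_left (by omega)
  rw [e] at h7
  have key : ∀ (i : ℕ) (c : ℤ), i ≤ 7 → topI N S1 S2 U V i c = true → EpsLe s κ i c :=
    fun i c hi hh => topI_sound hN hS1 hs hs6 hi h1 h2 hκ0 hκ3 hU0 hU hV hh
  unfold topU at h7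
  simp only [Bool.and_eq_true, Bool.or_eq_true, decide_eq_true_eq] at h7
  obtain ⟨h8, h9⟩ := h7
  refine ⟨?_, ?_⟩
  · rcases h8 with h8 | h8
    · exact Or.inl h8
    · exact Or.inr (key _ _ (by omega) h8)
  · rcases h9 with ((h9 | h9) | h9) | h9
    · exact Or.inl (key _ _ (by omega) h9)
    · exact Or.inr (Or.inl (key _ _ (by omega) h9))
    · exact Or.inr (Or.inr (Or.inl (key _ _ (by omega) h9)))
    · exact Or.inr (Or.inr (Or.inr (key _ _ (by omega) h9)))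

theorem chkT_sound {N S1 S2 T : ℤ} {s κ : ℝ} (hN : 0 < N) (hS1 : 0 < S1)
    (hs : 3 < s) (hs6 : s ≤ 6)
    (h1 : (S1 : ℝ) ≤ N * s) (h2 : (N : ℝ) * s ≤ S2) (hκ0 : 0 < κ) (hκ3 : κ < 3 * s)
    (hT : (N : ℝ) * κ ≤ T) : ∀ (L : List ℤ) (U : ℤ), 0 ≤ U → (U : ℝ) < N * κ →
    chkT N S1 S2 T U L = true → TopOK s κ := by
  intro L
  induction L with
  | nil =>
    intro U _ hU h
    exfalso
    unfold chkT at h
    rw [decide_eq_true_eq] at h
    have h3 : (T : ℝ) ≤ U := by exact_mod_cast h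
    linarith
  | cons V L ih =>
    intro U hU0 hU h
    unfold chkT at h
    rw [Bool.and_eq_true] at h
    rcases le_or_gt ((N : ℝ) * κ) V with hV | hV
    · exact cellT_sound hN hS1 hs hs6 h1 h2 hκ0 hκ3 hU0 hU.le hV h.1
    · have h4 := h.1
      unfold cellT at h4
      simp only [Bool.and_eq_true, decide_eq_true_eq] at h4
      exact ih V (hU0.trans h4.1.1) hV h.2

theorem topOK_of {N S1 S2 T : ℤ} {s κ : ℝ} (hN : 0 < N) (hS1 : 0 < S1)
    (hs : 3 < s) (hs6 : s ≤ 6)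
    (h1 : (S1 : ℝ) ≤ N * s) (h2 : (N : ℝ) * s ≤ S2) (hκ0 : 0 < κ) (hκ3 : κ < 3 * s)
    (hT : (N : ℝ) * κ ≤ T) (L : List ℤ) (h : chkT N S1 S2 T 0 L = true) : TopOK s κ := by
  have hNR : (0 : ℝ) < N := by exact_mod_cast hN
  exact chkT_sound hN hS1 hs hs6 h1 h2 hκ0 hκ3 hT L 0 le_rfl (by push_cast; positivity) h

end Pool.Agent.H209.SW
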