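import Pool.Agent.H209.SW.Rows

set_option autoImplicit false

/-! The numerical conditions from integer inequalities. -/

namespace Pool.Agent.H209.SW

theorem numS_of {s κ : ℝ} {n N S1 S2 T : ℤ} (hn : s * s = n) (hs : 3 < s) (hN : 0 < N)
    (h1 : (S1 : ℝ) ≤ N * s) (h2 : (N : ℝ) * s ≤ S2) (hT0 : 0 ≤ T) (hT : (T : ℝ) ≤ N * κ)
    (HA : ∀ a : ℤ, 0 ≤ a → a * N < 3 * S2 → a * (S2 - 3 * N) * N ≤ S1 * T)
    (HB : ∀ a f D : ℤ, -1 ≤ a → T < f * N → 1 ≤ D → a * N < 3 * S2 → (f + D + 8) * N < 6 * S2 →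
      3 * a * N < S2 * D → 3 * a * (N * N) < S2 * (f * N - T) →
      (0 ≤ a - f + 1 → N * (3 * f + 3 * D + 24 - 3 * n) < S2 * (a - f + 1)) →
      (a - f + 1 ≤ 0 → N * (3 * f + 3 * D + 24 - 3 * n) < S1 * (a - f + 1)) →
      3 * (N * N) * (f + D + 8) < S2 * (f * N - T + 9 * N) → False) : NumS s κ := by
  have hs0 : 0 < s := by linarith
  have hNR : (0 : ℝ) < N := by exact_mod_cast hN
  have hT0R : (0 : ℝ) ≤ T := by exact_mod_cast hT0
  have hκ0 : 0 ≤ κ := by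
    by_contra hcon
    push Not at hcon
    have : N * κ < 0 := mul_neg_of_pos_of_neg hNR hcon
    linarith
  intro l hl0 hl3
  have hsl0 : 0 ≤ s * l := mul_nonneg hs0.le hl0
  have hsl3 : s * l < s * 3 := mul_lt_mul_of_pos_left hl3 hs0
  constructor
  · by_contra hcon
    push Not at hcon
    obtain ⟨a, ha⟩ : ∃ a : ℤ, a = ⌈s * l⌉ - 1 := ⟨_, rfl⟩
    have ha1 : (a : ℝ) < s * l := by
      have := Int.ceil_lt_add_one (s * l)
      rw [ha]; push_cast; linarith
    have ha2 : κ + 3 * l < a := by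
      have h3 := Int.lt_floor_add_one (κ + 3 * l)
      have h4 : ⌊κ + 3 * l⌋ + 1 ≤ a := by omega
      have h5 : ((⌊κ + 3 * l⌋ + 1 : ℤ) : ℝ) ≤ a := by exact_mod_cast h4
      push_cast at h5
      linarith
    have ha0 : (0 : ℝ) ≤ a := by linarith
    have ha0' : 0 ≤ a := by exact_mod_cast ha0
    have h3 := HA a ha0' (by
      have : (a : ℝ) * N < 3 * S2 := by nlinarith
      exact_mod_cast this)
    have h3R : (a : ℝ) * (S2 - 3 * N) * N ≤ S1 * T := by exact_mod_cast h3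
    -- a (s - 3) > κ s
    have h4 : κ * s < a * (s - 3) := by
      have h5 : s * (κ + 3 * l) < s * a := mul_lt_mul_of_pos_left ha2 hs0
      nlinarith
    have h5 : (S1 : ℝ) * T ≤ (N * s) * (N * κ) := by
      have h6 : (S1 : ℝ) * T ≤ (N * s) * T := mul_le_mul_of_nonneg_right h1 hT0R
      have h7 : (N * s) * T ≤ (N * s) * (N * κ) := mul_le_mul_of_nonneg_left hT (by positivity)
      linarith
    have h6 : (N * s) * (N * κ) < (N * N) * (a * (s - 3)) := by
      have : (N * N) * (κ * s) < (N * N) * (a * (s - 3)) := mul_lt_mul_of_pos_left h4 (by positivity)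
      nlinarith
    have h7 : (N * N) * (a * (s - 3)) ≤ (a : ℝ) * (S2 - 3 * N) * N := by
      have h8 : (a * N) * (N * s - 3 * N) ≤ (a * N) * (S2 - 3 * N) :=
        mul_le_mul_of_nonneg_left (by linarith) (by positivity)
      nlinarith
    linarith
  · by_contra hcon
    push Not at hcon
    obtain ⟨P, hP⟩ : ∃ P : ℤ, P = ⌈s * l⌉ := ⟨_, rfl⟩
    obtain ⟨Q, hQ⟩ : ∃ Q : ℤ, Q = ⌊(s + 3) * l⌋ := ⟨_, rfl⟩
    obtain ⟨W, hW⟩ : ∃ W : ℤ, W = ⌈s * (l + 3)⌉ := ⟨_, rfl⟩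
    obtain ⟨f, hf⟩ : ∃ f : ℤ, f = ⌊κ + 3 * l⌋ + 1 := ⟨_, rfl⟩
    have hP1 : (P : ℝ) < s * l + 1 := by rw [hP]; exact Int.ceil_lt_add_one _
    have hP0 : s * l ≤ (P : ℝ) := by rw [hP]; exact Int.le_ceil _
    have hQ1 : (s + 3) * l < (Q : ℝ) + 1 := by rw [hQ]; exact Int.lt_floor_add_one _
    have hW1 : (W : ℝ) < s * (l + 3) + 1 := by rw [hW]; exact Int.ceil_lt_add_one _
    have hf1 : κ + 3 * l < (f : ℝ) := by
      rw [hf]; push_cast; exact Int.lt_floor_add_one _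
    rw [← hP, ← hQ, ← hW] at hcon
    obtain ⟨a, ha⟩ : ∃ a : ℤ, a = P - 1 := ⟨_, rfl⟩
    obtain ⟨D, hD⟩ : ∃ D : ℤ, D = Q + 1 - a := ⟨_, rfl⟩
    have haR : (a : ℝ) = P - 1 := by rw [ha]; push_cast; ring
    have hDR : (D : ℝ) = Q + 1 - a := by rw [hD]; push_cast; ring
    have hWW : f + D + 9 ≤ W := by omega
    have hWR : (f : ℝ) + D + 9 ≤ W := by exact_mod_cast hWW
    have q1 : (a : ℝ) < s * l := by linarith
    have q2 : 3 * l < (D : ℝ) := by nlinarith
    have q3 : (f : ℝ) + D + 8 < s * (l + 3) := by linarith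
    have q4 : (s + 3) * l < (D : ℝ) + a := by linarith
    have hDpos : (0 : ℝ) < D := by linarith
    have hPnn : (0 : ℤ) ≤ P := by
      have : (0 : ℝ) ≤ P := by linarith
      exact_mod_cast this
    -- the four inequalities
    have i1 : 3 * (a : ℝ) < s * D := by
      have := mul_lt_mul_of_pos_left q2 hs0
      linarith
    have i2 : 3 * (a : ℝ) < s * (f - κ) := by
      have := mul_lt_mul_of_pos_left hf1 hs0
      linarith
    have i3 : 3 * ((f : ℝ) + D + 8) - 3 * n < s * (a - f + 1) := by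
      have h3 : s * ((s + 3) * l) < s * (D + a) := mul_lt_mul_of_pos_left q4 hs0
      have h4 : (s + 3) * (f + D + 8) < (s + 3) * (s * (l + 3)) :=
        mul_lt_mul_of_pos_left q3 (by linarith)
      have h5 : (s + 3) * (s * (l + 3)) = s * ((s + 3) * l) + 3 * n + 9 * s := by
        rw [← hn]; ring
      nlinarith
    have i4 : 3 * ((f : ℝ) + D + 8) < s * (f - κ + 9) := by
      have := mul_lt_mul_of_pos_left hf1 hs0
      linarith
    have hfκ : 0 < (f : ℝ) - κ := by linarith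
    refine HB a f D (by omega) ?_ ?_ ?_ ?_ ?_ ?_ ?_ ?_ ?_
    · have h3 : N * κ < N * f := mul_lt_mul_of_pos_left (by linarith) hNR
      have : (T : ℝ) < f * N := by linarith
      exact_mod_cast this
    · have : (0 : ℤ) < D := by exact_mod_cast hDpos
      omega
    · have h3 : (a : ℝ) * N < (s * 3) * N := mul_lt_mul_of_pos_right (by linarith) hNR
      have : (a : ℝ) * N < 3 * S2 := by linarith
      exact_mod_cast this
    · have h3 : ((f : ℝ) + D + 8) * N < (s * 6) * N := mul_lt_mul_of_pos_right (by linarith) hNR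
      have : ((f : ℝ) + D + 8) * N < 6 * S2 := by linarith
      exact_mod_cast this
    · have h3 : (3 * (a : ℝ)) * N < (s * D) * N := mul_lt_mul_of_pos_right i1 hNR
      have h4 : (N * s) * D ≤ S2 * D := mul_le_mul_of_nonneg_right h2 hDpos.le
      have : 3 * (a : ℝ) * N < S2 * D := by linarith
      exact_mod_cast this
    · have h3 : (3 * (a : ℝ)) * (N * N) < (s * (f - κ)) * (N * N) :=
        mul_lt_mul_of_pos_right i2 (by positivity)
      have h4 : (N * s) * (N * (f - κ)) ≤ S2 * (N * (f - κ)) :=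
        mul_le_mul_of_nonneg_right h2 (by positivity)
      have hS2 : (0 : ℝ) ≤ S2 := le_trans (by positivity) h2
      have h5 : (S2 : ℝ) * (N * (f - κ)) ≤ S2 * (f * N - T) :=
        mul_le_mul_of_nonneg_left (by linarith) hS2
      have : 3 * (a : ℝ) * (N * N) < S2 * (f * N - T) := by linarith
      exact_mod_cast this
    · intro h0
      have h0R : (0 : ℝ) ≤ (a : ℝ) - f + 1 := by exact_mod_cast h0
      have h3 : N * (3 * ((f : ℝ) + D + 8) - 3 * n) < N * (s * (a - f + 1)) :=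
        mul_lt_mul_of_pos_left i3 hNR
      have h4 : (N * s) * ((a : ℝ) - f + 1) ≤ S2 * (a - f + 1) := mul_le_mul_of_nonneg_right h2 h0R
      have : (N : ℝ) * (3 * f + 3 * D + 24 - 3 * n) < S2 * (a - f + 1) := by linarith
      exact_mod_cast this
    · intro h0
      have h0R : (a : ℝ) - f + 1 ≤ 0 := by exact_mod_cast h0
      have h3 : N * (3 * ((f : ℝ) + D + 8) - 3 * n) < N * (s * (a - f + 1)) :=
        mul_lt_mul_of_pos_left i3 hNR
      have h4 : (N * s) * ((a : ℝ) - f + 1) ≤ S1 * (a - f + 1) := mul_le_mul_of_nonpos_right h1 h0R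
      have : (N : ℝ) * (3 * f + 3 * D + 24 - 3 * n) < S1 * (a - f + 1) := by linarith
      exact_mod_cast this
    · have h3 : (N * N) * (3 * ((f : ℝ) + D + 8)) < (N * N) * (s * (f - κ + 9)) :=
        mul_lt_mul_of_pos_left i4 (by positivity)
      have hS2 : (0 : ℝ) ≤ S2 := le_trans (by positivity) h2
      have h4 : (N * s) * (N * (f - κ + 9)) ≤ S2 * (N * (f - κ + 9)) :=
        mul_le_mul_of_nonneg_right h2 (by
          have : 0 ≤ (f : ℝ) - κ + 9 := by linarith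
          positivity)
      have h5 : (S2 : ℝ) * (N * (f - κ + 9)) ≤ S2 * (f * N - T + 9 * N) :=
        mul_le_mul_of_nonneg_left (by linarith) hS2
      have : 3 * ((N : ℝ) * N) * (f + D + 8) < S2 * (f * N - T + 9 * N) := by linarith
      exact_mod_cast this

theorem numE_of {s κ : ℝ} {n N S1 S2 T e : ℤ} (hn : s * s = n) (hs : 3 < s) (hN : 0 < N)
    (hS1 : 0 ≤ S1)
    (h1 : (S1 : ℝ) ≤ N * s) (h2 : (N : ℝ) * s ≤ S2) (hT : N * κ ≤ (T : ℝ))
    (HB : ∀ P j D : ℤ, 0 ≤ P → P ≤ j + e → P * N < 3 * S2 + N → j * N < T + 9 * N → 0 ≤ P + D →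
      (0 ≤ D → S1 * D ≤ 3 * P * N) → (0 ≤ j * N - T → S1 * (j * N - T) ≤ 3 * P * (N * N)) →
      3 * n * N ≤ S2 * (j + 1 + e - P) + 3 * N * (j + D + 10 + e) →
      (0 ≤ (j + 9) * N - T → S1 * ((j + 9) * N - T) ≤ 3 * (N * N) * (j + D + 10 + e)) →
      3 * S1 ≤ N * (j + D + 10 + e) → False) : NumE s κ e := by
  have hs0 : 0 < s := by linarith
  have hNR : (0 : ℝ) < N := by exact_mod_cast hN
  have hS1R : (0 : ℝ) ≤ S1 := by exact_mod_cast hS1
  intro l hl0 hl3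
  have hsl0 : 0 ≤ s * l := mul_nonneg hs0.le hl0
  have hsl3 : s * l < s * 3 := mul_lt_mul_of_pos_left hl3 hs0
  by_contra hcon
  push Not at hcon
  obtain ⟨hc1, hc2⟩ := hcon
  obtain ⟨P, hP⟩ : ∃ P : ℤ, P = ⌈s * l⌉ := ⟨_, rfl⟩
  obtain ⟨Q, hQ⟩ : ∃ Q : ℤ, Q = ⌊(s + 3) * l⌋ := ⟨_, rfl⟩
  obtain ⟨W, hW⟩ : ∃ W : ℤ, W = ⌈s * (l + 3)⌉ := ⟨_, rfl⟩
  obtain ⟨j, hj⟩ : ∃ j : ℤ, j = ⌊κ + 3 * l⌋ := ⟨_, rfl⟩
  obtain ⟨D, hD⟩ : ∃ D : ℤ, D = Q - P := ⟨_, rfl⟩
  obtain ⟨R, hR⟩ : ∃ R : ℤ, R = j + D + 10 + e := ⟨_, rfl⟩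
  have hP1 : (P : ℝ) < s * l + 1 := by rw [hP]; exact Int.ceil_lt_add_one _
  have hP0 : s * l ≤ (P : ℝ) := by rw [hP]; exact Int.le_ceil _
  have hQ1 : (Q : ℝ) ≤ (s + 3) * l := by rw [hQ]; exact Int.floor_le _
  have hW1 : s * (l + 3) ≤ (W : ℝ) := by rw [hW]; exact Int.le_ceil _
  have hj1 : (j : ℝ) ≤ κ + 3 * l := by rw [hj]; exact Int.floor_le _
  rw [← hP, ← hj] at hc1
  rw [← hP, ← hQ, ← hW, ← hj] at hc2
  have hWR : W ≤ R := by omega
  have hWR' : (W : ℝ) ≤ R := by exact_mod_cast hWR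
  have hRR : (R : ℝ) = j + D + 10 + e := by rw [hR]; push_cast; ring
  have hDR : (D : ℝ) = Q - P := by rw [hD]; push_cast; ring
  have hPe : P ≤ j + e := by omega
  have hPeR : (P : ℝ) ≤ j + e := by exact_mod_cast hPe
  have hPnn : (0 : ℝ) ≤ P := by linarith
  have q3 : s * (l + 3) ≤ (R : ℝ) := by linarith
  have i1 : s * (D : ℝ) ≤ 3 * P := by
    have : s * (D : ℝ) ≤ s * (3 * l) := mul_le_mul_of_nonneg_left (by linarith) hs0.le
    linarith
  have i2 : s * ((j : ℝ) - κ) ≤ 3 * P := by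
    have : s * ((j : ℝ) - κ) ≤ s * (3 * l) := mul_le_mul_of_nonneg_left (by linarith) hs0.le
    linarith
  have i4 : s * ((j : ℝ) + 9 - κ) ≤ 3 * R := by
    have : s * ((j : ℝ) + 9 - κ) ≤ s * (3 * l + 9) := mul_le_mul_of_nonneg_left (by linarith) hs0.le
    linarith
  have i3 : 3 * (n : ℝ) ≤ s * (j + 1 + e - P) + 3 * R := by
    have h3 : s * (Q : ℝ) ≤ s * ((s + 3) * l) := mul_le_mul_of_nonneg_left hQ1 hs0.le
    have h4 : (s + 3) * (s * (l + 3)) ≤ (s + 3) * R := mul_le_mul_of_nonneg_left q3 (by linarith)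
    have h5 : (s + 3) * (s * (l + 3)) = s * ((s + 3) * l) + 3 * n + 9 * s := by
      rw [← hn]; ring
    have h6 : s * (R : ℝ) = s * (j + D + 10 + e) := by rw [hRR]
    have h7 : s * (Q : ℝ) = s * (D + P) := by rw [hDR]; ring
    nlinarith
  refine HB P j D (by exact_mod_cast hPnn) hPe ?_ ?_ ?_ ?_ ?_ ?_ ?_ ?_
  · have h3 : (P : ℝ) * N < (s * 3 + 1) * N := mul_lt_mul_of_pos_right (by linarith) hNR
    have : (P : ℝ) * N < 3 * S2 + N := by linarith
    exact_mod_cast this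
  · have h3 : (j : ℝ) * N < (κ + 9) * N := mul_lt_mul_of_pos_right (by linarith) hNR
    have : (j : ℝ) * N < T + 9 * N := by linarith
    exact_mod_cast this
  · have h3 : 0 ≤ Q := by
      rw [hQ]; exact Int.floor_nonneg.2 (by positivity)
    omega
  · intro h0
    have h0R : (0 : ℝ) ≤ D := by exact_mod_cast h0
    have h3 : (S1 : ℝ) * D ≤ (N * s) * D := mul_le_mul_of_nonneg_right h1 h0R
    have h4 : N * (s * (D : ℝ)) ≤ N * (3 * P) := mul_le_mul_of_nonneg_left i1 hNR.le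
    have : (S1 : ℝ) * D ≤ 3 * P * N := by linarith
    exact_mod_cast this
  · intro h0
    have h0R : (0 : ℝ) ≤ (j : ℝ) * N - T := by exact_mod_cast h0
    have h3 : (S1 : ℝ) * (j * N - T) ≤ (N * s) * (j * N - T) := mul_le_mul_of_nonneg_right h1 h0R
    have h5 : (N * s) * ((j : ℝ) * N - T) ≤ (N * s) * (N * (j - κ)) :=
      mul_le_mul_of_nonneg_left (by linarith) (by positivity)
    have h4 : (N * N) * (s * ((j : ℝ) - κ)) ≤ (N * N) * (3 * P) :=
      mul_le_mul_of_nonneg_left i2 (by positivity)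
    have : (S1 : ℝ) * (j * N - T) ≤ 3 * P * (N * N) := by linarith
    exact_mod_cast this
  · have hpos : (0 : ℝ) ≤ j + 1 + e - P := by linarith
    have h3 : N * (3 * (n : ℝ)) ≤ N * (s * (j + 1 + e - P) + 3 * R) :=
      mul_le_mul_of_nonneg_left i3 hNR.le
    have h4 : (N * s) * ((j : ℝ) + 1 + e - P) ≤ S2 * (j + 1 + e - P) :=
      mul_le_mul_of_nonneg_right h2 hpos
    have : 3 * (n : ℝ) * N ≤ S2 * (j + 1 + e - P) + 3 * N * (j + D + 10 + e) := by
      rw [← hRR]; linarith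
    exact_mod_cast this
  · intro h0
    have h0R : (0 : ℝ) ≤ ((j : ℝ) + 9) * N - T := by exact_mod_cast h0
    have h3 : (S1 : ℝ) * ((j + 9) * N - T) ≤ (N * s) * ((j + 9) * N - T) :=
      mul_le_mul_of_nonneg_right h1 h0R
    have h5 : (N * s) * (((j : ℝ) + 9) * N - T) ≤ (N * s) * (N * (j + 9 - κ)) :=
      mul_le_mul_of_nonneg_left (by linarith) (by positivity)
    have h4 : (N * N) * (s * ((j : ℝ) + 9 - κ)) ≤ (N * N) * (3 * R) :=
      mul_le_mul_of_nonneg_left i4 (by positivity)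
    have : (S1 : ℝ) * ((j + 9) * N - T) ≤ 3 * (N * N) * (j + D + 10 + e) := by
      rw [← hRR]; linarith
    exact_mod_cast this
  · have h3 : N * (s * 3) ≤ N * R := mul_le_mul_of_nonneg_left (by linarith) hNR.le
    have : 3 * (S1 : ℝ) ≤ N * (j + D + 10 + e) := by rw [← hRR]; linarith
    exact_mod_cast this

end Pool.Agent.H209.SW
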