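import Pool.Agent.TH864.SX.Eleven
import Pool.Agent.TH641.NW.Win

set_option autoImplicit false

/-! The exact rows of the single flattening with slope `3 √n`. -/

namespace Pool.Agent.H209.SW

open Finset Pool.Agent.TH176.Nag Pool.Agent.TH603.Sur Pool.Agent.TH603.Cut Pool.Agent.TH641.NW

/-- the triangle with sides of slopes `3 s - 9` and `3 s` -/
def T9 (s : ℝ) (d : ℕ) : Set (ℤ × ℤ) :=
  {p | 0 ≤ p.2 ∧ (s - 3) * ((d : ℝ) - 3 * p.2) ≤ p.1 ∧ (p.1 : ℝ) ≤ s * ((d : ℝ) - 3 * p.2)}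

/-- transfer to the plane, emptiness -/
theorem Emp_T9 {ι : Type} {w : ι → ℕ} {s : ℝ} {c d : ℕ} (h1 : (c : ℝ) < s) (h2 : s < c + 1)
    (h : Emp w (T9 s d)) : Emp w (TZ d) := by
  refine keyE ι w d (s - c) (by linarith) (by linarith) ?_
  refine h.comap (-1) (-(3 * ((c : ℤ) - 1))) 0 1 (((c : ℤ) - 1) * d) 0 (by norm_num) ?_
  rintro ⟨x, y⟩ ⟨g1, g2, g3⟩
  simp only at g1 g2 g3
  refine ⟨by simp only; omega, ?_, ?_⟩
  · simp only
    push_cast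
    nlinarith
  · simp only
    push_cast
    nlinarith

/-- transfer to the plane, independence -/
theorem Sur_T9 {ι : Type} [Fintype ι] {w : ι → ℕ} {s : ℝ} {c d : ℕ} (h1 : (c : ℝ) < s) (h2 : s < c + 1)
    (hirr : Irrational s) (h : Sur w (T9 s d)) : Sur w (TZ d) := by
  refine keyS ι w d (s - c) (by linarith) (by linarith) (hirr.sub_natCast c) ?_
  refine h.comap (-1) (-(3 * ((c : ℤ) - 1))) 0 1 (((c : ℤ) - 1) * d) 0 (by norm_num) ?_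
  rintro ⟨t, y⟩ ⟨g1, g2, g3⟩
  simp only at g1 g2 g3
  refine ⟨(((c : ℤ) - 1) * d - t - 3 * ((c : ℤ) - 1) * y, y), ⟨g1, ?_, ?_⟩, ?_⟩
  · simp only
    push_cast
    nlinarith
  · simp only
    push_cast
    nlinarith
  · ext
    · simp only; ring
    · simp only; ring

/-- the columns with more than `g` points -/
def Row (s : ℝ) (d : ℕ) : Set (ℤ × ℤ) :=
  {p | 0 ≤ p.2 ∧ ∃ y : ℤ, 0 ≤ y ∧ (s - 3) * ((d : ℝ) - 3 * y) ≤ p.1 ∧
    (p.1 : ℝ) ≤ s * ((d : ℝ) - 3 * (y + p.2))}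

theorem Emp_flat9 {ι : Type} {w : ι → ℕ} {s : ℝ} {d : ℕ} (hs : 0 ≤ s) (h : Emp w (Row s d)) :
    Emp w (T9 s d) := by
  refine Emp_flat (S' := Row s d) 1 0 1 0 (by norm_num) ?_ h
  rintro ⟨t, y⟩ T k ⟨g1, g2, -⟩ ⟨-, -, g3⟩ hk
  simp only at g1 g2 g3
  have e : ((1 * t + 0 * y, (k : ℤ)) : ℤ × ℤ) = (t, (k : ℤ)) := by simp
  simp only
  rw [e]
  have hkR : (k : ℝ) ≤ T := by exact_mod_cast hk
  refine ⟨by simp, y, g1, g2, ?_⟩
  push_cast at g3 ⊢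
  have h5 : s * k ≤ s * T := mul_le_mul_of_nonneg_left hkR hs
  nlinarith

/-- the numbers of a row: `z`, `l` -/
theorem row_data {s : ℝ} {n m g d : ℕ} (hn : s * s = n) :
    ∃ (z c0 : ℤ) (l : ℝ), 0 ≤ l ∧ l < 3 ∧ (d : ℝ) - s * g - 3 * z = l ∧
      (s - 3) * ((d : ℝ) - 3 * z) = c0 + s * l ∧
      s * ((d : ℝ) - 3 * (z + g)) = c0 + (s + 3) * l ∧
      (s - 3) * ((d : ℝ) - 3 * (z - 1)) = c0 + (s * (l + 3) - 9) ∧
      s * ((d : ℝ) - 3 * g) = c0 + ((n : ℝ) * (m - g) + ((s * d - n * m) + 3 * l)) := by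
  obtain ⟨z, hz⟩ : ∃ z : ℤ, z = ⌊((d : ℝ) - s * g) / 3⌋ := ⟨_, rfl⟩
  have h1 := Int.floor_le (((d : ℝ) - s * g) / 3)
  have h2 := Int.lt_floor_add_one (((d : ℝ) - s * g) / 3)
  rw [← hz] at h1 h2
  refine ⟨z, (n : ℤ) * g - 3 * d + 9 * z, (d : ℝ) - s * g - 3 * z, by linarith, by linarith, rfl, ?_, ?_,
    ?_, ?_⟩
  · push_cast
    rw [← hn]; ring
  · push_cast
    rw [← hn]; ring
  · push_cast
    rw [← hn]; ring
  · push_cast
    rw [← hn]; ring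

/-- the numerical condition for emptiness, with slack `e` -/
def NumE (s κ : ℝ) (e : ℤ) : Prop := ∀ l : ℝ, 0 ≤ l → l < 3 →
  (⌊κ + 3 * l⌋ + 1 + e ≤ ⌈s * l⌉) ∨
  (⌊κ + 3 * l⌋ + ⌊(s + 3) * l⌋ + 11 + e ≤ ⌈s * l⌉ + ⌈s * (l + 3)⌉)

/-- the numerical condition for independence -/
def NumS (s κ : ℝ) : Prop := ∀ l : ℝ, 0 ≤ l → l < 3 →
  (⌈s * l⌉ ≤ ⌊κ + 3 * l⌋ + 1) ∧
  (⌈s * l⌉ + ⌈s * (l + 3)⌉ ≤ ⌊κ + 3 * l⌋ + ⌊(s + 3) * l⌋ + 11)

theorem card_Icc_ceil {a b : ℝ} (hab : ⌈a⌉ ≤ ⌊b⌋ + 1) :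
    ((Icc ⌈a⌉ ⌊b⌋).card : ℤ) = ⌊b⌋ + 1 - ⌈a⌉ := by
  rw [Int.card_Icc]
  omega

theorem ceil_le_floor {a b : ℝ} (h : a ≤ b) : ⌈a⌉ ≤ ⌊b⌋ + 1 := by
  rw [Int.ceil_le]
  push_cast
  have := Int.lt_floor_add_one b
  linarith

/-- the upper bound of a row -/
theorem rowE {s : ℝ} {n m g d : ℕ} {e : ℤ} (hn : s * s = n) (hs : 3 < s) (hκ : 0 ≤ s * d - n * m)
    (hg : g < m) (hN : NumE s (s * d - n * m) e) (B : Finset ℤ)
    (hB : ∀ c ∈ B, ((c, (g : ℤ)) : ℤ × ℤ) ∈ Row s d) : (B.card : ℤ) ≤ (n : ℤ) * (m - g) - e := by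
  classical
  obtain ⟨z, c0, l, hl0, hl3, hz, hL, hR, hL1, hX⟩ := row_data (m := m) (g := g) (d := d) hn
  have hgm : (g : ℝ) + 1 ≤ m := by exact_mod_cast hg
  have hs0 : 0 < s := by linarith
  have hdm : s * m ≤ d := by
    have h1 : s * (s * m) ≤ s * d := by rw [← mul_assoc, hn]; linarith
    exact le_of_mul_le_mul_left h1 hs0
  have hdg : s ≤ (d : ℝ) - s * g := by
    have : s * (g + 1) ≤ s * m := mul_le_mul_of_nonneg_left hgm hs0.le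
    linarith
  have hz1 : 1 ≤ z := by
    have : (0 : ℝ) < z := by linarith
    have : (0 : ℤ) < z := by exact_mod_cast this
    omega
  obtain ⟨L, hLd⟩ : ∃ L : ℝ, L = (s - 3) * ((d : ℝ) - 3 * z) := ⟨_, rfl⟩
  obtain ⟨R, hRd⟩ : ∃ R : ℝ, R = s * ((d : ℝ) - 3 * (z + g)) := ⟨_, rfl⟩
  obtain ⟨L1, hL1d⟩ : ∃ L1 : ℝ, L1 = (s - 3) * ((d : ℝ) - 3 * (z - 1)) := ⟨_, rfl⟩
  obtain ⟨X, hXd⟩ : ∃ X : ℝ, X = s * ((d : ℝ) - 3 * g) := ⟨_, rfl⟩
  rw [← hLd] at hL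
  rw [← hRd] at hR
  rw [← hL1d] at hL1
  rw [← hXd] at hX
  have hs2 : (0 : ℝ) < s - 3 := by linarith
  -- membership
  have hmem : ∀ c ∈ B, (L ≤ c ∧ (c : ℝ) ≤ R) ∨ (L1 ≤ c ∧ (c : ℝ) ≤ X) := by
    intro c hc
    obtain ⟨-, y, hy0, hy1, hy2⟩ := hB c hc
    simp only [Int.cast_natCast] at hy1 hy2
    have hyz : y ≤ z := by
      have h1 : 3 * (s * g) ≤ 3 * ((d : ℝ) - 3 * y) := by nlinarith
      have h2 : (y : ℝ) < z + 1 := by linarith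
      have h3 : y < z + 1 := by exact_mod_cast h2
      omega
    have hy0R : (0 : ℝ) ≤ y := by exact_mod_cast hy0
    rcases hyz.lt_or_eq with h1 | h1
    · right
      have h2 : (y : ℝ) ≤ z - 1 := by
        have : y ≤ z - 1 := by omega
        exact_mod_cast this
      constructor
      · rw [hL1d]
        have : (s - 3) * ((d : ℝ) - 3 * (z - 1)) ≤ (s - 3) * ((d : ℝ) - 3 * y) :=
          mul_le_mul_of_nonneg_left (by linarith) hs2.le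
        linarith
      · rw [hXd]
        have : s * ((d : ℝ) - 3 * (y + g)) ≤ s * ((d : ℝ) - 3 * g) :=
          mul_le_mul_of_nonneg_left (by linarith) hs0.le
        linarith
    · left
      subst h1
      exact ⟨by rw [hLd]; exact hy1, by rw [hRd]; exact hy2⟩
  have hLL1 : L ≤ L1 := by rw [hL, hL1]; nlinarith
  have hRX : R ≤ X := by
    rw [hRd, hXd]
    have hz1R : (1 : ℝ) ≤ z := by exact_mod_cast hz1
    exact mul_le_mul_of_nonneg_left (by linarith) hs0.le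
  have hLR : L ≤ R := by rw [hL, hR]; nlinarith
  have hnm : s * s ≤ (n : ℝ) * (m - g) := by
    rw [hn]
    have hn0 : (0 : ℝ) ≤ n := Nat.cast_nonneg n
    nlinarith
  have hL1X : L1 ≤ X := by
    rw [hL1, hX]
    have h1 : (s - 3) * l ≤ (s - 3) * 3 := mul_le_mul_of_nonneg_left hl3.le hs2.le
    nlinarith [sq_nonneg (s - 3)]
  -- the two bounds
  have b0 : (B.card : ℤ) ≤ ⌊X⌋ + 1 - ⌈L⌉ := by
    have hsub : B ⊆ Icc ⌈L⌉ ⌊X⌋ := by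
      intro c hc
      rw [mem_Icc, Int.ceil_le, Int.le_floor]
      rcases hmem c hc with h1 | h1
      · exact ⟨h1.1, by linarith [h1.2]⟩
      · exact ⟨by linarith [h1.1], h1.2⟩
    have h1 := card_le_card hsub
    rw [Int.card_Icc] at h1
    have h2 := ceil_le_floor (show L ≤ X by linarith)
    omega
  have b1 : (B.card : ℤ) ≤ (⌊R⌋ + 1 - ⌈L⌉) + (⌊X⌋ + 1 - ⌈L1⌉) := by
    have hsub : B ⊆ Icc ⌈L⌉ ⌊R⌋ ∪ Icc ⌈L1⌉ ⌊X⌋ := by
      intro c hc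
      rw [mem_union, mem_Icc, mem_Icc, Int.ceil_le, Int.le_floor, Int.ceil_le, Int.le_floor]
      exact hmem c hc
    have h1 := (card_le_card hsub).trans (card_union_le _ _)
    rw [Int.card_Icc, Int.card_Icc] at h1
    have h2 := ceil_le_floor hLR
    have h3 := ceil_le_floor hL1X
    omega
  have e1 : ⌈L⌉ = c0 + ⌈s * l⌉ := by rw [hL, Int.ceil_intCast_add]
  have e2 : ⌊R⌋ = c0 + ⌊(s + 3) * l⌋ := by rw [hR, Int.floor_intCast_add]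
  have e3 : ⌈L1⌉ = c0 + (⌈s * (l + 3)⌉ - 9) := by
    rw [hL1, Int.ceil_intCast_add]
    congr 1
    have : s * (l + 3) - 9 = s * (l + 3) - ((9 : ℤ) : ℝ) := by push_cast; ring
    rw [this, Int.ceil_sub_intCast]
  have e4 : ⌊X⌋ = c0 + ((n : ℤ) * (m - g) + ⌊(s * d - n * m) + 3 * l⌋) := by
    rw [hX, Int.floor_intCast_add]
    congr 1
    have : (n : ℝ) * (m - g) = (((n : ℤ) * (m - g) : ℤ) : ℝ) := by push_cast; ring
    rw [this, Int.floor_intCast_add]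
  rw [e1, e4] at b0
  rw [e1, e2, e3, e4] at b1
  rcases hN l hl0 hl3 with h1 | h1
  · linarith
  · linarith

end Pool.Agent.H209.SW
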