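import Pool.Agent.H209.SW.Main

set_option autoImplicit false

/-! The exact number of points of the rows, and the next row. -/

namespace Pool.Agent.H209.SW

open Finset Pool.Agent.TH176.Nag Pool.Agent.TH603.Sur Pool.Agent.TH603.Cut Pool.Agent.TH641.NW

/-- the parameter of a row -/
noncomputable def ll (s : ℝ) (d g : ℕ) : ℝ := ((d : ℝ) - s * g) - 3 * ⌊((d : ℝ) - s * g) / 3⌋

theorem ll_nonneg (s : ℝ) (d g : ℕ) : 0 ≤ ll s d g := by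
  have := Int.floor_le (((d : ℝ) - s * g) / 3)
  unfold ll
  linarith

theorem ll_lt (s : ℝ) (d g : ℕ) : ll s d g < 3 := by
  have := Int.lt_floor_add_one (((d : ℝ) - s * g) / 3)
  unfold ll
  linarith

/-- the next row -/
theorem ll_succ (s : ℝ) (d g : ℕ) : ∃ k : ℤ, ll s d (g + 1) = ll s d g - s + 3 * k := by
  refine ⟨⌊((d : ℝ) - s * g) / 3⌋ - ⌊((d : ℝ) - s * (g + 1 : ℕ)) / 3⌋, ?_⟩
  unfold ll
  push_cast
  ring

/-- the surplus of a row -/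
noncomputable def eps (s κ l : ℝ) : ℤ :=
  min (⌊κ + 3 * l⌋ + 1 - ⌈s * l⌉)
    (⌊κ + 3 * l⌋ + ⌊(s + 3) * l⌋ + 11 - ⌈s * l⌉ - ⌈s * (l + 3)⌉)

theorem row_data' {s : ℝ} {n m g d : ℕ} (hn : s * s = n) :
    ∃ (z c0 : ℤ), (d : ℝ) - s * g - 3 * z = ll s d g ∧
      (s - 3) * ((d : ℝ) - 3 * z) = c0 + s * ll s d g ∧
      s * ((d : ℝ) - 3 * (z + g)) = c0 + (s + 3) * ll s d g ∧
      (s - 3) * ((d : ℝ) - 3 * (z - 1)) = c0 + (s * (ll s d g + 3) - 9) ∧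
      s * ((d : ℝ) - 3 * g) = c0 + ((n : ℝ) * (m - g) + ((s * d - n * m) + 3 * ll s d g)) := by
  refine ⟨⌊((d : ℝ) - s * g) / 3⌋, (n : ℤ) * g - 3 * d + 9 * ⌊((d : ℝ) - s * g) / 3⌋, rfl, ?_, ?_,
    ?_, ?_⟩
  all_goals
    unfold ll
    push_cast
    rw [← hn]; ring

/-- the row of height `g < m`, at least `n (m - g) + eps` columns -/
theorem rowS2 {s : ℝ} {n m g d : ℕ} (hn : s * s = n) (hs : 3 < s) (hs6 : s ≤ 6)
    (hκ : 0 ≤ s * d - n * m) (hgm : g < m) : ∃ C : Finset ℤ,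
      (n : ℤ) * (m - g) + eps s (s * d - n * m) (ll s d g) ≤ C.card ∧ ∀ c ∈ C,
      ∃ s0 : ℤ, ∀ t : ℤ, s0 ≤ t → t ≤ s0 + (g : ℤ) →
        ((1 * c - 0 * t, 0 * c + 1 * t) : ℤ × ℤ) ∈ T9 s d := by
  classical
  have hs0 : 0 < s := by linarith
  have hs2 : 0 < s - 3 := by linarith
  have hdm : s * m ≤ d := by
    have h1 : s * (s * m) ≤ s * d := by rw [← mul_assoc, hn]; linarith
    exact le_of_mul_le_mul_left h1 hs0
  obtain ⟨z, c0, hz, hL, hR, hL1, hX⟩ := row_data' (m := m) (g := g) (d := d) hn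
  have hl0 := ll_nonneg s d g
  have hl3 := ll_lt s d g
  obtain ⟨l, hl⟩ : ∃ l : ℝ, l = ll s d g := ⟨_, rfl⟩
  rw [← hl] at hz hL hR hL1 hX hl0 hl3 ⊢
  have hgmR : (g : ℝ) + 1 ≤ m := by exact_mod_cast hgm
  have hdg : s ≤ (d : ℝ) - s * g := by
    have : s * (g + 1) ≤ s * m := mul_le_mul_of_nonneg_left hgmR hs0.le
    linarith
  have hz1 : 1 ≤ z := by
    have : (0 : ℝ) < z := by linarith
    have : (0 : ℤ) < z := by exact_mod_cast this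
    omega
  obtain ⟨L, hLd⟩ : ∃ L : ℝ, L = (s - 3) * ((d : ℝ) - 3 * z) := ⟨_, rfl⟩
  obtain ⟨R, hRd⟩ : ∃ R : ℝ, R = s * ((d : ℝ) - 3 * (z + g)) := ⟨_, rfl⟩
  obtain ⟨L1, hL1d⟩ : ∃ L1 : ℝ, L1 = (s - 3) * ((d : ℝ) - 3 * (z - 1)) := ⟨_, rfl⟩
  obtain ⟨X, hXd⟩ : ∃ X : ℝ, X = s * ((d : ℝ) - 3 * g) := ⟨_, rfl⟩
  rw [← hLd] at hL
  rw [← hRd] at hR
  rw [← hL1d] at hL1
  rw [← hXd] at hX
  have hm1 : ∀ c : ℤ, L ≤ c → (c : ℝ) ≤ R → ∃ s0 : ℤ, ∀ t : ℤ, s0 ≤ t → t ≤ s0 + (g : ℤ) →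
      ((1 * c - 0 * t, 0 * c + 1 * t) : ℤ × ℤ) ∈ T9 s d := by
    intro c h1 h2
    exact ⟨z, mem_col hs (by omega) (by rw [← hLd]; exact h1) (by push_cast; rw [← hRd]; exact h2)⟩
  have hm2 : ∀ c : ℤ, L1 ≤ c → (c : ℝ) ≤ X → ∃ s0 : ℤ, ∀ t : ℤ, s0 ≤ t → t ≤ s0 + (g : ℤ) →
      ((1 * c - 0 * t, 0 * c + 1 * t) : ℤ × ℤ) ∈ T9 s d := by
    intro c h1 h2
    obtain ⟨u, hu⟩ : ∃ u : ℤ, u = ⌈((d : ℝ) - c / (s - 3)) / 3⌉ := ⟨_, rfl⟩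
    have hu1 := Int.le_ceil (((d : ℝ) - c / (s - 3)) / 3)
    have hu2 := Int.ceil_lt_add_one (((d : ℝ) - c / (s - 3)) / 3)
    rw [← hu] at hu1 hu2
    have ec : (s - 3) * ((c : ℝ) / (s - 3)) = c := mul_div_cancel₀ _ hs2.ne'
    have hu3 : (s - 3) * ((d : ℝ) - 3 * u) ≤ c := by
      have : (s - 3) * ((d : ℝ) - 3 * u) ≤ (s - 3) * ((c : ℝ) / (s - 3)) :=
        mul_le_mul_of_nonneg_left (by linarith) hs2.le
      linarith
    rcases le_or_gt u 0 with hu0 | hu0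
    · have hu0R : (u : ℝ) ≤ 0 := by exact_mod_cast hu0
      refine ⟨0, mem_col hs le_rfl ?_ ?_⟩
      · have : (s - 3) * ((d : ℝ) - 3 * ((0 : ℤ) : ℝ)) ≤ (s - 3) * ((d : ℝ) - 3 * u) :=
          mul_le_mul_of_nonneg_left (by push_cast; linarith) hs2.le
        linarith
      · push_cast
        rw [zero_add, ← hXd]; exact h2
    · have hu4 : (c : ℝ) < (s - 3) * ((d : ℝ) - 3 * u) + 3 * (s - 3) := by
        have : (s - 3) * ((c : ℝ) / (s - 3)) < (s - 3) * ((d : ℝ) - 3 * u + 3) :=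
          mul_lt_mul_of_pos_left (by linarith) hs2
        rw [ec] at this
        linarith
      have huz : u ≤ z - 1 := by
        rw [hu, Int.ceil_le]
        push_cast
        have h5 : (s - 3) * ((d : ℝ) - 3 * (z - 1)) ≤ (s - 3) * ((c : ℝ) / (s - 3)) := by
          rw [ec, ← hL1d]; exact h1
        have := le_of_mul_le_mul_left h5 hs2
        linarith
      have huzR : (u : ℝ) ≤ z - 1 := by exact_mod_cast huz
      refine ⟨u, mem_col hs (by omega) hu3 ?_⟩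
      push_cast
      nlinarith
  have e1 : ⌈L⌉ = c0 + ⌈s * l⌉ := by rw [hL, Int.ceil_intCast_add]
  have e2 : ⌊R⌋ = c0 + ⌊(s + 3) * l⌋ := by rw [hR, Int.floor_intCast_add]
  have e3 : ⌈L1⌉ = c0 + (⌈s * (l + 3)⌉ - 9) := by
    rw [hL1, Int.ceil_intCast_add]
    congr 1
    have : s * (l + 3) - 9 = s * (l + 3) - ((9 : ℤ) : ℝ) := by push_cast; ring
    rw [this, Int.ceil_sub_intCast]
  have e4 : ⌊X⌋ = c0 + ((n : ℤ) * (m - g) + ⌊(s * d - n * m) + 3 * l⌋) := by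
    rw [hX, Int.floor_intCast_add]
    congr 1
    have : (n : ℝ) * (m - g) = (((n : ℤ) * (m - g) : ℤ) : ℝ) := by push_cast; ring
    rw [this, Int.floor_intCast_add]
  have k1 := min_le_left (⌊(s * d - n * m) + 3 * l⌋ + 1 - ⌈s * l⌉)
    (⌊(s * d - n * m) + 3 * l⌋ + ⌊(s + 3) * l⌋ + 11 - ⌈s * l⌉ - ⌈s * (l + 3)⌉)
  have k2 := min_le_right (⌊(s * d - n * m) + 3 * l⌋ + 1 - ⌈s * l⌉)
    (⌊(s * d - n * m) + 3 * l⌋ + ⌊(s + 3) * l⌋ + 11 - ⌈s * l⌉ - ⌈s * (l + 3)⌉)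
  by_cases hgap : ⌊R⌋ + 1 < ⌈L1⌉
  · refine ⟨Icc ⌈L⌉ ⌊R⌋ ∪ Icc ⌈L1⌉ ⌊X⌋, ?_, ?_⟩
    · have hdisj : Disjoint (Icc ⌈L⌉ ⌊R⌋) (Icc ⌈L1⌉ ⌊X⌋) := by
        rw [disjoint_left]
        intro c hc1 hc2
        rw [mem_Icc] at hc1 hc2
        omega
      rw [card_union_of_disjoint hdisj, Int.card_Icc, Int.card_Icc]
      rw [e1, e2, e3, e4]
      push_cast
      have t1 := Int.self_le_toNat (c0 + ⌊(s + 3) * l⌋ + 1 - (c0 + ⌈s * l⌉))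
      have t2 := Int.self_le_toNat (c0 + ((n : ℤ) * (m - g) + ⌊(s * d - n * m) + 3 * l⌋) + 1 -
        (c0 + (⌈s * (l + 3)⌉ - 9)))
      unfold eps
      omega
    · intro c hc
      rw [mem_union, mem_Icc, mem_Icc, Int.ceil_le, Int.le_floor, Int.ceil_le, Int.le_floor] at hc
      rcases hc with hc | hc
      · exact hm1 c hc.1 hc.2
      · exact hm2 c hc.1 hc.2
  · refine ⟨Icc ⌈L⌉ ⌊X⌋, ?_, ?_⟩
    · rw [Int.card_Icc, e1, e4]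
      have t1 := Int.self_le_toNat (c0 + ((n : ℤ) * (m - g) + ⌊(s * d - n * m) + 3 * l⌋) + 1 -
        (c0 + ⌈s * l⌉))
      unfold eps
      omega
    · intro c hc
      rw [mem_Icc] at hc
      rcases le_or_gt c ⌊R⌋ with h1 | h1
      · exact hm1 c (Int.ceil_le.1 hc.1) (Int.le_floor.1 h1)
      · exact hm2 c (Int.ceil_le.1 (by omega)) (Int.le_floor.1 hc.2)

/-- the row of height `m` is not empty -/
theorem rowS_top {s : ℝ} {n m d : ℕ} (hn : s * s = n) (hs : 3 < s)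
    (hκ : s ≤ 3 * (s * d - n * m)) : ∃ c : ℤ,
      ∃ s0 : ℤ, ∀ t : ℤ, s0 ≤ t → t ≤ s0 + (m : ℤ) →
        ((1 * c - 0 * t, 0 * c + 1 * t) : ℤ × ℤ) ∈ T9 s d := by
  have hs0 : 0 < s := by linarith
  have e : s * ((d : ℝ) - s * m) = s * d - n * m := by rw [← hn]; ring
  have hδ : 1 / 3 ≤ (d : ℝ) - s * m := by
    have : s * (1 / 3) ≤ s * ((d : ℝ) - s * m) := by rw [e]; linarith
    exact le_of_mul_le_mul_left this hs0
  refine ⟨⌈(s - 3) * (d : ℝ)⌉, 0, mem_col hs le_rfl ?_ ?_⟩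
  · push_cast
    have := Int.le_ceil ((s - 3) * (d : ℝ))
    linarith
  · push_cast
    have := Int.ceil_lt_add_one ((s - 3) * (d : ℝ))
    nlinarith

/-- the numerical condition with compensation -/
def NumS2 (s κ : ℝ) : Prop := ∀ l : ℝ, 0 ≤ l → l < 3 →
  0 ≤ eps s κ l ∨ (-1 ≤ eps s κ l ∧ ∀ k : ℤ, 0 ≤ l - s + 3 * k → l - s + 3 * k < 3 →
    1 ≤ eps s κ (l - s + 3 * k))

end Pool.Agent.H209.SW
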